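import Pool.Agent.Helper891_RP.Sel
import Pool.Agent.R384.Prd

/-!
# Continuous cocycles on the subgroup
-/

set_option autoImplicit false
set_option linter.unusedSectionVars false

open NumberField IsDedekindDomain Module

namespace Pool.Agent.Helper891_RP

open scoped Classical

open Pool.Agent.Y715.Nr Pool.Agent.Y715.Red
open Pool.Agent.Y715.Gi (QB KK GK i₀_mem gk_fix)
open Pool.Agent.Y715.Df (Cmp exists_cmp)
open Pool.Agent.R384 (II DD iw Tr vadd vsub norm_two')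
open Pool.Agent.Y682 (NCl)

/-- Galois fields of odd degree are totally real -/
lemma treal {L : Type} [Field L] [NumberField L] [IsGalois ℚ L] (h : Odd (finrank ℚ L)) :
    IsTotallyReal L where
  isReal w := by
    have h1 := IsUnramifiedAtInfinitePlaces_of_odd_finrank (k := ℚ) (K := L) h
    rcases InfinitePlace.isUnramified_iff.1 (h1.isUnramified w) with h2 | h2
    · exact h2
    · exact absurd (IsTotallyReal.isReal (w.comap (algebraMap ℚ L)))
        (InfinitePlace.not_isReal_iff_isComplex.2 h2)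

/-- `-7` is not a square -/
lemma nsq7 {L : Type} [Field L] [NumberField L] [IsTotallyReal L] :
    Fact (∀ r : L, r ^ 2 ≠ (-7 : L) + 0 * r) := by
  refine ⟨fun r hr => ?_⟩
  obtain ⟨w⟩ := (inferInstance : Nonempty (InfinitePlace L))
  have hw := IsTotallyReal.isReal w
  have h1 := congrArg (InfinitePlace.embedding_of_isReal hw) hr
  rw [zero_mul, add_zero, map_pow, map_neg, map_ofNat] at h1
  have h2 := sq_nonneg (InfinitePlace.embedding_of_isReal hw r)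
  rw [h1] at h2
  norm_num at h2

/-- only one place above `p` -/
def One (F : Type) [Field F] [NumberField F] (p : ℕ) : Prop :=
  ∀ v w : HeightOneSpectrum (𝓞 F), (p : 𝓞 F) ∈ v.asIdeal → (p : 𝓞 F) ∈ w.asIdeal → v = w

section

variable {F : Type} [Field F] [NumberField F] [IsGalois ℚ F] (i : F →+* QB) {i₀ : QB}
  (hi : i₀ ^ 2 = i₀ - 2) {B : Type} [Fintype B] {R : Representation ℚ_[2] (GK i₀) (B → ℚ_[2])}
  {κ : B → (QB →ₐ[ℚ] PadicAlgCl 2)}

instance : CompactSpace (GK i₀) := inferInstance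

lemma HH_compact : IsCompact ((HH i i₀ : Subgroup (GK i₀)) : Set (GK i₀)) :=
  ((HH i i₀).isClosed_of_isOpen (HH_open i)).isCompact

variable {i}

include hi in
/-- **Extension of the Selmer cocycles.** -/
theorem core (hN : Odd (Nat.card (NCl F))) (hodd : Odd (finrank ℚ F)) (h2 : One F 2) (h7 : One F 7)
    (rc : RC i R κ) {c : HH i i₀ → B → ℚ_[2]} (hc : Continuous c)
    (hm : ∀ σ τ : HH i i₀, c (σ * τ) = c σ + R σ (c τ))
    (ho : ∀ (p : ℕ) [Fact p.Prime] (ι : QB →ₐ[ℚ] PadicAlgCl p), p ≠ 2 →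
      ∃ y : B → ℚ_[2], ∀ σ : HH i i₀, (σ : GK i₀) ∈ (II ι : Set (GK i₀)) → c σ = R σ y - y)
    (ht : ∀ b, ∃ y : B → ℚ_[2], ∀ σ : HH i i₀, (σ : GK i₀) ∈ (DD (κ b) : Set (GK i₀)) →
      ∀ b', κ b' = κ b → c σ b' = (R σ y - y) b') :
    ∃ C : GK i₀ → B → ℚ_[2], (∀ σ : HH i i₀, C σ = c σ) ∧
      (∀ σ τ, C (σ * τ) = C σ + R σ (C τ)) ∧ Continuous C ∧
      (∀ (p : ℕ) [Fact p.Prime] (ι : QB →ₐ[ℚ] PadicAlgCl p), p ≠ 2 →
        ∃ y : B → ℚ_[2], ∀ σ ∈ (II ι : Set (GK i₀)), C σ = R σ y - y) ∧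
      ∀ b, ∃ y : B → ℚ_[2], ∀ σ ∈ (DD (κ b) : Set (GK i₀)),
        ∀ b', κ b' = κ b → C σ b' = (R σ y - y) b' := by
  have := treal hodd
  have hx := nsq7 (L := F)
  set c' : GK i₀ → B → ℚ_[2] := fun σ => if h : σ ∈ HH i i₀ then c ⟨σ, h⟩ else 0 with hc'
  have hcc : ∀ σ : HH i i₀, c' σ = c σ := fun σ => by
    show (if h : (σ : GK i₀) ∈ HH i i₀ then c ⟨σ, h⟩ else 0) = c σ
    rw [dif_pos σ.2]
  have hcc' : ∀ σ (h : σ ∈ HH i i₀), c' σ = c ⟨σ, h⟩ := fun σ h => hcc ⟨σ, h⟩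
  have c1 : c 1 = 0 := by
    have h := hm 1 1
    rw [mul_one] at h
    have h3 : R ((1 : HH i i₀) : GK i₀) (c 1) = c 1 := Ru_one (R := R) (c 1)
    rw [h3] at h
    exact left_eq_add.1 h
  have ps : PS i R κ c' := by
    refine ⟨?_, ?_, ?_, ?_⟩
    · intro σ hσ τ hτ
      rw [hcc' σ hσ, hcc' τ hτ, hcc' (σ * τ) (mul_mem hσ hτ)]
      exact hm ⟨σ, hσ⟩ ⟨τ, hτ⟩
    · intro ε hε
      have hV : IsOpen (c ⁻¹' Metric.ball 0 ε) := Metric.isOpen_ball.preimage hc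
      obtain ⟨U, hU, hUV⟩ := isOpen_induced_iff.1 hV
      refine ⟨U, hU, ?_, ?_⟩
      · have : (1 : HH i i₀) ∈ Subtype.val ⁻¹' U := by
          rw [hUV]
          show c 1 ∈ Metric.ball 0 ε
          rw [c1]
          exact Metric.mem_ball_self hε
        exact this
      · intro τ hτ hτH
        have : (⟨τ, hτH⟩ : HH i i₀) ∈ Subtype.val ⁻¹' U := hτ
        rw [hUV] at this
        rw [hcc' τ hτH]
        exact mem_ball_zero_iff.1 this
    · intro p _ ι hp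
      obtain ⟨y, hy⟩ := ho p ι hp
      exact ⟨y, fun σ h1 h3 => by rw [hcc' σ h3]; exact hy ⟨σ, h3⟩ h1⟩
    · intro b
      obtain ⟨y, hy⟩ := ht b
      exact ⟨y, fun σ h1 h3 b' hb' => by rw [hcc' σ h3]; exact hy ⟨σ, h3⟩ h1 b' hb'⟩
  have hcpt : CompactSpace (HH i i₀) := isCompact_iff_compactSpace.1 (HH_compact i)
  obtain ⟨M, hM⟩ : ∃ M : ℝ, ∀ σ : HH i i₀, ‖c σ‖ ≤ M := by
    obtain ⟨M, hM⟩ := (isCompact_univ.image hc).isBounded.exists_norm_le
    exact ⟨M, fun σ => hM _ ⟨σ, Set.mem_univ _, rfl⟩⟩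
  obtain ⟨C, h3, h4, h5, h6, h8⟩ := extend hi hx hN hodd (by exact_mod_cast h2)
    (by exact_mod_cast h7) rc ps (M := M) (fun σ hσ => by rw [hcc' σ hσ]; exact hM _)
  exact ⟨C, fun σ => by rw [h3 σ σ.2, hcc], h4, h5, h6, h8⟩

end

/-! ### Integral matrices -/

section mat

variable {B : Type} [Fintype B] {i₀ : QB} (ρ : GK i₀ →* Matrix B B ℤ_[2])

/-- the representation -/
noncomputable def mR : Representation ℚ_[2] (GK i₀) (B → ℚ_[2]) where
  toFun σ := Matrix.toLin' ((ρ σ).map (algebraMap ℤ_[2] ℚ_[2]))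
  map_one' := by
    rw [map_one, Matrix.map_one _ (map_zero _) (map_one _), Matrix.toLin'_one]
    rfl
  map_mul' σ τ := by
    rw [map_mul, Matrix.map_mul, Matrix.toLin'_mul]
    rfl

lemma mR_apply (σ : GK i₀) (v : B → ℚ_[2]) (α : B) :
    mR ρ σ v α = ∑ β, (ρ σ α β : ℚ_[2]) * v β := by
  show Matrix.toLin' ((ρ σ).map (algebraMap ℤ_[2] ℚ_[2])) v α = _
  rw [Matrix.toLin'_apply, Matrix.mulVec, dotProduct]
  rfl

variable {ρ}

lemma mR_tr (h : ∀ σ α β, (2 : ℤ_[2]) ∣ (ρ σ - 1) α β) : Tr (mR ρ) := by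
  intro σ v
  rw [pi_norm_le_iff_of_nonneg (by positivity)]
  intro α
  have e : (mR ρ σ v - v) α = ∑ β, (((ρ σ - 1) α β : ℤ_[2]) : ℚ_[2]) * v β := by
    rw [Pi.sub_apply, mR_apply]
    have e1 : ∀ β, (((ρ σ - 1) α β : ℤ_[2]) : ℚ_[2]) * v β =
        (ρ σ α β : ℚ_[2]) * v β - (if α = β then v β else 0) := by
      intro β
      rw [Matrix.sub_apply, Matrix.one_apply, PadicInt.coe_sub, sub_mul]
      split_ifs
      · rw [PadicInt.coe_one, one_mul]
      · rw [PadicInt.coe_zero, zero_mul]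
    simp only [e1]
    rw [Finset.sum_sub_distrib, Finset.sum_ite_eq]
    simp
  rw [e]
  refine Pool.Agent.R384.nsum _ _ (by positivity) fun β _ => ?_
  have h1 : ‖(((ρ σ - 1) α β : ℤ_[2]) : ℚ_[2])‖ ≤ 1 / 2 := by
    obtain ⟨t, ht⟩ := h σ α β
    rw [ht, PadicInt.coe_mul, norm_mul]
    have h2 : ‖((2 : ℤ_[2]) : ℚ_[2])‖ = 1 / 2 := norm_two'
    rw [h2]
    have h3 : ‖(t : ℚ_[2])‖ ≤ 1 := PadicInt.norm_le_one t
    nlinarith
  rw [norm_mul]
  have h2 := norm_le_pi_norm v β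
  calc _ ≤ (1 / 2 : ℝ) * ‖v‖ := mul_le_mul h1 h2 (norm_nonneg _) (by norm_num)
    _ = ‖v‖ / 2 := by ring

end mat

end Pool.Agent.Helper891_RP
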