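import Mathlib

/-!
# Corestriction of cocycles
-/

set_option autoImplicit false
set_option linter.unusedSectionVars false

namespace Pool.Agent.Helper891_RP

open scoped Classical

section cor

variable {G : Type} [Group G] {H : Subgroup G} [hN : H.Normal] [hF : H.FiniteIndex]
  {k V : Type} [Field k] [AddCommGroup V] [Module k V] (R : Representation k G V)

lemma Ru_mul (σ τ : G) (v : V) : R (σ * τ) v = R σ (R τ v) := by rw [map_mul]; rfl

lemma Ru_one (v : V) : R 1 v = v := by rw [map_one]; rfl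

variable (H) in
/-- a cocycle on `H` -/
def CocOn (c : G → V) : Prop := ∀ σ ∈ H, ∀ τ ∈ H, c (σ * τ) = c σ + R σ (c τ)

/-- a section -/
def Sec (r : G ⧸ H → G) : Prop := ∀ δ, (r δ : G ⧸ H) = δ

noncomputable instance : Fintype (G ⧸ H) := Fintype.ofFinite _

/-- the corestriction -/
noncomputable def cor (r : G ⧸ H → G) (c : G → V) (g : G) : V :=
  ∑ δ : G ⧸ H, R (r (g • δ)) (c ((r (g • δ))⁻¹ * g * r δ))

variable {R} {r r' : G ⧸ H → G} {c : G → V}

lemma Sec.mem (hr : Sec r) (g : G) (δ : G ⧸ H) : (r (g • δ))⁻¹ * g * r δ ∈ H := by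
  rw [mul_assoc, ← QuotientGroup.eq, hr]
  have h1 : ((g * r δ : G) : G ⧸ H) = g • ((r δ : G) : G ⧸ H) := rfl
  rw [h1, hr]

lemma Sec.mem' (hr : Sec r) (hr' : Sec r') (δ : G ⧸ H) : (r δ)⁻¹ * r' δ ∈ H := by
  rw [← QuotientGroup.eq, hr, hr']

lemma smul_of_mem {h : G} (hh : h ∈ H) (δ : G ⧸ H) : h • δ = δ := by
  obtain ⟨g, rfl⟩ := QuotientGroup.mk_surjective δ
  have h1 : h • ((g : G) : G ⧸ H) = ((h * g : G) : G ⧸ H) := rfl
  rw [h1, QuotientGroup.eq]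
  have h2 : (h * g)⁻¹ * g = g⁻¹ * h⁻¹ * g := by group
  rw [h2]
  have := hN.conj_mem h⁻¹ (H.inv_mem hh) g⁻¹
  rwa [inv_inv] at this

lemma sum_smul {M : Type} [AddCommMonoid M] (g : G) (f : G ⧸ H → M) :
    ∑ δ : G ⧸ H, f (g • δ) = ∑ δ : G ⧸ H, f δ :=
  Equiv.sum_comp (MulAction.toPerm g) f

lemma CocOn.one (hc : CocOn H R c) : c 1 = 0 := by
  have h := hc 1 H.one_mem 1 H.one_mem
  rw [mul_one, Ru_one] at h
  exact left_eq_add.1 h

lemma CocOn.inv (hc : CocOn H R c) {h : G} (hh : h ∈ H) : R h (c h⁻¹) = -c h := by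
  have h1 := hc h hh h⁻¹ (H.inv_mem hh)
  rw [mul_inv_cancel, hc.one] at h1
  exact (neg_eq_of_add_eq_zero_right h1.symm).symm

/-- the corestriction is a cocycle -/
theorem cor_mul (hr : Sec r) (hc : CocOn H R c) (g g' : G) :
    cor R r c (g * g') = cor R r c g + R g (cor R r c g') := by
  unfold cor
  rw [← sum_smul g' (fun δ => R (r (g • δ)) (c ((r (g • δ))⁻¹ * g * r δ))), map_sum,
    ← Finset.sum_add_distrib]
  refine Finset.sum_congr rfl fun δ _ => ?_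
  have e : (r ((g * g') • δ))⁻¹ * (g * g') * r δ =
      ((r (g • g' • δ))⁻¹ * g * r (g' • δ)) * ((r (g' • δ))⁻¹ * g' * r δ) := by
    rw [mul_smul]
    group
  rw [e, hc _ (hr.mem _ _) _ (hr.mem _ _), map_add, ← Ru_mul, ← Ru_mul, mul_smul]
  congr 3
  group

/-- the corestriction of a coboundary modulo a subspace -/
theorem cor_cob_mod (hr : Sec r) {F : Submodule k V} {D : Subgroup G} (hrD : ∀ δ, r δ ∈ D)
    (hst : ∀ σ ∈ D, ∀ v ∈ F, R σ v ∈ F) {y : V}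
    (hy : ∀ h ∈ D, h ∈ H → c h - (R h y - y) ∈ F) {g : G} (hg : g ∈ D) :
    cor R r c g - (R g (∑ δ : G ⧸ H, R (r δ) y) - ∑ δ : G ⧸ H, R (r δ) y) ∈ F := by
  unfold cor
  rw [map_sum, ← sum_smul g (fun δ => R (r δ) y)]
  have e : ∀ a b c : G ⧸ H → V, ∑ δ, a δ - (∑ δ, b δ - ∑ δ, c δ) = ∑ δ, (a δ - (b δ - c δ)) := by
    intro a b c
    rw [Finset.sum_sub_distrib, Finset.sum_sub_distrib]
  rw [e]
  refine F.sum_mem fun δ _ => ?_
  have h1 := hst _ (hrD (g • δ)) _ (hy _ (D.mul_mem (D.mul_mem (D.inv_mem (hrD (g • δ))) hg)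
    (hrD δ)) (hr.mem g δ))
  rw [map_sub, map_sub, ← Ru_mul] at h1
  have e2 : r (g • δ) * ((r (g • δ))⁻¹ * g * r δ) = g * r δ := by group
  rw [e2, Ru_mul] at h1
  exact h1

theorem cor_cob (hr : Sec r) {y : V} (hy : ∀ h ∈ H, c h = R h y - y) (g : G) :
    cor R r c g = R g (∑ δ : G ⧸ H, R (r δ) y) - ∑ δ : G ⧸ H, R (r δ) y := by
  have h := cor_cob_mod (R := R) (F := ⊥) (D := ⊤) (y := y) (c := c) hr (fun _ => Subgroup.mem_top _)
    (fun σ _ v hv => by rw [(Submodule.mem_bot k).1 hv, map_zero]; exact (Submodule.mem_bot k).2 rfl)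
    (fun h _ hh => by rw [hy h hh, sub_self]; exact (Submodule.mem_bot k).2 rfl) (Subgroup.mem_top g)
  exact sub_eq_zero.1 ((Submodule.mem_bot k).1 h)

/-- the corestriction of a cocycle of the group -/
theorem cor_res (hr : Sec r) (hc : ∀ σ τ, c (σ * τ) = c σ + R σ (c τ)) (g : G) :
    cor R r c g = (Fintype.card (G ⧸ H)) • c g +
      (R g (∑ δ : G ⧸ H, c (r δ)) - ∑ δ : G ⧸ H, c (r δ)) := by
  unfold cor
  have h1 : ∀ δ : G ⧸ H, R (r (g • δ)) (c ((r (g • δ))⁻¹ * g * r δ)) =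
      c g + R g (c (r δ)) - c (r (g • δ)) := by
    intro δ
    have h2 := hc (r (g • δ)) ((r (g • δ))⁻¹ * g * r δ)
    have e2 : r (g • δ) * ((r (g • δ))⁻¹ * g * r δ) = g * r δ := by group
    rw [e2, hc] at h2
    rw [h2]
    abel
  simp only [h1]
  rw [Finset.sum_sub_distrib, Finset.sum_add_distrib, sum_smul g (fun δ => c (r δ)), map_sum,
    Finset.sum_const, Finset.card_univ]
  abel

/-- change of the section -/
theorem cor_change (hr : Sec r) (hr' : Sec r') (hc : CocOn H R c) (g : G) :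
    cor R r' c g = cor R r c g + (R g (∑ δ : G ⧸ H, R (r δ) (c ((r δ)⁻¹ * r' δ))) -
      ∑ δ : G ⧸ H, R (r δ) (c ((r δ)⁻¹ * r' δ))) := by
  unfold cor
  rw [map_sum, ← sum_smul g (fun δ => R (r δ) (c ((r δ)⁻¹ * r' δ))), ← Finset.sum_sub_distrib,
    ← Finset.sum_add_distrib]
  refine Finset.sum_congr rfl fun δ _ => ?_
  set a := (r (g • δ))⁻¹ * g * r δ with ha
  set κ := (r δ)⁻¹ * r' δ with hκ
  set κ' := (r (g • δ))⁻¹ * r' (g • δ) with hκ'
  have m1 : a ∈ H := hr.mem g δ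
  have m2 : κ ∈ H := hr.mem' hr' δ
  have m3 : κ' ∈ H := hr.mem' hr' (g • δ)
  have e1 : (r' (g • δ))⁻¹ * g * r' δ = κ'⁻¹ * (a * κ) := by
    rw [ha, hκ, hκ']
    group
  have e2 : r' (g • δ) = r (g • δ) * κ' := by rw [hκ']; group
  have e3 : r (g • δ) * a = g * r δ := by rw [ha]; group
  have e4 : R κ' (R κ'⁻¹ (c a + R a (c κ))) = c a + R a (c κ) := by
    rw [← Ru_mul, mul_inv_cancel, Ru_one]
  rw [e1, e2, hc _ (H.inv_mem m3) _ (H.mul_mem m1 m2), hc _ m1 _ m2, Ru_mul,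
    map_add (R κ'), hc.inv m3, e4, map_add, map_add, map_neg, ← Ru_mul R (r (g • δ)) a, e3, Ru_mul]
  abel

end cor

end Pool.Agent.Helper891_RP
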