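import Pool.Agent.Y682.UnrC
import Pool.Agent.Y682.NrmP

/-!
# Squares in `F(√-7)`
-/

set_option autoImplicit false
set_option linter.unusedSectionVars false

open NumberField IsDedekindDomain Module

namespace Pool.Agent.Helper891_RP

open Pool.Agent.TeamU Pool.Agent.TeamU.KI Pool.Agent.Y682

section odd7

variable {F : Type} [Field F] [NumberField F]

/-- the ramification index is odd -/
lemma c_odd {p : ℕ} [hp : Fact p.Prime] {v : HeightOneSpectrum (𝓞 F)}
    (huniq : ∀ w : HeightOneSpectrum (𝓞 F), (p : 𝓞 F) ∈ w.asIdeal → w = v)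
    (hodd : Odd (finrank ℚ F)) : ∃ c : ℤ, Odd c ∧ v.valuation F (p : F) = WithZero.exp (-c) := by
  have hp0 : ((p : ℕ) : F) ≠ 0 := by exact_mod_cast hp.out.ne_zero
  have hvp0 : v.valuation F (p : F) ≠ 0 := (Valuation.ne_zero_iff _).2 hp0
  obtain ⟨c, hc⟩ : ∃ c : ℤ, v.valuation F (p : F) = WithZero.exp (-c) :=
    ⟨-WithZero.log (v.valuation F (p : F)), by rw [neg_neg]; exact (WithZero.exp_log hvp0).symm⟩
  refine ⟨c, ?_, hc⟩
  obtain ⟨π, hπ⟩ := v.valuation_exists_uniformizer F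
  have hπ0 : π ≠ 0 := by
    rintro rfl
    rw [map_zero] at hπ
    exact WithZero.coe_ne_zero hπ.symm
  have hπ' : v.valuation F π = WithZero.exp (-1 : ℤ) := hπ
  have hx : v.valuation F (π ^ c * (p : F) ^ (-1 : ℤ)) = 1 := by
    rw [map_mul, map_zpow₀, map_zpow₀, hπ', hc, ← WithZero.exp_zsmul, ← WithZero.exp_zsmul,
      ← WithZero.exp_add, ← WithZero.exp_zero]
    congr 1
    simp only [smul_eq_mul]
    ring
  have h1 := norm_norm_eq_one huniq hx
  have hNp : Algebra.norm ℚ (p : F) = (p : ℚ) ^ Module.finrank ℚ F := by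
    have := Algebra.norm_algebraMap (S := F) ((p : ℕ) : ℚ)
    rwa [map_natCast] at this
  have hzp : ∀ (x : Fˣ) (n : ℤ), Algebra.norm ℚ ((x : F) ^ n) = (Algebra.norm ℚ (x : F)) ^ n := by
    intro x n
    have h := congrArg Units.val (map_zpow (Units.map (Algebra.norm ℚ : F →* ℚ)) x n)
    rw [Units.coe_map, Units.val_zpow_eq_zpow_val, Units.val_zpow_eq_zpow_val, Units.coe_map] at h
    exact h
  have hzp2 := hzp (Units.mk0 (p : F) hp0) (-1)
  have hzp3 := hzp (Units.mk0 π hπ0) c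
  rw [Units.val_mk0] at hzp2 hzp3
  set r := Algebra.norm ℚ π with hr
  have hr0 : r ≠ 0 := by rw [hr, Ne, Algebra.norm_eq_zero_iff]; exact hπ0
  rw [map_mul, hzp3, hzp2, hNp] at h1
  push_cast at h1
  rw [norm_mul, norm_zpow, norm_zpow, norm_pow, Padic.norm_p,
    Padic.norm_eq_zpow_neg_valuation (by exact_mod_cast hr0)] at h1
  set t := (r : ℚ_[p]).valuation with ht
  have hp1 : (1 : ℝ) < (p : ℝ) := by exact_mod_cast hp.out.one_lt
  have hp0' : (p : ℝ) ≠ 0 := by positivity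
  have h2 : (p : ℝ) ^ (-(t * c) + (Module.finrank ℚ F : ℤ)) = (p : ℝ) ^ (0 : ℤ) := by
    rw [zpow_zero, ← h1, zpow_add₀ hp0']
    congr 1
    · rw [← zpow_mul]
      congr 1
      ring
    · rw [← zpow_natCast, ← zpow_neg_one, ← zpow_mul, ← zpow_mul]
      congr 1
      ring
  have h3 := zpow_right_injective₀ (by positivity) hp1.ne' h2
  have h4 : t * c = (Module.finrank ℚ F : ℤ) := by linarith
  have h5 : Odd (t * c) := by rw [h4]; exact_mod_cast hodd
  exact (Int.odd_mul.1 h5).2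

end odd7

section quad

variable {F : Type} [Field F] [NumberField F] [hx : Fact (∀ r : F, r ^ 2 ≠ (-7 : F) + 0 * r)]

/-- the field `F(√-7)` -/
abbrev LL (F : Type) [Field F] : Type := QE (-7 : F)

/-- the square root -/
abbrev sq7 (F : Type) [Field F] : LL F := QuadraticAlgebra.omega

lemma sq7_sq : (sq7 F) ^ 2 = -7 := by
  have h := omega_sq (-7 : F)
  rw [map_neg, map_ofNat] at h
  exact h

/-- unramified outside `7` -/
lemma unr7 {P : HeightOneSpectrum (𝓞 (LL F))} (hP : (7 : 𝓞 (LL F)) ∉ P.asIdeal) : Unr F P := by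
  set w : LL F := (1 + sq7 F) / 2 with hw
  have h7 := sq7_sq (F := F)
  have hww : w ^ 2 - w + 2 = 0 := by
    rw [hw]
    field_simp
    linear_combination h7
  have hint : IsIntegral ℤ w := by
    refine ⟨Polynomial.X ^ 2 - Polynomial.X + Polynomial.C 2, by monicity!, ?_⟩
    simp only [Polynomial.eval₂_add, Polynomial.eval₂_sub, Polynomial.eval₂_pow, Polynomial.eval₂_X,
      Polynomial.eval₂_C]
    simpa using hww
  let θ : 𝓞 (LL F) := ⟨w, hint⟩
  have h2w : 2 * w - 1 = sq7 F := by rw [hw]; ring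
  refine unr_of_deriv (finrank_QE (-7 : F)) P θ 1 2 ?_ ?_ ?_
  · apply RingOfIntegers.ext
    rw [map_one, one_mul, map_ofNat]
    exact hww
  · rintro ⟨m, hm⟩
    have hm' : algebraMap F (LL F) m = w := hm
    apply omega_notin (-7 : F)
    refine ⟨2 * m - 1, ?_⟩
    rw [map_sub, map_mul, map_ofNat, map_one, hm', h2w]
  · intro hmem
    apply hP
    have e : (7 : 𝓞 (LL F)) = -((2 * θ - algebraMap (𝓞 F) (𝓞 (LL F)) 1) *
        (2 * θ - algebraMap (𝓞 F) (𝓞 (LL F)) 1)) := by
      apply RingOfIntegers.ext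
      rw [map_one]
      show (7 : LL F) = -((2 * w - 1) * (2 * w - 1))
      rw [h2w]
      linear_combination h7
    rw [e]
    exact P.asIdeal.neg_mem (P.asIdeal.mul_mem_left _ hmem)

lemma val7_one {v : HeightOneSpectrum (𝓞 F)} (h : (7 : 𝓞 F) ∉ v.asIdeal) :
    v.valuation F (7 : F) = 1 := by
  have h1 : v.valuation F (algebraMap (𝓞 F) F 7) = 1 := by
    rw [HeightOneSpectrum.valuation_eq_one_iff_notMem]
    exact h
  rwa [map_ofNat] at h1

lemma seven_over {P : HeightOneSpectrum (𝓞 (LL F))} {v : HeightOneSpectrum (𝓞 F)} (h : Over P v) :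
    (7 : 𝓞 (LL F)) ∈ P.asIdeal ↔ (7 : 𝓞 F) ∈ v.asIdeal := by
  rw [← h, Ideal.mem_comap, map_ofNat]

/-- the prime over `7` -/
lemma ram7 (hodd : Odd (finrank ℚ F))
    (h7 : ∀ v w : HeightOneSpectrum (𝓞 F), (7 : 𝓞 F) ∈ v.asIdeal → (7 : 𝓞 F) ∈ w.asIdeal → v = w)
    {v : HeightOneSpectrum (𝓞 F)} (hv : (7 : 𝓞 F) ∈ v.asIdeal) {P : HeightOneSpectrum (𝓞 (LL F))}
    (hP : Over P v) : v.asIdeal.ramificationIdx' P.asIdeal = 2 ∧
      ∀ Q : HeightOneSpectrum (𝓞 (LL F)), Over Q v → Q = P := by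
  have : Fact (Nat.Prime 7) := ⟨by norm_num⟩
  obtain ⟨c, hc, hcv⟩ := c_odd (p := 7) (v := v) (fun w hw => (h7 v w hv (by exact_mod_cast hw)).symm)
    hodd
  have hcv' : v.valuation F (7 : F) = WithZero.exp (-c) := by exact_mod_cast hcv
  have heven : ∀ Q : HeightOneSpectrum (𝓞 (LL F)), Over Q v →
      Even (v.asIdeal.ramificationIdx' Q.asIdeal) := by
    intro Q hQ
    have h1 := val_over hQ (-7 : F)
    rw [map_neg, map_ofNat, ← sq7_sq (F := F), map_pow, Valuation.map_neg, hcv'] at h1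
    have hne : Q.valuation (LL F) (sq7 F) ≠ 0 := by
      rw [Valuation.ne_zero_iff]
      intro h0
      have h2 := sq7_sq (F := F)
      rw [h0] at h2
      norm_num at h2
    rw [← WithZero.exp_log hne, ← WithZero.exp_nsmul, ← WithZero.exp_nsmul, WithZero.exp_inj] at h1
    simp only [nsmul_eq_mul] at h1
    have h2 : Even ((v.asIdeal.ramificationIdx' Q.asIdeal : ℤ) * c) := by
      refine ⟨-WithZero.log (Q.valuation (LL F) (sq7 F)), ?_⟩
      push_cast at h1
      linarith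
    rcases Int.even_mul.1 h2 with h3 | h3
    · exact_mod_cast h3
    · exact absurd h3 (Int.not_even_iff_odd.2 hc)
  have hmax : v.asIdeal.IsMaximal := v.isMaximal
  have key := Ideal.sum_ramification_inertia (𝓞 (LL F)) F (LL F) (p := v.asIdeal) v.ne_bot
  rw [finrank_QE (-7 : F)] at key
  have hmem : ∀ Q : HeightOneSpectrum (𝓞 (LL F)), Over Q v →
      Q.asIdeal ∈ IsDedekindDomain.primesOverFinset v.asIdeal (𝓞 (LL F)) := by
    intro Q hQ
    rw [IsDedekindDomain.mem_primesOverFinset_iff v.ne_bot]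
    exact ⟨Q.isPrime, liesOver_of_over hQ⟩
  have hge : ∀ Q : HeightOneSpectrum (𝓞 (LL F)), Over Q v → 2 ≤ v.asIdeal.ramificationIdx' Q.asIdeal ∧
      1 ≤ v.asIdeal.inertiaDeg' Q.asIdeal := by
    intro Q hQ
    have hlies := liesOver_of_over hQ
    have hne := Ideal.IsDedekindDomain.ramificationIdx'_ne_zero_of_liesOver Q.asIdeal v.ne_bot
    obtain ⟨k, hk⟩ := heven Q hQ
    refine ⟨by omega, ?_⟩
    exact Nat.pos_of_ne_zero (Ideal.inertiaDeg'_ne_zero v.asIdeal Q.asIdeal)
  have hsplit := Finset.add_sum_erase (IsDedekindDomain.primesOverFinset v.asIdeal (𝓞 (LL F)))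
    (fun Q => v.asIdeal.ramificationIdx' Q * v.asIdeal.inertiaDeg' Q) (hmem P hP)
  rw [key] at hsplit
  obtain ⟨g1, g2⟩ := hge P hP
  have hprod : 2 ≤ v.asIdeal.ramificationIdx' P.asIdeal * v.asIdeal.inertiaDeg' P.asIdeal := by
    nlinarith
  refine ⟨?_, fun Q hQ => ?_⟩
  · have : v.asIdeal.ramificationIdx' P.asIdeal * v.asIdeal.inertiaDeg' P.asIdeal = 2 := by omega
    nlinarith
  · by_contra hne
    have hQm : Q.asIdeal ∈ (IsDedekindDomain.primesOverFinset v.asIdeal (𝓞 (LL F))).erase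
        P.asIdeal := by
      rw [Finset.mem_erase]
      exact ⟨fun h => hne (HeightOneSpectrum.ext h), hmem Q hQ⟩
    have h3 := Finset.single_le_sum (f := fun Q => v.asIdeal.ramificationIdx' Q *
      v.asIdeal.inertiaDeg' Q) (fun _ _ => Nat.zero_le _) hQm
    obtain ⟨k1, k2⟩ := hge Q hQ
    have hprod' : 2 ≤ v.asIdeal.ramificationIdx' Q.asIdeal * v.asIdeal.inertiaDeg' Q.asIdeal := by
      nlinarith
    omega

lemma four_one {v : HeightOneSpectrum (𝓞 F)} (h : (2 : 𝓞 F) ∉ v.asIdeal) :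
    v.valuation F (4 : F) = 1 := by
  have h1 : v.valuation F (algebraMap (𝓞 F) F 2) = 1 := by
    rw [HeightOneSpectrum.valuation_eq_one_iff_notMem]
    exact h
  rw [map_ofNat] at h1
  have e : (4 : F) = 2 * 2 := by norm_num
  rw [e, map_mul, h1, one_mul]

lemma unrC_of_even {v : HeightOneSpectrum (𝓞 F)} (h : (2 : 𝓞 F) ∉ v.asIdeal) {x : F} {n : ℤ}
    (hn : v.valuation F x = WithZero.exp (2 * n)) : UnrC (v.valuation F) x := by
  obtain ⟨π, hπ⟩ := v.valuation_exists_uniformizer F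
  have hπ0 : π ≠ 0 := by
    rintro rfl
    rw [map_zero] at hπ
    exact WithZero.coe_ne_zero hπ.symm
  have hπ' : v.valuation F π = WithZero.exp (-1 : ℤ) := hπ
  refine UnrC.of_even (t := π ^ n) (zpow_ne_zero _ hπ0) ?_ (four_one h)
  rw [map_mul, map_pow, map_zpow₀, hn, hπ', ← WithZero.exp_zsmul, ← WithZero.exp_nsmul,
    ← WithZero.exp_add, ← WithZero.exp_zero]
  congr 1
  simp only [smul_eq_mul]
  ring

lemma unrC_seven (v : HeightOneSpectrum (𝓞 F)) (h : (7 : 𝓞 F) ∉ v.asIdeal) :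
    UnrC (v.valuation F) (-7 : F) := by
  refine ⟨1, 1, -2, one_ne_zero, by norm_num, ?_, (map_one _).le, ?_⟩
  · rw [one_pow, mul_one, Valuation.map_neg, val7_one h]
  · rw [Valuation.map_neg]
    have h1 : v.valuation F (algebraMap (𝓞 F) F 2) ≤ 1 := v.valuation_le_one _
    rwa [map_ofNat] at h1

/-- **Squares in `F(√-7)`.** -/
theorem key_sq [IsTotallyReal F] (hN : Odd (Nat.card (NCl F))) (hodd : Odd (finrank ℚ F))
    (h7 : ∀ v w : HeightOneSpectrum (𝓞 F), (7 : 𝓞 F) ∈ v.asIdeal → (7 : 𝓞 F) ∈ w.asIdeal → v = w)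
    {e : LL F} (he : e ≠ 0)
    (hval : ∀ P : HeightOneSpectrum (𝓞 (LL F)), ∃ n : ℤ, P.valuation (LL F) e = WithZero.exp (2 * n))
    (h2 : ∀ (r : F) (g : LL F), g ≠ 0 → e = algebraMap F (LL F) r * g ^ 2 →
      ∀ v : HeightOneSpectrum (𝓞 F), (2 : 𝓞 F) ∈ v.asIdeal → UnrC (v.valuation F) r) :
    ∃ y : LL F, y ^ 2 = e := by
  obtain ⟨σ, hσσ, hfix, hnorm, -⟩ := exists_conj (M := F) (E := LL F) (finrank_QE (-7 : F))
  -- the valuations of the norm
  set z := Algebra.norm F e with hz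
  have hz0 : z ≠ 0 := by rw [hz, Ne, Algebra.norm_eq_zero_iff]; exact he
  have hconj : ∀ P : HeightOneSpectrum (𝓞 (LL F)), P.valuation (LL F) (σ e) =
      (Pool.Agent.TeamU.act σ.symm P).valuation (LL F) e := by
    intro P
    rw [val_act']
    rfl
  have hzv : ∀ v : HeightOneSpectrum (𝓞 F), ∃ n : ℤ, v.valuation F z = WithZero.exp (2 * n) := by
    intro v
    obtain ⟨P, hP⟩ := b2_exists_over (E := LL F) v
    obtain ⟨a, ha⟩ := hval P
    by_cases hv : (7 : 𝓞 F) ∈ v.asIdeal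
    · obtain ⟨k1, k2⟩ := ram7 hodd h7 hv hP
      have h3 := k2 _ (over_act σ.symm hP)
      have h4 := val_over hP z
      rw [k1, hnorm, map_mul, hconj, h3, ha] at h4
      have hvz : v.valuation F z ≠ 0 := (Valuation.ne_zero_iff _).2 hz0
      refine ⟨a, ?_⟩
      rw [← WithZero.exp_log hvz] at h4 ⊢
      rw [← WithZero.exp_add, ← WithZero.exp_nsmul, WithZero.exp_inj] at h4
      rw [WithZero.exp_inj]
      simp only [nsmul_eq_mul] at h4
      push_cast at h4
      omega
    · obtain ⟨b, hb⟩ := hval (Pool.Agent.TeamU.act σ.symm P)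
      have hu := unr7 (P := P) (fun h => hv ((seven_over hP).1 h)) v hP z
      rw [hnorm, map_mul, hconj, ha, hb, ← WithZero.exp_add] at hu
      exact ⟨a + b, by rw [← hu]; congr 1; ring⟩
  have hzp : TotPos z := by
    intro φ
    rw [hz, norm_QE, map_sub, map_mul, map_pow, map_pow, map_neg, map_ofNat]
    have h3 : 0 ≤ φ e.re ^ 2 := sq_nonneg _
    have h4 : 0 ≤ φ e.im ^ 2 := sq_nonneg _
    by_contra hcon
    push Not at hcon
    have h5 : φ e.re ^ 2 = 0 := by nlinarith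
    have h6 : φ e.im ^ 2 = 0 := by nlinarith
    have h7 : e.re = 0 := (map_eq_zero φ).1 (pow_eq_zero_iff two_ne_zero |>.1 h5)
    have h8 : e.im = 0 := (map_eq_zero φ).1 (pow_eq_zero_iff two_ne_zero |>.1 h6)
    exact he (QuadraticAlgebra.ext h7 h8)
  obtain ⟨y, hy⟩ := elt_sq hN (Units.mk0 z hz0) hzp hzv
  have hy' : z = (y : F) ^ 2 := by
    have := congrArg Units.val hy
    simpa using this
  have hy0 : algebraMap F (LL F) (y : F) ≠ 0 := by simp
  -- Hilbert 90
  obtain ⟨w, hw0, hw⟩ := hilbert90_quad σ hσσ ⟨sq7 F, fun h => omega_notin (-7 : F) ((hfix _).1 h)⟩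
    (e / algebraMap F (LL F) (y : F)) (by
      rw [map_div₀, σ.commutes, div_mul_div_comm, ← hnorm e, ← hz, hy', map_pow]
      field_simp)
  have hσw : σ w ≠ 0 := by rw [Ne, EmbeddingLike.map_eq_zero_iff]; exact hw0
  set N := Algebra.norm F w with hNw
  have hN0 : algebraMap F (LL F) N ≠ 0 := by
    rw [hnorm]
    exact mul_ne_zero hw0 hσw
  set r := (y : F) / N with hr
  have hr0 : r ≠ 0 := by
    rw [hr]
    exact div_ne_zero y.ne_zero fun h => hN0 (by rw [h, map_zero])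
  have her : e = algebraMap F (LL F) r * w ^ 2 := by
    rw [div_eq_div_iff hy0 hσw] at hw
    rw [hr, map_div₀, hnorm]
    field_simp
    linear_combination hw
  -- the valuations of `r`
  have hrv : ∀ v : HeightOneSpectrum (𝓞 F), (7 : 𝓞 F) ∉ v.asIdeal → ∃ n : ℤ,
      v.valuation F r = WithZero.exp (2 * n) := by
    intro v hv
    obtain ⟨P, hP⟩ := b2_exists_over (E := LL F) v
    obtain ⟨a, ha⟩ := hval P
    have hu := unr7 (P := P) (fun h => hv ((seven_over hP).1 h)) v hP r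
    have hPw : P.valuation (LL F) w ≠ 0 := (Valuation.ne_zero_iff _).2 hw0
    rw [her, map_mul, map_pow, hu, ← WithZero.exp_log hPw, ← WithZero.exp_nsmul] at ha
    have hvr : v.valuation F r ≠ 0 := (Valuation.ne_zero_iff _).2 hr0
    rw [← WithZero.exp_log hvr, ← WithZero.exp_add, WithZero.exp_inj] at ha
    refine ⟨a - WithZero.log (P.valuation (LL F) w), ?_⟩
    rw [← WithZero.exp_log hvr, WithZero.exp_inj]
    simp only [nsmul_eq_mul] at ha
    push_cast at ha
    linarith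
  by_cases hE : ∀ v : HeightOneSpectrum (𝓞 F), (7 : 𝓞 F) ∈ v.asIdeal → ∃ n : ℤ,
      v.valuation F r = WithZero.exp (2 * n)
  · obtain ⟨t, ht⟩ := sq_of_unrC hN (Units.mk0 r hr0) (fun v => by
      by_cases hv2 : (2 : 𝓞 F) ∈ v.asIdeal
      · exact h2 r w hw0 her v hv2
      · by_cases hv7 : (7 : 𝓞 F) ∈ v.asIdeal
        · obtain ⟨n, hn⟩ := hE v hv7
          exact unrC_of_even hv2 hn
        · obtain ⟨n, hn⟩ := hrv v hv7
          exact unrC_of_even hv2 hn)
    have ht' : (t : F) ^ 2 = r := by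
      have := congrArg Units.val ht
      simpa using this
    exact ⟨algebraMap F (LL F) t * w, by rw [mul_pow, ← map_pow, ht', her]⟩
  · push Not at hE
    obtain ⟨v7, hv7, hodd7⟩ := hE
    have : Fact (Nat.Prime 7) := ⟨by norm_num⟩
    obtain ⟨c, hc, hcv⟩ := c_odd (p := 7) (v := v7)
      (fun w hw => (h7 v7 w hv7 (by exact_mod_cast hw)).symm) hodd
    have hcv' : v7.valuation F (7 : F) = WithZero.exp (-c) := by exact_mod_cast hcv
    have h70 : (-7 : F) ≠ 0 := by norm_num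
    have h27 : ∀ v : HeightOneSpectrum (𝓞 F), (2 : 𝓞 F) ∈ v.asIdeal → (7 : 𝓞 F) ∉ v.asIdeal := by
      intro v hv hv'
      apply v.isPrime.ne_top
      rw [Ideal.eq_top_iff_one]
      have e1 : (1 : 𝓞 F) = 7 - 2 * 3 := by norm_num
      rw [e1]
      exact sub_mem hv' (v.asIdeal.mul_mem_right _ hv)
    obtain ⟨t, ht⟩ := sq_of_unrC hN (Units.mk0 (-7 * r) (mul_ne_zero h70 hr0)) (fun v => by
      show UnrC (v.valuation F) (-7 * r)
      by_cases hv2 : (2 : 𝓞 F) ∈ v.asIdeal
      · exact (unrC_seven v (h27 v hv2)).mul (h2 r w hw0 her v hv2)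
      · by_cases hv7' : (7 : 𝓞 F) ∈ v.asIdeal
        · have hvv := h7 v v7 hv7' hv7
          subst hvv
          have hvr : v.valuation F r ≠ 0 := (Valuation.ne_zero_iff _).2 hr0
          have hoddr : Odd (WithZero.log (v.valuation F r)) := by
            rw [← Int.not_even_iff_odd]
            rintro ⟨k, hk⟩
            apply hodd7 k
            rw [← WithZero.exp_log hvr, hk]
            congr 1
            ring
          obtain ⟨m, hm⟩ : Even (WithZero.log (v.valuation F r) - c) := hoddr.sub_odd hc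
          refine unrC_of_even hv2 (n := m) ?_
          rw [map_mul, Valuation.map_neg, hcv', ← WithZero.exp_log hvr, ← WithZero.exp_add]
          congr 1
          linarith
        · obtain ⟨n, hn⟩ := hrv v hv7'
          exact unrC_of_even hv2 (n := n) (by
            rw [map_mul, Valuation.map_neg, val7_one hv7', one_mul, hn]))
    have ht' : (t : F) ^ 2 = -7 * r := by
      have := congrArg Units.val ht
      simpa using this
    have hs := sq7_sq (F := F)
    have hs0 : sq7 F ≠ 0 := by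
      intro h0
      rw [h0] at hs
      norm_num at hs
    refine ⟨algebraMap F (LL F) t / sq7 F * w, ?_⟩
    rw [mul_pow, div_pow, ← map_pow, ht', hs, map_mul, map_neg, map_ofNat, her]
    field_simp

end quad

end Pool.Agent.Helper891_RP
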