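import Pool.Agent.Helper891_RP.Loc
import Pool.Agent.Helper891_RP.Fld
import Pool.Agent.Helper891_RP.Cor
import Pool.Agent.R384.Main

/-!
# The fields `F` and `F(√-7)` in `ℚ̄`
-/

set_option autoImplicit false
set_option linter.unusedSectionVars false
set_option linter.style.haveILetI false

open NumberField IsDedekindDomain Module

namespace Pool.Agent.Helper891_RP

open Pool.Agent.Y715.Nr Pool.Agent.Y715.Red
open Pool.Agent.Y715.Gi (QB KK GK i₀_mem gk_fix)
open Pool.Agent.Y715.Df (Cmp exists_cmp)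
open Pool.Agent.R384 (II DD)

section res

variable {F : Type} [Field F] [NumberField F] [IsGalois ℚ F] {Ω : Type} [Field Ω] [Algebra ℚ Ω]

/-- the restriction of automorphisms -/
noncomputable def resA (j : F →+* Ω) : (Ω ≃ₐ[ℚ] Ω) →* (F ≃ₐ[ℚ] F) := by
  letI := j.toAlgebra
  haveI : IsScalarTower ℚ F Ω := IsScalarTower.of_algebraMap_eq fun x =>
    DFunLike.congr_fun (Subsingleton.elim (algebraMap ℚ Ω) (j.comp (algebraMap ℚ F))) x
  exact AlgEquiv.restrictNormalHom F

lemma resA_spec (j : F →+* Ω) (σ : Ω ≃ₐ[ℚ] Ω) (x : F) : j (resA j σ x) = σ (j x) := by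
  letI := j.toAlgebra
  haveI : IsScalarTower ℚ F Ω := IsScalarTower.of_algebraMap_eq fun x =>
    DFunLike.congr_fun (Subsingleton.elim (algebraMap ℚ Ω) (j.comp (algebraMap ℚ F))) x
  exact AlgEquiv.restrictNormal_commutes σ F x

end res

section

variable {F : Type} [Field F] [NumberField F] (i : F →+* QB) {i₀ : QB} (hi : i₀ ^ 2 = i₀ - 2)

include hi in
lemma sq_i₀ : (2 * i₀ - 1) ^ 2 = -7 := by linear_combination 4 * hi

/-- the map `F(√-7) → ℚ̄` -/
noncomputable def iL : LL F →+* QB where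
  toFun z := i z.re + i z.im * (2 * i₀ - 1)
  map_one' := by
    show i (1 : LL F).re + i (1 : LL F).im * (2 * i₀ - 1) = 1
    rw [QuadraticAlgebra.re_one, QuadraticAlgebra.im_one, map_one, map_zero]
    ring
  map_zero' := by
    show i (0 : LL F).re + i (0 : LL F).im * (2 * i₀ - 1) = 0
    rw [QuadraticAlgebra.re_zero, QuadraticAlgebra.im_zero, map_zero]
    ring
  map_add' x y := by
    show i (x + y).re + i (x + y).im * (2 * i₀ - 1) = _
    rw [QuadraticAlgebra.re_add, QuadraticAlgebra.im_add, map_add, map_add]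
    ring
  map_mul' x y := by
    show i (x * y).re + i (x * y).im * (2 * i₀ - 1) = _
    rw [QuadraticAlgebra.re_mul, QuadraticAlgebra.im_mul]
    simp only [map_add, map_mul, map_neg, map_ofNat, map_zero]
    linear_combination (-(i x.im * i y.im)) * sq_i₀ hi

lemma iL_apply (z : LL F) : iL i hi z = i z.re + i z.im * (2 * i₀ - 1) := rfl

lemma iL_alg (x : F) : iL i hi (algebraMap F (LL F) x) = i x := by
  rw [iL_apply, QuadraticAlgebra.algebraMap_eq]
  simp

lemma iL_om : iL i hi (sq7 F) = 2 * i₀ - 1 := by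
  rw [iL_apply]
  simp

variable [IsGalois ℚ F]

/-- the restriction to `F` -/
noncomputable def resG : GK i₀ →* (F ≃ₐ[ℚ] F) :=
  (resA i).comp { toFun := fun σ => σ.restrictScalars ℚ, map_one' := rfl, map_mul' := fun _ _ => rfl }

lemma resG_spec (σ : GK i₀) (x : F) : i (resG i σ x) = σ (i x) := resA_spec i (σ.restrictScalars ℚ) x

/-- the Galois group over `K F` -/
noncomputable def HH (i₀ : QB) : Subgroup (GK i₀) := (resG i (i₀ := i₀)).ker

lemma mem_HH {σ : GK i₀} : σ ∈ HH i i₀ ↔ ∀ x, σ (i x) = i x := by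
  unfold HH
  rw [MonoidHom.mem_ker]
  constructor
  · intro h x
    rw [← resG_spec, h]
    rfl
  · intro h
    ext x
    apply i.injective
    rw [resG_spec, h]
    rfl

instance : (HH i i₀).Normal := by unfold HH; infer_instance

instance : (HH i i₀).FiniteIndex := by
  unfold HH
  exact ⟨by
    rw [Subgroup.index_ker]
    exact Nat.card_pos.ne'⟩

lemma card_odd (hodd : Odd (finrank ℚ F)) : Odd (Fintype.card (GK i₀ ⧸ HH i i₀)) := by
  rw [← Nat.card_eq_fintype_card]
  have h1 : Nat.card (GK i₀ ⧸ HH i i₀) = (HH i i₀).index := rfl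
  have h2 : (HH i i₀).index ∣ finrank ℚ F := by
    unfold HH
    rw [Subgroup.index_ker, ← IsGalois.card_aut_eq_finrank]
    exact Subgroup.card_subgroup_dvd_card _
  rw [h1]
  obtain ⟨k, hk⟩ := h2
  rw [hk] at hodd
  exact (Nat.odd_mul.1 hodd).1

lemma HH_open : IsOpen ((HH i i₀ : Subgroup (GK i₀)) : Set (GK i₀)) := by
  obtain ⟨θ, hθ⟩ := Field.exists_primitive_element ℚ F
  have h1 : (HH i i₀ : Set (GK i₀)) = (MulAction.stabilizer (GK i₀) (i θ) : Set (GK i₀)) := by
    ext σ
    rw [SetLike.mem_coe, SetLike.mem_coe, mem_HH, MulAction.mem_stabilizer_iff]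
    constructor
    · intro h
      exact h θ
    · intro h x
      have hx : x ∈ IntermediateField.adjoin ℚ {θ} := by rw [hθ]; trivial
      induction hx using IntermediateField.adjoin_induction with
      | mem z hz =>
        rw [Set.mem_singleton_iff] at hz
        rw [hz]
        exact h
      | algebraMap q =>
        rw [eq_ratCast, map_ratCast, map_ratCast]
      | add y z _ _ hy hz => rw [map_add, map_add, hy, hz]
      | mul y z _ _ hy hz => rw [map_mul, map_mul, hy, hz]
      | inv y _ hy => rw [map_inv₀, map_inv₀, hy]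
  rw [h1]
  exact stabilizer_isOpen_of_isIntegral (i θ)

variable [hx : Fact (∀ r : F, r ^ 2 ≠ (-7 : F) + 0 * r)]

/-- elements fixed by the group -/
theorem fixL {y : QB} (h : ∀ σ ∈ HH i i₀, σ y = y) : ∃ x : LL F, iL i hi x = y := by
  letI : Algebra (LL F) QB := (iL i hi).toAlgebra
  haveI hst : IsScalarTower ℚ (LL F) QB := IsScalarTower.of_algebraMap_eq fun x =>
    DFunLike.congr_fun (Subsingleton.elim (algebraMap ℚ QB) ((iL i hi).comp (algebraMap ℚ (LL F)))) x
  haveI halg : Algebra.IsAlgebraic (LL F) QB := Algebra.IsAlgebraic.tower_top (K := ℚ) (LL F)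
  haveI : IsAlgClosure (LL F) QB := ⟨inferInstance, halg⟩
  haveI : IsGalois (LL F) QB := inferInstance
  have h1 : y ∈ Set.range (algebraMap (LL F) QB) := by
    rw [InfiniteGalois.mem_range_algebraMap_iff_fixed]
    intro σ
    -- `σ` as an element of the Galois group of `K`
    have hσi : σ i₀ = i₀ := by
      have h2 : σ (2 * i₀ - 1) = 2 * i₀ - 1 := by
        rw [← iL_om i hi]
        exact σ.commutes (sq7 F)
      rw [map_sub, map_mul, map_ofNat, map_one] at h2
      have h3 : (2 : QB) ≠ 0 := two_ne_zero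
      apply mul_left_cancel₀ h3
      linear_combination h2
    let σ' : QB ≃ₐ[ℚ] QB := σ.restrictScalars ℚ
    have hfix : σ' ∈ (KK i₀).fixingSubgroup := by
      rw [IntermediateField.mem_fixingSubgroup_iff]
      intro x hx
      induction hx using IntermediateField.adjoin_induction with
      | mem z hz =>
        rw [Set.mem_singleton_iff] at hz
        rw [hz]
        exact hσi
      | algebraMap q => exact σ'.commutes q
      | add y z _ _ hy hz => rw [map_add, hy, hz]
      | mul y z _ _ hy hz => rw [map_mul, hy, hz]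
      | inv y _ hy => rw [map_inv₀, hy]
    have h4 := h (IntermediateField.fixingSubgroupEquiv (KK i₀) ⟨σ', hfix⟩) (by
      rw [mem_HH]
      intro x
      show σ (i x) = i x
      rw [← iL_alg i hi]
      exact σ.commutes (algebraMap F (LL F) x))
    exact h4
  obtain ⟨x, hx⟩ := h1
  exact ⟨x, hx⟩

/-- locally constant on the subgroup -/
def LcOn (H : Subgroup (GK i₀)) (f : GK i₀ → ZMod 2) : Prop :=
  ∃ U : Set (GK i₀), IsOpen U ∧ (1 : GK i₀) ∈ U ∧ ∀ τ ∈ U, τ ∈ H → f τ = 0

/-- quadratic characters of the subgroup -/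
theorem kumH {f : GK i₀ → ZMod 2} (hlc : LcOn (HH i i₀) f)
    (hmul : ∀ σ ∈ HH i i₀, ∀ τ ∈ HH i i₀, f (σ * τ) = f σ + f τ) :
    ∃ s : QB, s ≠ 0 ∧ (∀ σ ∈ HH i i₀, (f σ = 0 ∧ σ s = s) ∨ (f σ = 1 ∧ σ s = -s)) ∧
      ∃ e : LL F, iL i hi e = s ^ 2 := by
  have h01 : ∀ x : ZMod 2, x = 0 ∨ x = 1 := by decide
  have hone : f 1 = 0 := by
    have := hmul 1 (one_mem _) 1 (one_mem _)
    rw [mul_one] at this
    exact left_eq_add.1 this
  have hinv : ∀ σ ∈ HH i i₀, f σ⁻¹ = f σ := by
    intro σ hσ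
    have h1 := hmul σ hσ σ⁻¹ (inv_mem hσ)
    rw [mul_inv_cancel, hone] at h1
    have h2 : ∀ a b : ZMod 2, 0 = a + b → b = a := by decide
    exact h2 _ _ h1
  have main : ∃ s : QB, s ≠ 0 ∧ (∀ σ ∈ HH i i₀, (f σ = 0 ∧ σ s = s) ∨ (f σ = 1 ∧ σ s = -s)) := by
    by_cases htriv : ∀ σ ∈ HH i i₀, f σ = 0
    · exact ⟨1, one_ne_zero, fun σ hσ => Or.inl ⟨htriv σ hσ, map_one σ⟩⟩
    · push Not at htriv
      obtain ⟨τ, hτ, hτ1⟩ := htriv
      have hτ' : f τ = 1 := (h01 _).resolve_left hτ1
      let H0 : Subgroup (GK i₀) :=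
        { carrier := {σ | σ ∈ HH i i₀ ∧ f σ = 0}
          mul_mem' := by
            rintro a b ⟨ha, ha'⟩ ⟨hb, hb'⟩
            exact ⟨mul_mem ha hb, by rw [hmul a ha b hb, ha', hb', add_zero]⟩
          one_mem' := ⟨one_mem _, hone⟩
          inv_mem' := by
            rintro a ⟨ha, ha'⟩
            exact ⟨inv_mem ha, by rw [hinv a ha, ha']⟩ }
      have hHo : IsOpen (H0 : Set (GK i₀)) := by
        obtain ⟨U, hU, h1U, hUf⟩ := hlc
        refine Subgroup.isOpen_of_mem_nhds H0 (g := 1) ?_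
        refine Filter.mem_of_superset ((hU.inter (HH_open i)).mem_nhds ⟨h1U, one_mem _⟩) ?_
        rintro σ ⟨h1, h2⟩
        exact ⟨h2, hUf σ h1 h2⟩
      let Hc : ClosedSubgroup (GK i₀) := ⟨H0, H0.isClosed_of_isOpen hHo⟩
      have hfx := InfiniteGalois.fixingSubgroup_fixedField Hc
      have hτn : τ ∉ (IntermediateField.fixedField (Hc : Subgroup (GK i₀))).fixingSubgroup := by
        rw [hfx]
        intro h
        exact hτ1 h.2
      rw [IntermediateField.mem_fixingSubgroup_iff] at hτn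
      push Not at hτn
      obtain ⟨x, hx, hx'⟩ := hτn
      have hxH : ∀ σ ∈ HH i i₀, f σ = 0 → σ x = x := fun σ hσ h0 => hx ⟨σ, hσ, h0⟩
      have cancel : ∀ z : QB, τ (τ⁻¹ z) = z := fun z => by
        rw [← AlgEquiv.mul_apply, mul_inv_cancel, AlgEquiv.one_apply]
      refine ⟨x - τ x, sub_ne_zero.2 (Ne.symm hx'), fun σ hσ => ?_⟩
      rcases h01 (f σ) with h | h
      · left
        refine ⟨h, ?_⟩
        have e2 : σ (τ x) = τ x := by
          have h3 : f (τ⁻¹ * σ * τ) = 0 := by
            rw [hmul _ (mul_mem (inv_mem hτ) hσ) _ hτ, hmul _ (inv_mem hτ) _ hσ, hinv τ hτ, h, hτ']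
            decide
          have h4 := hxH _ (mul_mem (mul_mem (inv_mem hτ) hσ) hτ) h3
          rw [AlgEquiv.mul_apply, AlgEquiv.mul_apply] at h4
          have h5 := congrArg τ h4
          rw [cancel] at h5
          exact h5
        rw [map_sub, hxH σ hσ h, e2]
      · right
        refine ⟨h, ?_⟩
        have e1 : σ x = τ x := by
          have h3 : f (τ⁻¹ * σ) = 0 := by
            rw [hmul _ (inv_mem hτ) _ hσ, hinv τ hτ, h, hτ']
            decide
          have h4 := hxH _ (mul_mem (inv_mem hτ) hσ) h3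
          rw [AlgEquiv.mul_apply] at h4
          have h5 := congrArg τ h4
          rw [cancel] at h5
          exact h5
        have e2 : σ (τ x) = x := by
          have h3 : f (σ * τ) = 0 := by
            rw [hmul _ hσ _ hτ, h, hτ']
            decide
          have h4 := hxH _ (mul_mem hσ hτ) h3
          rwa [AlgEquiv.mul_apply] at h4
        rw [map_sub, e1, e2]
        ring
  obtain ⟨s, hs0, hs⟩ := main
  refine ⟨s, hs0, hs, fixL i hi fun σ hσ => ?_⟩
  rw [map_pow]
  rcases hs σ hσ with ⟨-, h⟩ | ⟨-, h⟩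
  · rw [h]
  · rw [h]; ring

end

end Pool.Agent.Helper891_RP
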