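import Pool.Agent.Helper891_RP.Emb
import Pool.Agent.R384.Loc

/-!
# The vanishing of quadratic characters of the Galois group of `F(√-7)`
-/

set_option autoImplicit false
set_option linter.unusedSectionVars false
set_option linter.style.haveILetI false

open NumberField IsDedekindDomain Module

namespace Pool.Agent.Helper891_RP

open Pool.Agent.Y715.Nr Pool.Agent.Y715.Red
open Pool.Agent.Y715.Gi (QB KK GK i₀_mem gk_fix)
open Pool.Agent.Y715.Df (Cmp exists_cmp)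
open Pool.Agent.R384 (II DD iw)
open Pool.Agent.TH841.NF (pls pid mem_pid norm_le_one_of_val lf mem_lf fix_lf norm_int)
open Pool.Agent.Y46.G2 (val_le_one_of_norm val_lt_one_of_norm)
open Pool.Agent.Y682 (pls_eq NCl UnrC)

lemma parity {L : Type} [Field L] [NumberField L] {p : ℕ} [hp : Fact p.Prime]
    (j : L →+* PadicAlgCl p) {e z : L} (he : e ≠ 0) (hz : z ≠ 0) {t : ℝ} (h1 : ‖j e‖ = t ^ 2)
    {E : ℕ} (hE : Odd E) (h2 : t ^ E = ‖j z‖) :
    ∃ n : ℤ, (pls j).valuation L e = WithZero.exp (2 * n) := by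
  obtain ⟨c, hc, -, hn⟩ := norm_val j
  have hve : (pls j).valuation L e ≠ 0 := (Valuation.ne_zero_iff _).2 he
  have hvz : (pls j).valuation L z ≠ 0 := (Valuation.ne_zero_iff _).2 hz
  have a1 := hn e _ (WithZero.exp_log hve).symm
  have a2 := hn z _ (WithZero.exp_log hvz).symm
  set a := WithZero.log ((pls j).valuation L e) with ha
  set k := WithZero.log ((pls j).valuation L z) with hk
  rw [h1] at a1
  rw [← h2] at a2
  have hp1 : (1 : ℝ) < (p : ℝ) := by exact_mod_cast hp.out.one_lt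
  have h3 : (p : ℝ) ^ (a * E) = (p : ℝ) ^ (k * 2) := by
    rw [zpow_mul, zpow_mul, ← a1, ← a2]
    norm_cast
    rw [← pow_mul, ← pow_mul, ← pow_mul, ← pow_mul]
    congr 1
    ring
  have h4 := zpow_right_injective₀ (by positivity) hp1.ne' h3
  have h5 : Even (a * (E : ℤ)) := ⟨k, by rw [h4]; ring⟩
  have h6 : Even a := by
    rcases Int.even_mul.1 h5 with h6 | h6
    · exact h6
    · exact absurd (by exact_mod_cast h6 : Even E) (Nat.not_even_iff_odd.2 hE)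
  obtain ⟨n, hn'⟩ := h6
  refine ⟨n, ?_⟩
  rw [← WithZero.exp_log hve, ← ha, hn']
  congr 1
  ring

section

variable {F : Type} [Field F] [NumberField F] [IsGalois ℚ F] (i : F →+* QB) {i₀ : QB}
  (hi : i₀ ^ 2 = i₀ - 2)

/-- every coset contains elements of the decomposition group -/
def NS (i₀ : QB) (p : ℕ) [Fact p.Prime] : Prop := ∀ (ι : QB →ₐ[ℚ] PadicAlgCl p) (σ : GK i₀),
  ∃ ρ ∈ (DD ι : Set (GK i₀)), ρ⁻¹ * σ ∈ HH i i₀

include hi in
/-- one place -/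
theorem ns_of_unique (hodd : Odd (finrank ℚ F)) {p : ℕ} [Fact p.Prime]
    (huniq : ∀ v w : HeightOneSpectrum (𝓞 F), (p : 𝓞 F) ∈ v.asIdeal → (p : 𝓞 F) ∈ w.asIdeal → v = w) :
    NS i i₀ p := by
  intro ι σ
  set j : F →+* PadicAlgCl p := (ι : QB →+* PadicAlgCl p).comp i with hj
  set γ := resG i σ with hγ
  obtain ⟨k, hk⟩ : Odd (Nat.card (F ≃ₐ[ℚ] F)) := by rwa [IsGalois.card_aut_eq_finrank]
  set γ' := γ ^ (k + 1) with hγ'
  have hsq : γ' * γ' = γ := by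
    rw [hγ', ← pow_add]
    have : k + 1 + (k + 1) = Nat.card (F ≃ₐ[ℚ] F) + 1 := by omega
    rw [this, pow_succ, pow_card_eq_one', one_mul]
  obtain ⟨τ', hτ'⟩ := exists_aut (j := j) (j' := j.comp (γ' : F →+* F))
    (huniq _ _ (p_mem_pls _) (p_mem_pls _))
  have hτ : ∀ x, (τ' * τ') (j x) = j (γ x) := by
    intro x
    rw [AlgEquiv.mul_apply, hτ' x]
    have h1 := hτ' (γ' x)
    rw [show (j.comp (γ' : F →+* F)) x = j (γ' x) from rfl, h1, ← hsq]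
    rfl
  have hfix : (τ' * τ') (ι i₀) = ι i₀ := by
    rw [AlgEquiv.mul_apply]
    rcases Pool.Agent.R384.w_or (iw hi ι) τ' with h | h
    · rw [h, h]
    · rw [h, map_sub, map_one, h]; ring
  obtain ⟨ρ, hρ⟩ := exists_cmp ι (τ' * τ') hfix
  refine ⟨ρ, ⟨_, hρ⟩, ?_⟩
  rw [mem_HH]
  intro x
  have h1 : ρ (i x) = σ (i x) := by
    apply ι.injective
    show ι (ρ (i x)) = ι (σ (i x))
    rw [← hρ, ← resG_spec]
    exact hτ x
  rw [AlgEquiv.mul_apply, ← h1, ← AlgEquiv.mul_apply, inv_mul_cancel, AlgEquiv.one_apply]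

/-- the inertia subgroup -/
def TT {p : ℕ} [Fact p.Prime] (w : PadicAlgCl p) : Subgroup (Au p) where
  carrier := {τ | Inert τ ∧ τ w = w}
  mul_mem' := by
    rintro a b ⟨ha, ha'⟩ ⟨hb, hb'⟩
    refine ⟨fun z hz => ?_, ?_⟩
    · have h1 := ha (b z) (by rwa [nrm])
      have h2 := hb z hz
      have e : (a * b) z - z = (a (b z) - b z) + (b z - z) := by
        rw [AlgEquiv.mul_apply]; ring
      rw [e]
      exact add_lt h1 h2
    · rw [AlgEquiv.mul_apply, hb', ha']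
  one_mem' := ⟨fun z _ => by rw [AlgEquiv.one_apply, sub_self, norm_zero]; exact one_pos, rfl⟩
  inv_mem' := by
    rintro a ⟨ha, ha'⟩
    have cancel : ∀ z, a⁻¹ (a z) = z := fun z => by
      rw [← AlgEquiv.mul_apply, inv_mul_cancel, AlgEquiv.one_apply]
    refine ⟨fun z hz => ?_, ?_⟩
    · have h1 := ha z hz
      have e : a⁻¹ z - z = -(a⁻¹ (a z - z)) := by rw [map_sub, cancel]; ring
      rw [e, norm_neg, nrm]
      exact h1
    · conv_lhs => rw [← ha']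
      exact cancel w

variable [hx : Fact (∀ r : F, r ^ 2 ≠ (-7 : F) + 0 * r)]

lemma HH_iL {σ : GK i₀} (hσ : σ ∈ HH i i₀) (z : LL F) : σ (iL i hi z) = iL i hi z := by
  rw [mem_HH] at hσ
  rw [iL_apply, map_add, map_mul, hσ, hσ, map_sub, map_mul, map_ofNat, map_one, gk_fix]

/-- extension of embeddings -/
lemma exists_ext {p : ℕ} [Fact p.Prime] (j : LL F →+* PadicAlgCl p) :
    ∃ ι : QB →ₐ[ℚ] PadicAlgCl p, ∀ x, ι (iL i hi x) = j x := by
  letI : Algebra (LL F) QB := (iL i hi).toAlgebra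
  letI : Algebra (LL F) (PadicAlgCl p) := j.toAlgebra
  haveI hst : IsScalarTower ℚ (LL F) QB := IsScalarTower.of_algebraMap_eq fun x =>
    DFunLike.congr_fun (Subsingleton.elim (algebraMap ℚ QB) ((iL i hi).comp (algebraMap ℚ (LL F)))) x
  haveI hst' : IsScalarTower ℚ (LL F) (PadicAlgCl p) := IsScalarTower.of_algebraMap_eq fun x =>
    DFunLike.congr_fun (Subsingleton.elim (algebraMap ℚ (PadicAlgCl p))
      (j.comp (algebraMap ℚ (LL F)))) x
  haveI halg : Algebra.IsAlgebraic (LL F) QB := Algebra.IsAlgebraic.tower_top (K := ℚ) (LL F)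
  let φ : QB →ₐ[LL F] PadicAlgCl p := IsAlgClosed.lift
  exact ⟨φ.restrictScalars ℚ, fun x => φ.commutes x⟩

/-- the data of a quadratic character -/
structure Qc (H : Subgroup (GK i₀)) (f : GK i₀ → ZMod 2) (s : QB) : Prop where
  ne : s ≠ 0
  act : ∀ σ ∈ H, (f σ = 0 ∧ σ s = s) ∨ (f σ = 1 ∧ σ s = -s)

variable {f : GK i₀ → ZMod 2} {s : QB}

lemma Qc.fix {H : Subgroup (GK i₀)} (h : Qc H f s) {σ : GK i₀} (hσ : σ ∈ H) (h0 : f σ = 0) :
    σ s = s := by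
  rcases h.act σ hσ with ⟨-, h1⟩ | ⟨h1, -⟩
  · exact h1
  · rw [h0] at h1
    exact absurd h1 (by decide)

lemma Qc.norm {H : Subgroup (GK i₀)} (h : Qc H f s) {σ : GK i₀} (hσ : σ ∈ H) : σ s = s ∨ σ s = -s := by
  rcases h.act σ hσ with ⟨-, h1⟩ | ⟨-, h1⟩
  · exact Or.inl h1
  · exact Or.inr h1

include hi in
/-- the valuations at the good places -/
lemma val_good {p : ℕ} [Fact p.Prime] (hp7 : p ≠ 7) (hodd : Odd (finrank ℚ F))
    (ι : QB →ₐ[ℚ] PadicAlgCl p) (hf : ∀ σ ∈ (II ι : Set (GK i₀)), σ ∈ HH i i₀ → f σ = 0)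
    (hs : Qc (HH i i₀) f s) : ∃ E : ℕ, Odd E ∧ ∃ m : ℤ, ‖ι s‖ ^ E = (p : ℝ) ^ m := by
  classical
  set j : F →+* PadicAlgCl p := (ι : QB →+* PadicAlgCl p).comp i with hj
  set w := ι i₀ with hw
  let φ : TT w →* (F ≃ₐ[ℚ] F) := (resA j).comp
    { toFun := fun τ => (τ : Au p).restrictScalars ℚ, map_one' := rfl, map_mul' := fun _ _ => rfl }
  have hφ : ∀ (τ : TT w) (x : F), j (φ τ x) = (τ : Au p) (j x) := fun τ x =>
    resA_spec j ((τ : Au p).restrictScalars ℚ) x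
  obtain ⟨hfin, hOdd⟩ := orbit_odd (T := TT w) (X := PadicAlgCl p) (Q := F ≃ₐ[ℚ] F)
    (by rwa [IsGalois.card_aut_eq_finrank]) φ (ι s) (by
      rintro ⟨τ, hin, hτw⟩ h1
      obtain ⟨σ, hσ⟩ := exists_cmp ι τ hτw
      have hσH : σ ∈ HH i i₀ := by
        rw [mem_HH]
        intro x
        apply ι.injective
        have h2 := hφ ⟨τ, hin, hτw⟩ x
        rw [h1] at h2
        show ι (σ (i x)) = ι (i x)
        rw [← hσ]
        exact h2.symm
      show τ (ι s) = ι s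
      rw [hσ, hs.fix hσH (hf σ ⟨τ, hσ, hin⟩ hσH)])
  set O := hfin.toFinset with hO
  have hmem : ∀ y, y ∈ O ↔ ∃ τ : TT w, (τ : Au p) (ι s) = y := by
    intro y
    rw [hO, Set.Finite.mem_toFinset, MulAction.mem_orbit_iff]
    rfl
  have hcard : O.card = Nat.card (MulAction.orbit (TT w) (ι s)) := by
    rw [Nat.card_coe_set_eq, Set.ncard_eq_toFinset_card _ hfin]
  have hιs : ι s ≠ 0 := (map_ne_zero ι).2 hs.ne
  have hnorm : ∀ y ∈ O, ‖y‖ = ‖ι s‖ := by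
    intro y hy
    obtain ⟨τ, rfl⟩ := (hmem y).1 hy
    exact nrm _ _
  have hne : ∏ y ∈ O, y ≠ 0 := by
    rw [Finset.prod_ne_zero_iff]
    intro y hy
    rw [← norm_pos_iff, hnorm y hy]
    exact norm_pos_iff.2 hιs
  obtain ⟨m, hm⟩ := Pool.Agent.R384.norm_odd (iw hi ι) hp7 hne (by
    intro τ hin hτ
    rw [map_prod]
    refine Finset.prod_nbij (fun y => τ y) ?_ ?_ ?_ (fun _ _ => rfl)
    · intro y hy
      obtain ⟨t, rfl⟩ := (hmem y).1 hy
      exact (hmem _).2 ⟨⟨τ, hin, hτ⟩ * t, rfl⟩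
    · intro a _ b _ h
      exact τ.injective h
    · intro y hy
      obtain ⟨t, rfl⟩ := (hmem y).1 hy
      refine ⟨((⟨τ, hin, hτ⟩ : TT w)⁻¹ * t : TT w).1 (ι s), (hmem _).2 ⟨_, rfl⟩, ?_⟩
      show τ ((τ⁻¹ * (t : Au p)) (ι s)) = _
      rw [← AlgEquiv.mul_apply, ← mul_assoc, mul_inv_cancel, one_mul])
  refine ⟨O.card, by rw [hcard]; exact hOdd, m, ?_⟩
  rw [← hm, norm_prod, Finset.prod_congr rfl hnorm, Finset.prod_const]

/-- the norm -/
lemma exists_nm {r : GK i₀ ⧸ HH i i₀ → GK i₀} (hs : Qc (HH i i₀) f s)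
    (hnorm : ∀ h ∈ HH i i₀, ∑ δ, f ((r δ)⁻¹ * h * r δ) = 0) :
    ∃ z : LL F, iL i hi z = ∏ δ, (r δ) s := by
  apply fixL
  intro h hh
  have key : ∀ S : Finset (GK i₀ ⧸ HH i i₀), (∑ δ ∈ S, f ((r δ)⁻¹ * h * r δ) = 0 ∧
      h (∏ δ ∈ S, (r δ) s) = ∏ δ ∈ S, (r δ) s) ∨ (∑ δ ∈ S, f ((r δ)⁻¹ * h * r δ) = 1 ∧
      h (∏ δ ∈ S, (r δ) s) = -∏ δ ∈ S, (r δ) s) := by
    classical
    intro S
    induction S using Finset.induction_on with
    | empty => left; simp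
    | insert δ S hδ ih =>
      rw [Finset.sum_insert hδ, Finset.prod_insert hδ, map_mul]
      have hm : (r δ)⁻¹ * h * r δ ∈ HH i i₀ := by
        have h2 : (HH i i₀).Normal := inferInstance
        have := h2.conj_mem h hh (r δ)⁻¹
        rwa [inv_inv] at this
      have e : h ((r δ) s) = (r δ) (((r δ)⁻¹ * h * r δ) s) := by
        rw [← AlgEquiv.mul_apply, ← AlgEquiv.mul_apply]
        congr 1
        group
      rcases hs.act _ hm with ⟨h1, h2⟩ | ⟨h1, h2⟩ <;> rcases ih with ⟨h3, h4⟩ | ⟨h3, h4⟩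
      · left
        exact ⟨by rw [h1, h3, add_zero], by rw [e, h2, h4]⟩
      · right
        exact ⟨by rw [h1, h3, zero_add], by rw [e, h2, h4]; ring⟩
      · right
        exact ⟨by rw [h1, h3, add_zero], by rw [e, h2, h4, map_neg]; ring⟩
      · left
        exact ⟨by rw [h1, h3]; decide, by rw [e, h2, h4, map_neg]; ring⟩
  rcases key Finset.univ with ⟨-, h1⟩ | ⟨h1, -⟩
  · exact h1
  · rw [hnorm h hh] at h1
    exact absurd h1 (by decide)

/-- the valuations at the nonsplit places -/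
lemma val_ns {p : ℕ} [Fact p.Prime] (hns : NS i i₀ p) {r : GK i₀ ⧸ HH i i₀ → GK i₀}
    (hs : Qc (HH i i₀) f s) (hnorm : ∀ h ∈ HH i i₀, ∑ δ, f ((r δ)⁻¹ * h * r δ) = 0)
    (ι : QB →ₐ[ℚ] PadicAlgCl p) : ∃ z : LL F, z ≠ 0 ∧
      ‖ι s‖ ^ (Fintype.card (GK i₀ ⧸ HH i i₀)) = ‖ι (iL i hi z)‖ := by
  obtain ⟨z, hz⟩ := exists_nm i hi hs hnorm
  have hne : ∏ δ, (r δ) s ≠ 0 := Finset.prod_ne_zero_iff.2 fun δ _ => (map_ne_zero _).2 hs.ne
  refine ⟨z, ?_, ?_⟩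
  · rintro rfl
    rw [map_zero] at hz
    exact hne hz.symm
  · rw [hz, map_prod, norm_prod]
    have h1 : ∀ δ, ‖ι ((r δ) s)‖ = ‖ι s‖ := by
      intro δ
      obtain ⟨ρ, ⟨τ, hτ⟩, hρ⟩ := hns ι (r δ)
      have e : (r δ) s = ρ ((ρ⁻¹ * r δ) s) := by
        rw [← AlgEquiv.mul_apply, mul_inv_cancel_left]
      rw [e, ← hτ, nrm]
      rcases hs.norm hρ with h | h
      · rw [h]
      · rw [h, map_neg, norm_neg]
    rw [Finset.prod_congr rfl fun δ _ => h1 δ, Finset.prod_const, Finset.card_univ]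

/-- the place above two -/
lemma unr_two (κ : QB →ₐ[ℚ] PadicAlgCl 2) (hκ : ∀ σ ∈ (DD κ : Set (GK i₀)), σ ∈ HH i i₀ → f σ = 0)
    (hs : Qc (HH i i₀) f s) (h2 : ∀ v w : HeightOneSpectrum (𝓞 F), (2 : 𝓞 F) ∈ v.asIdeal →
      (2 : 𝓞 F) ∈ w.asIdeal → v = w) {r : F} {g : LL F} (hg : g ≠ 0)
    (hrg : s ^ 2 = iL i hi (algebraMap F (LL F) r * g ^ 2)) (v : HeightOneSpectrum (𝓞 F))
    (hv : (2 : 𝓞 F) ∈ v.asIdeal) : UnrC (v.valuation F) r := by
  set j : F →+* PadicAlgCl 2 := (κ : QB →+* PadicAlgCl 2).comp i with hj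
  have hvj : v = pls j := h2 _ _ hv (by exact_mod_cast p_mem_pls (p := 2) j)
  rw [hvj]
  have hgκ : κ (iL i hi g) ≠ 0 := (map_ne_zero κ).2 ((map_ne_zero (iL i hi)).2 hg)
  have hsκ : κ s ≠ 0 := (map_ne_zero κ).2 hs.ne
  set z := κ s / κ (iL i hi g) with hz
  have hz0 : z ≠ 0 := div_ne_zero hsκ hgκ
  have hz2 : z ^ 2 = j r := by
    rw [hz, div_pow, ← map_pow, hrg, map_mul, iL_alg, map_pow, map_mul, map_pow]
    show κ (i r) * κ (iL i hi g) ^ 2 / κ (iL i hi g) ^ 2 = κ (i r)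
    field_simp
  have hzl : z ∈ lf j := by
    apply mem_lf_of_fix
    intro τ hτ
    obtain ⟨σ, hσ⟩ := exists_cmp κ τ (Pool.Agent.R384.two_fix (iw hi κ) τ)
    have hσH : σ ∈ HH i i₀ := by
      rw [mem_HH]
      intro x
      apply κ.injective
      show κ (σ (i x)) = κ (i x)
      rw [← hσ]
      exact hτ x
    rw [hz, map_div₀, hσ, hσ, HH_iL i hi hσH, hs.fix hσH (hκ σ ⟨τ, hσ⟩ hσH)]
  have hzn : 0 < ‖z‖ := norm_pos_iff.2 hz0
  obtain ⟨t, ht⟩ := lf_dense j hzl (ε := ‖z‖ / 8) (by positivity)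
  have hjt : ‖j t‖ = ‖z‖ := by
    have e : j t = z + -(z - j t) := by ring
    rw [e]
    apply eq_of_lt
    rw [norm_neg]
    linarith
  have ht0 : t ≠ 0 := by
    rintro rfl
    rw [map_zero, norm_zero] at hjt
    exact hzn.ne hjt
  have hjt0 : j t ≠ 0 := (map_ne_zero j).2 ht0
  have hsum : ‖z + j t‖ ≤ ‖z‖ := add_le le_rfl hjt.le
  have hdiff : ‖j (r * t⁻¹ ^ 2 - 1)‖ < 1 / 8 := by
    have e : j (r * t⁻¹ ^ 2 - 1) = (z - j t) * (z + j t) / (j t) ^ 2 := by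
      rw [map_sub, map_mul, map_pow, map_inv₀, map_one, ← hz2]
      field_simp
      ring
    rw [e, norm_div, norm_mul, norm_pow, hjt, div_lt_iff₀ (by positivity)]
    calc ‖z - j t‖ * ‖z + j t‖ ≤ ‖z - j t‖ * ‖z‖ :=
          mul_le_mul_of_nonneg_left hsum (norm_nonneg _)
      _ < ‖z‖ / 8 * ‖z‖ := mul_lt_mul_of_pos_right ht hzn
      _ = 1 / 8 * ‖z‖ ^ 2 := by ring
  have h4 : ‖j (4 : F)‖ = 1 / 4 := by
    have e : (4 : F) = ((2 : ℕ) : F) * ((2 : ℕ) : F) := by norm_num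
    rw [e, map_mul, map_natCast, norm_mul, Pool.Agent.W571.RK.norm_p_Om]
    norm_num
  have hu : ‖j ((r * t⁻¹ ^ 2 - 1) / 4)‖ ≤ 1 := by
    rw [map_div₀, norm_div, h4, div_le_one (by norm_num)]
    linarith
  have hlt := val_lt_one_of_norm j (x := r * t⁻¹ ^ 2 - 1) (hdiff.trans (by norm_num))
  refine ⟨t⁻¹, 1, (r * t⁻¹ ^ 2 - 1) / 4, inv_ne_zero ht0, by ring, ?_, (map_one _).le,
    val_le_one_of_norm j hu⟩
  have e : r * t⁻¹ ^ 2 = 1 + (r * t⁻¹ ^ 2 - 1) := by ring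
  rw [e, Valuation.map_one_add_of_lt _ hlt]

include hi in
/-- **The vanishing of quadratic characters.** -/
theorem hom_zero [IsTotallyReal F] (hN : Odd (Nat.card (NCl F))) (hodd : Odd (finrank ℚ F))
    (h2 : ∀ v w : HeightOneSpectrum (𝓞 F), (2 : 𝓞 F) ∈ v.asIdeal → (2 : 𝓞 F) ∈ w.asIdeal → v = w)
    (h7 : ∀ v w : HeightOneSpectrum (𝓞 F), (7 : 𝓞 F) ∈ v.asIdeal → (7 : 𝓞 F) ∈ w.asIdeal → v = w)
    {r : GK i₀ ⧸ HH i i₀ → GK i₀} (hlc : LcOn (HH i i₀) f)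
    (hmul : ∀ σ ∈ HH i i₀, ∀ τ ∈ HH i i₀, f (σ * τ) = f σ + f τ)
    (hnorm : ∀ h ∈ HH i i₀, ∑ δ, f ((r δ)⁻¹ * h * r δ) = 0)
    (hgood : ∀ (p : ℕ) [Fact p.Prime], p ≠ 2 → ∀ ι : QB →ₐ[ℚ] PadicAlgCl p,
      (∀ σ ∈ (II ι : Set (GK i₀)), σ ∈ HH i i₀ → f σ = 0) ∨ NS i i₀ p)
    (κ : QB →ₐ[ℚ] PadicAlgCl 2) (hκ : ∀ σ ∈ (DD κ : Set (GK i₀)), σ ∈ HH i i₀ → f σ = 0) :
    ∀ σ ∈ HH i i₀, f σ = 0 := by
  obtain ⟨s, hs0, hact, e, he⟩ := kumH i hi hlc hmul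
  have hs : Qc (HH i i₀) f s := ⟨hs0, hact⟩
  have he0 : e ≠ 0 := by
    rintro rfl
    rw [map_zero] at he
    exact hs0 (pow_eq_zero_iff two_ne_zero |>.1 he.symm)
  have hns2 : NS i i₀ 2 := ns_of_unique i hi hodd (by exact_mod_cast h2)
  have : Fact (Nat.Prime 7) := ⟨by norm_num⟩
  have hns7 : NS i i₀ 7 := ns_of_unique i hi hodd (by exact_mod_cast h7)
  obtain ⟨y, hy⟩ := key_sq hN hodd h7 he0 (by
    intro P
    obtain ⟨p, hp, hpP⟩ := exists_prime_mem P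
    have : Fact p.Prime := ⟨hp⟩
    obtain ⟨j, rfl⟩ := exists_pls (p := p) P hpP
    obtain ⟨ι, hι⟩ := exists_ext i hi j
    have hje : ‖j e‖ = ‖ι s‖ ^ 2 := by rw [← hι, he, map_pow, norm_pow]
    have hnsc : NS i i₀ p → ∃ n : ℤ, (pls j).valuation (LL F) e = WithZero.exp (2 * n) := by
      intro hns
      obtain ⟨z, hz0, hz⟩ := val_ns i hi hns hs hnorm ι
      exact parity j he0 hz0 hje (card_odd i hodd) (by rw [hz, hι])
    by_cases hp2 : p = 2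
    · subst hp2
      exact hnsc hns2
    by_cases hp7 : p = 7
    · subst hp7
      exact hnsc hns7
    rcases hgood p hp2 ι with hg | hns
    · obtain ⟨E, hE, m, hm⟩ := val_good i hi hp7 hodd ι hg hs
      have hp0 : ((p : ℕ) : LL F) ≠ 0 := by exact_mod_cast hp.ne_zero
      refine parity j he0 (z := (p : LL F) ^ (-m)) (zpow_ne_zero _ hp0) hje hE ?_
      rw [hm, map_zpow₀, norm_zpow, map_natCast, Pool.Agent.W571.RK.norm_p_Om, inv_zpow, zpow_neg,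
        inv_inv]
    · exact hnsc hns) (by
    intro r' g hg hrg v hv
    exact unr_two i hi κ hκ hs h2 hg (by rw [← he, hrg]) v hv)
  intro σ hσ
  have h1 : (iL i hi y) ^ 2 = s ^ 2 := by rw [← map_pow, hy, he]
  have h3 : σ s = s := by
    rcases sq_eq_sq_iff_eq_or_eq_neg.1 h1 with h | h
    · rw [← h, HH_iL i hi hσ]
    · have h4 : s = -iL i hi y := by rw [h, neg_neg]
      rw [h4, map_neg, HH_iL i hi hσ]
  rcases hact σ hσ with ⟨h4, -⟩ | ⟨-, h4⟩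
  · exact h4
  · exfalso
    rw [h3] at h4
    apply hs0
    have h5 : (2 : QB) * s = 0 := by linear_combination h4
    exact (mul_eq_zero.1 h5).resolve_left two_ne_zero

end

end Pool.Agent.Helper891_RP
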