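import Pool.Agent.R384.Vec
import Pool.Agent.Helper891_RP.Cor

/-!
# Integral cocycles and the corestriction
-/

set_option autoImplicit false
set_option linter.unusedSectionVars false

namespace Pool.Agent.Helper891_RP

open scoped Classical

open Pool.Agent.R384 (Tr vadd vsub norm_two' add_le' sub_le' add_lt')

section norms

lemma norm_odd {n : ℕ} (h : Odd n) : ‖(n : ℚ_[2])‖ = 1 := by
  refine le_antisymm (by simpa using Padic.norm_int_le_one (p := 2) (n : ℤ)) ?_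
  by_contra hcon
  push Not at hcon
  have h1 : ‖((n : ℤ) : ℚ_[2])‖ < 1 := by simpa using hcon
  rw [Padic.norm_intCast_lt_one_iff] at h1
  rw [Int.natCast_dvd_natCast] at h1
  exact (Nat.not_even_iff_odd.2 h) (even_iff_two_dvd.2 h1)

/-- reduction modulo two -/
noncomputable def mdv (x : ℚ_[2]) : ZMod 2 := if ‖x‖ < 1 then 0 else 1

lemma mdv_zero {x : ℚ_[2]} : mdv x = 0 ↔ ‖x‖ < 1 := by
  unfold mdv
  split_ifs with h
  · simp [h]
  · simp [h]

lemma near_one {x : ℚ_[2]} (h : ‖x‖ = 1) : ‖x - 1‖ < 1 :=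
  (Pool.Agent.R384.md_eq h.le).1 (by rw [h]; exact lt_irrefl _)

lemma mdv_add {x y : ℚ_[2]} (hx : ‖x‖ ≤ 1) (hy : ‖y‖ ≤ 1) : mdv (x + y) = mdv x + mdv y := by
  have h20 : ‖(2 : ℚ_[2])‖ < 1 := by rw [norm_two']; norm_num
  by_cases h1 : ‖x‖ < 1
  · by_cases h2 : ‖y‖ < 1
    · rw [mdv_zero.2 h1, mdv_zero.2 h2, mdv_zero.2 (add_lt' h1 h2), add_zero]
    · have h3 : ¬ ‖x + y‖ < 1 := by
        intro h3
        apply h2
        have e : y = (x + y) + -x := by ring
        rw [e]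
        exact add_lt' h3 (by rwa [norm_neg])
      unfold mdv
      rw [if_pos h1, if_neg h2, if_neg h3, zero_add]
  · by_cases h2 : ‖y‖ < 1
    · have h3 : ¬ ‖x + y‖ < 1 := by
        intro h3
        apply h1
        have e : x = (x + y) + -y := by ring
        rw [e]
        exact add_lt' h3 (by rwa [norm_neg])
      unfold mdv
      rw [if_neg h1, if_pos h2, if_neg h3, add_zero]
    · have a1 := near_one (le_antisymm hx (not_lt.1 h1))
      have a2 := near_one (le_antisymm hy (not_lt.1 h2))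
      have h3 : ‖x + y‖ < 1 := by
        have e : x + y = ((x - 1) + (y - 1)) + 2 := by ring
        rw [e]
        exact add_lt' (add_lt' a1 a2) h20
      unfold mdv
      rw [if_neg h1, if_neg h2, if_pos h3]
      decide

lemma nsum_le {ι : Type} (s : Finset ι) (f : ι → ℚ_[2]) (h : ∀ x ∈ s, ‖f x‖ ≤ 1) :
    ‖∑ x ∈ s, f x‖ ≤ 1 := by
  induction s using Finset.induction_on with
  | empty => simp
  | insert a s ha ih =>
    rw [Finset.sum_insert ha]
    exact add_le' (h a (Finset.mem_insert_self a s)) (ih fun x hx => h x (Finset.mem_insert_of_mem hx))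

lemma mdv_sum {ι : Type} (s : Finset ι) (f : ι → ℚ_[2]) (h : ∀ x ∈ s, ‖f x‖ ≤ 1) :
    mdv (∑ x ∈ s, f x) = ∑ x ∈ s, mdv (f x) := by
  induction s using Finset.induction_on with
  | empty => simp [mdv]
  | insert a s ha ih =>
    rw [Finset.sum_insert ha, Finset.sum_insert ha, mdv_add (h a (Finset.mem_insert_self a s))
      (nsum_le s f fun x hx => h x (Finset.mem_insert_of_mem hx)),
      ih fun x hx => h x (Finset.mem_insert_of_mem hx)]

variable {B : Type} [Fintype B]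

lemma vsum {ι : Type} (s : Finset ι) (f : ι → B → ℚ_[2]) {t : ℝ} (ht : 0 ≤ t)
    (h : ∀ x ∈ s, ‖f x‖ ≤ t) : ‖∑ x ∈ s, f x‖ ≤ t := by
  induction s using Finset.induction_on with
  | empty => rw [Finset.sum_empty, norm_zero]; exact ht
  | insert a s ha ih =>
    rw [Finset.sum_insert ha]
    exact vadd ht (h a (Finset.mem_insert_self a s)) (ih fun x hx => h x (Finset.mem_insert_of_mem hx))

lemma vnsmul {n : ℕ} {v : B → ℚ_[2]} : ‖n • v‖ ≤ ‖v‖ := by
  rw [← Nat.cast_smul_eq_nsmul ℚ_[2], norm_smul]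
  have h : ‖(n : ℚ_[2])‖ ≤ 1 := by simpa using Padic.norm_int_le_one (p := 2) (n : ℤ)
  nlinarith [norm_nonneg v]

lemma vnsmul_odd {n : ℕ} (hn : Odd n) {v : B → ℚ_[2]} : ‖n • v‖ = ‖v‖ := by
  rw [← Nat.cast_smul_eq_nsmul ℚ_[2], norm_smul, norm_odd hn, one_mul]

end norms

section

variable {B : Type} [Fintype B] {G : Type} [Group G] {H : Subgroup G} [hN : H.Normal]
  [hF : H.FiniteIndex] {R : Representation ℚ_[2] G (B → ℚ_[2])} {r r' : G ⧸ H → G}
  {c : G → B → ℚ_[2]}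

lemma norm_R (ht : Tr R) (σ : G) (v : B → ℚ_[2]) : ‖R σ v‖ ≤ ‖v‖ := by
  have e : R σ v = (R σ v - v) + v := by abel
  rw [e]
  have h1 := norm_nonneg v
  exact vadd h1 ((ht σ v).trans (by linarith)) le_rfl

lemma cor_int (ht : Tr R) (hr : Sec r) (hint : ∀ h ∈ H, ‖c h‖ ≤ 1) (g : G) :
    ‖cor R r c g‖ ≤ 1 :=
  vsum _ _ zero_le_one fun δ _ => (norm_R ht _ _).trans (hint _ (hr.mem g δ))

lemma cob_small (ht : Tr R) {y : B → ℚ_[2]} (hy : ‖y‖ ≤ 1) (g : G) : ‖R g y - y‖ ≤ 1 / 2 :=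
  (ht g y).trans (by linarith)

lemma cor_close (ht : Tr R) (hr : Sec r) (hr' : Sec r') (hc : CocOn H R c)
    (hint : ∀ h ∈ H, ‖c h‖ ≤ 1) (g : G) : ‖cor R r' c g - cor R r c g‖ ≤ 1 / 2 := by
  rw [cor_change hr hr' hc g, add_sub_cancel_left]
  exact cob_small ht (vsum _ _ zero_le_one fun δ _ => (norm_R ht _ _).trans
    (hint _ (hr.mem' hr' δ))) g

/-- the coordinates in `S` -/
noncomputable def tru (S : Set B) (v : B → ℚ_[2]) : B → ℚ_[2] := fun b => if b ∈ S then v b else 0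

lemma tru_le (S : Set B) (v : B → ℚ_[2]) : ‖tru S v‖ ≤ ‖v‖ := by
  rw [pi_norm_le_iff_of_nonneg (norm_nonneg v)]
  intro b
  unfold tru
  split_ifs
  · exact norm_le_pi_norm v b
  · rw [norm_zero]; exact norm_nonneg v

lemma tru_of {S : Set B} {v : B → ℚ_[2]} {b : B} (hb : b ∈ S) : tru S v b = v b := if_pos hb

/-- the local analysis -/
theorem loc2 (ht : Tr R) (hodd : Odd (Fintype.card (G ⧸ H))) (hr : Sec r) {D : Subgroup G}
    (hrD : ∀ δ, r δ ∈ D) {S : Set B}
    (hst : ∀ σ ∈ D, ∀ v : B → ℚ_[2], (∀ b ∈ S, v b = 0) → ∀ b ∈ S, R σ v b = 0)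
    (hint : ∀ h ∈ H, ‖c h‖ ≤ 1) {y : B → ℚ_[2]}
    (hy : ∀ h ∈ D, h ∈ H → ∀ b ∈ S, c h b = (R h y - y) b) :
    ∀ h ∈ D, h ∈ H → ∀ b ∈ S, ‖((Fintype.card (G ⧸ H)) • c h - cor R r c h) b‖ < 1 := by
  set n := Fintype.card (G ⧸ H) with hn
  let F : Submodule ℚ_[2] (B → ℚ_[2]) :=
    { carrier := {v | ∀ b ∈ S, v b = 0}
      add_mem' := fun {u v} hu hv b hb => by rw [Pi.add_apply, hu b hb, hv b hb, add_zero]
      zero_mem' := fun b _ => rfl
      smul_mem' := fun a v hv b hb => by rw [Pi.smul_apply, hv b hb, smul_zero] }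
  have hFm : ∀ v, v ∈ F ↔ ∀ b ∈ S, v b = 0 := fun v => Iff.rfl
  have hstF : ∀ σ ∈ D, ∀ v ∈ F, R σ v ∈ F := fun σ hσ v hv => hst σ hσ v hv
  have htF : ∀ v, v - tru S v ∈ F := by
    intro v b hb
    rw [Pi.sub_apply, tru_of hb, sub_self]
  set y₀ := tru S y with hy₀
  have hy0 : ∀ h ∈ D, h ∈ H → c h - (R h y₀ - y₀) ∈ F := by
    intro h hD hH
    have h1 : c h - (R h y - y) ∈ F := by
      intro b hb
      rw [Pi.sub_apply, hy h hD hH b hb, sub_self]
    have h2 := hstF h hD _ (htF y)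
    have e : c h - (R h y₀ - y₀) = (c h - (R h y - y)) + R h (y - y₀) - (y - y₀) := by
      rw [map_sub]
      abel
    rw [e]
    exact F.sub_mem (F.add_mem h1 h2) (htF y)
  set Z := ∑ δ : G ⧸ H, R (r δ) y₀ with hZ
  have hC : ∀ g ∈ D, cor R r c g - (R g Z - Z) ∈ F := fun g hg => cor_cob_mod hr hrD hstF hy0 hg
  set U := ∑ δ : G ⧸ H, (R (r δ) Z - Z) with hU
  have hUS : ‖tru S U‖ ≤ 1 := by
    rw [pi_norm_le_iff_of_nonneg zero_le_one]
    intro b
    by_cases hb : b ∈ S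
    · rw [tru_of hb, hU, Finset.sum_apply]
      refine nsum_le _ _ fun δ _ => ?_
      have h1 := hC (r δ) (hrD δ) b hb
      rw [Pi.sub_apply, sub_eq_zero] at h1
      rw [← h1]
      exact (norm_le_pi_norm _ b).trans (cor_int ht hr hint _)
    · have : tru S U b = 0 := if_neg hb
      rw [this, norm_zero]
      exact zero_le_one
  set y₁ := n • y₀ - tru S Z with hy₁
  have hyt : tru S y₁ = y₁ := by
    funext b
    by_cases hb : b ∈ S
    · exact tru_of hb
    · have h1 : tru S y₁ b = 0 := if_neg hb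
      have h2 : tru S Z b = 0 := if_neg hb
      have h3 : y₀ b = 0 := if_neg hb
      rw [h1, hy₁, Pi.sub_apply, Pi.smul_apply, h2, h3, smul_zero, sub_zero]
  set N1 := ∑ δ : G ⧸ H, (R (r δ) y₁ - y₁) with hN1
  have hN1' : ‖N1‖ ≤ ‖y₁‖ / 2 := vsum _ _ (by positivity) fun δ _ => ht _ _
  -- `∑ R y₁ = - U` on `S`
  have hsum : n • y₁ + N1 + U ∈ F := by
    have e1 : n • y₁ + N1 = ∑ δ : G ⧸ H, R (r δ) y₁ := by
      rw [hN1, Finset.sum_sub_distrib, Finset.sum_const, Finset.card_univ]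
      abel
    have e2 : ∑ δ : G ⧸ H, R (r δ) y₁ = n • Z - ∑ δ : G ⧸ H, R (r δ) (tru S Z) := by
      rw [hy₁, hZ, Finset.smul_sum, ← Finset.sum_sub_distrib]
      refine Finset.sum_congr rfl fun δ _ => ?_
      rw [map_sub, map_nsmul]
    have e3 : U = ∑ δ : G ⧸ H, R (r δ) Z - n • Z := by
      rw [hU, Finset.sum_sub_distrib, Finset.sum_const, Finset.card_univ]
    rw [e1, e2, e3]
    have e4 : n • Z - ∑ δ : G ⧸ H, R (r δ) (tru S Z) + (∑ δ : G ⧸ H, R (r δ) Z - n • Z) =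
        ∑ δ : G ⧸ H, R (r δ) (Z - tru S Z) := by
      simp only [map_sub]
      rw [Finset.sum_sub_distrib]
      abel
    rw [e4]
    exact F.sum_mem fun δ _ => hstF _ (hrD δ) _ (htF Z)
  have hy1 : ‖y₁‖ ≤ max 1 (‖y₁‖ / 2) := by
    rw [← vnsmul_odd hodd (v := y₁), pi_norm_le_iff_of_nonneg (by positivity)]
    intro b
    by_cases hb : b ∈ S
    · have h1 := hsum b hb
      rw [Pi.add_apply, Pi.add_apply] at h1
      have e : (n • y₁) b = -(U b) - N1 b := by linear_combination h1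
      rw [e]
      refine sub_le' ?_ ?_
      · rw [norm_neg, ← tru_of hb (v := U)]
        exact ((norm_le_pi_norm _ b).trans hUS).trans (le_max_left _ _)
      · rw [vnsmul_odd hodd]
        exact ((norm_le_pi_norm _ b).trans hN1').trans (le_max_right _ _)
    · have : (n • y₁) b = 0 := by
        rw [Pi.smul_apply, ← hyt]
        have h1 : tru S y₁ b = 0 := if_neg hb
        rw [h1, smul_zero]
      rw [this, norm_zero]
      positivity
  have hy11 : ‖y₁‖ ≤ 1 := by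
    rcases max_cases 1 (‖y₁‖ / 2) with ⟨h3, -⟩ | ⟨h3, -⟩
    · rwa [h3] at hy1
    · rw [h3] at hy1
      have := norm_nonneg y₁
      linarith
  intro h hD hH b hb
  have h1 := hy0 h hD hH b hb
  have h2 := hC h hD b hb
  have h3 := hstF h hD _ (htF Z) b hb
  have h4 := htF Z b hb
  have e : (n • c h - cor R r c h) b = (R h y₁ - y₁) b := by
    rw [hy₁, map_sub, map_nsmul]
    rw [map_sub] at h3
    simp only [Pi.sub_apply, Pi.smul_apply] at h1 h2 h3 h4 ⊢
    have h5 : n • (c h b - (R h y₀ b - y₀ b)) = 0 := by rw [h1, smul_zero]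
    rw [smul_sub, smul_sub] at h5
    linear_combination h5 - h2 - h3 + h4
  rw [e]
  exact ((norm_le_pi_norm _ b).trans (cob_small ht hy11 h)).trans_lt (by norm_num)

end

end Pool.Agent.Helper891_RP
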