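import Pool.Agent.R384.Inf2

/-!
# Twists which are not squares modulo given primes, with a condition modulo nine
-/

set_option autoImplicit false
set_option linter.unusedSectionVars false

namespace Pool.Agent.Helper891_RP

open QuadraticAlgebra Pool.Agent.R384

open scoped NumberTheorySymbols Classical

/-- primes in arithmetic progressions -/
lemma crtM {M : ℕ} (hM0 : M ≠ 0) (T : Finset ℕ) (hT : ∀ p ∈ T, p.Prime ∧ ¬ p ∣ M) {a₀ : ℕ}
    (h0 : Nat.Coprime a₀ M) (g : ℕ → ℕ) (hg : ∀ p ∈ T, ¬ p ∣ g p) :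
    {l : ℕ | l.Prime ∧ l ≡ a₀ [MOD M] ∧ ∀ p ∈ T, l % p = g p % p}.Infinite := by
  obtain ⟨k, hk⟩ := Nat.chineseRemainderOfFinset g id T (fun i hi => (hT i hi).1.ne_zero) (by
    intro p hp q hq hne
    exact (Nat.coprime_primes (hT p hp).1 (hT q hq).1).2 hne)
  set N := ∏ p ∈ T, p with hN
  have co : Nat.Coprime N M := by
    apply Nat.Coprime.prod_left
    intro p hp
    obtain ⟨h1, h2⟩ := hT p hp
    rwa [Nat.Prime.coprime_iff_not_dvd h1]
  obtain ⟨x, hx1, hx2⟩ := Nat.chineseRemainder co k a₀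
  have hN0 : N ≠ 0 := Finset.prod_ne_zero_iff.2 fun p hp => (hT p hp).1.ne_zero
  have : NeZero (N * M) := ⟨mul_ne_zero hN0 hM0⟩
  have hmod : ∀ p ∈ T, x ≡ g p [MOD p] := fun p hp =>
    (hx1.of_dvd (Finset.dvd_prod_of_mem _ hp)).trans (hk p hp)
  have hcop : Nat.Coprime x (N * M) := by
    apply Nat.Coprime.mul_right
    · apply Nat.Coprime.prod_right
      intro p hp
      rw [Nat.coprime_comm, Nat.Prime.coprime_iff_not_dvd (hT p hp).1]
      intro h
      exact hg p hp (((hmod p hp).dvd_iff dvd_rfl).1 h)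
    · have h1 := hx2.gcd_eq
      unfold Nat.Coprime at h0 ⊢
      rw [h1, h0]
  have hu : IsUnit (x : ZMod (N * M)) := (ZMod.isUnit_iff_coprime _ _).2 hcop
  refine (Nat.infinite_setOfPred_prime_and_eq_mod hu).mono ?_
  rintro l ⟨hl, h1⟩
  have h2 : l ≡ x [MOD N * M] := (ZMod.natCast_eq_natCast_iff _ _ _).1 h1
  refine ⟨hl, (h2.of_dvd (Dvd.intro_left _ rfl)).trans hx2, fun p hp => ?_⟩
  exact (h2.of_dvd ((Finset.dvd_prod_of_mem _ hp).mul_right _)).trans (hmod p hp)

lemma crt9 (T : Finset ℕ) (hT : ∀ p ∈ T, p.Prime ∧ p ≠ 2 ∧ p ≠ 7) {a₀ b : ℕ}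
    (h0 : Nat.Coprime a₀ 56) (hb : Nat.Coprime b 9) (g : ℕ → ℕ) (hg : ∀ p ∈ T, ¬ p ∣ g p)
    (h3 : 3 ∈ T → g 3 % 3 = b % 3) :
    {l : ℕ | l.Prime ∧ l % 56 = a₀ % 56 ∧ l % 9 = b % 9 ∧ ∀ p ∈ T, l % p = g p % p}.Infinite := by
  obtain ⟨x, hx1, hx2⟩ := Nat.chineseRemainder (by norm_num : Nat.Coprime 56 9) a₀ b
  have hcop : Nat.Coprime x (56 * 9) := by
    apply Nat.Coprime.mul_right
    · have h1 := hx1.gcd_eq
      unfold Nat.Coprime at h0 ⊢
      rw [h1, h0]
    · have h1 := hx2.gcd_eq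
      unfold Nat.Coprime at hb ⊢
      rw [h1, hb]
  refine (crtM (M := 56 * 9) (by norm_num) (T.erase 3) (fun p hp => ?_) hcop g
    fun p hp => hg p (Finset.mem_of_mem_erase hp)).mono ?_
  · obtain ⟨h1, h2, h7⟩ := hT p (Finset.mem_of_mem_erase hp)
    refine ⟨h1, fun h => ?_⟩
    have h4 : p ∣ 2 ^ 3 * 7 * 3 ^ 2 := by norm_num; exact h
    rcases (Nat.Prime.dvd_mul h1).1 h4 with h4 | h5
    · rcases (Nat.Prime.dvd_mul h1).1 h4 with h5 | h5
      · exact h2 ((Nat.prime_dvd_prime_iff_eq h1 Nat.prime_two).1 (h1.dvd_of_dvd_pow h5))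
      · exact h7 ((Nat.prime_dvd_prime_iff_eq h1 (by norm_num)).1 h5)
    · exact Finset.ne_of_mem_erase hp
        ((Nat.prime_dvd_prime_iff_eq h1 Nat.prime_three).1 (h1.dvd_of_dvd_pow h5))
  · rintro l ⟨hl, h1, h2⟩
    have h56 : l ≡ a₀ [MOD 56] := (h1.of_dvd (Dvd.intro _ rfl)).trans hx1
    have h9 : l ≡ b [MOD 9] := (h1.of_dvd (Dvd.intro_left _ rfl)).trans hx2
    refine ⟨hl, h56, h9, fun p hp => ?_⟩
    by_cases hp3 : p = 3
    · subst hp3
      have h5 : l % 3 = b % 3 := h9.of_dvd (by norm_num : 3 ∣ 9)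
      rw [h5, h3 hp]
    · exact h2 p (Finset.mem_erase.2 ⟨hp3, hp⟩)

section main

variable {m : OO} (hm : m ≠ 0)

include hm

/-- **There are infinitely many twists which are not squares modulo given primes.** -/
theorem inf9 (hs : ∀ π : OO, Prime π → ¬ π ∣ 2 → π ∣ m → Sqm π (-1)) :
    {D : OO | (∃ q : Fin 2 → OO, Fac q ∧ D = ∏ i, q i) ∧
      (∀ π : OO, Prime π → ¬ π ∣ 2 → π ∣ m → ¬ Sqm π D) ∧
      ∀ (p : ℕ) (π : OO), p.Prime → Prime π → π ∣ ((p : ℕ) : OO) → π ∣ D →
        p % 9 = 2 ∨ p % 9 = 4}.Infinite := by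
  -- the quadratic non residues
  have hnr : ∃ nr : ℕ → ℕ, ∀ p : ℕ, p.Prime → p ≠ 2 → ¬ p ∣ nr p ∧ J((nr p : ℤ) | p) = -1 := by
    have h : ∀ p : ℕ, ∃ n : ℕ, p.Prime → p ≠ 2 → ¬ p ∣ n ∧ J((n : ℤ) | p) = -1 := by
      intro p
      by_cases h : p.Prime ∧ p ≠ 2
      · obtain ⟨n, hn⟩ := exists_nr h.1 h.2
        exact ⟨n, fun _ _ => hn⟩
      · exact ⟨0, fun h1 h2 => absurd ⟨h1, h2⟩ h⟩
    choose nr hnr using h
    exact ⟨nr, hnr⟩
  obtain ⟨nr, hnr⟩ := hnr
  -- the prime P
  set g₁ : ℕ → ℕ := fun p => if J(-7 | p) = -1 then nr p else 1 with hg₁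
  have hg₁' : ∀ p ∈ T0 m, ¬ p ∣ g₁ p := by
    intro p hp
    obtain ⟨h1, h2, h3⟩ := T0_prime hp
    simp only [hg₁]
    split_ifs
    · exact (hnr p h1 h2).1
    · intro h
      exact h1.one_lt.ne' (Nat.dvd_one.1 h)
  have hg₁3 : g₁ 3 % 3 = 2 % 3 := by
    have e : g₁ 3 = nr 3 := by
      simp only [hg₁]
      rw [if_pos (by norm_num)]
    rw [e]
    obtain ⟨h1, h2⟩ := hnr 3 Nat.prime_three (by norm_num)
    rcases (by omega : nr 3 % 3 = 0 ∨ nr 3 % 3 = 1 ∨ nr 3 % 3 = 2) with h | h | h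
    · exact absurd (Nat.dvd_of_mod_eq_zero h) h1
    · rw [jac_mod (p := 3) (b := 1) (by omega), Nat.cast_one, jacobiSym.one_left] at h2
      norm_num at h2
    · omega
  obtain ⟨P, hP, hP56, hP9, hPg⟩ := (crt9 (T0 m) (fun p hp => T0_prime hp) (a₀ := 1) (b := 2)
    (by norm_num) (by norm_num) g₁ hg₁' (fun _ => hg₁3)).nonempty
  have hPT : P ∉ T0 m := by
    intro h
    have h1 := hPg P h
    rw [Nat.mod_self] at h1
    exact hg₁' P h (Nat.dvd_of_mod_eq_zero h1.symm)
  have hP56' : P % 56 = 1 := hP56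
  have hP2 : P ≠ 2 := by rintro rfl; omega
  have hP7 : P ≠ 7 := by rintro rfl; omega
  obtain ⟨q₀, hq₀, hq₀n, hq₀i⟩ := exists_norm hP hP56'
  have FP : Fact P.Prime := ⟨hP⟩
  -- the prime l
  set g₂ : ℕ → ℕ := fun p => if p = P then nr p else
    if ∃ π : OO, Pr π ∧ nn π = p ∧ Sqm π q₀ then nr p else 1 with hg₂
  have hT1 : ∀ p ∈ insert P (T0 m), p.Prime ∧ p ≠ 2 ∧ p ≠ 7 := by
    intro p hp
    rcases Finset.mem_insert.1 hp with rfl | hp
    · exact ⟨hP, hP2, hP7⟩
    · exact T0_prime hp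
  have hg₂' : ∀ p ∈ insert P (T0 m), ¬ p ∣ g₂ p := by
    intro p hp
    obtain ⟨h1, h2, h3⟩ := hT1 p hp
    simp only [hg₂]
    split_ifs
    · exact (hnr p h1 h2).1
    · exact (hnr p h1 h2).1
    · intro h
      exact h1.one_lt.ne' (Nat.dvd_one.1 h)
  set a₀ : ℕ := if (8 : ℤ) ∣ q₀.re - 1 then 45 else 17 with ha₀
  have hP3 : 3 ≠ P := by rintro rfl; omega
  have hg₂3 : g₂ 3 % 3 = 4 % 3 := by
    have e : g₂ 3 = 1 := by
      simp only [hg₂]
      rw [if_neg hP3, if_neg]
      rintro ⟨π, hπ, hn, -⟩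
      refine not_prime_of_norm Nat.prime_three hπ.prime (by exact_mod_cast hn) ?_
      have : Fact (Nat.Prime 3) := ⟨Nat.prime_three⟩
      exact inert_prime (by norm_num)
    rw [e]
  have hinf := crt9 (insert P (T0 m)) hT1 (a₀ := a₀) (b := 4)
    (by rw [ha₀]; split_ifs <;> norm_num) (by norm_num) g₂ hg₂' (fun _ => hg₂3)
  refine (hinf.image (f := fun l : ℕ => q₀ * ((l : ℤ) : OO)) ?_).mono ?_
  · intro a _ b _ h
    have h1 := mul_left_cancel₀ hq₀.prime.ne_zero h
    have := congrArg QuadraticAlgebra.re h1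
    simpa using this
  rintro _ ⟨l, ⟨hl, hl56, hl9, hlg⟩, rfl⟩
  have Fl : Fact l.Prime := ⟨hl⟩
  have hl56' : l % 56 = 45 ∧ (8 : ℤ) ∣ q₀.re - 1 ∨ l % 56 = 17 ∧ (8 : ℤ) ∣ q₀.re - 5 := by
    rw [hl56, ha₀]
    have := hq₀.re
    split_ifs with h
    · left; exact ⟨by norm_num, h⟩
    · right; exact ⟨by norm_num, by omega⟩
  have hl4 : l % 4 = 1 := by omega
  have hl7 : l % 7 = 3 := by omega
  have hlnd : ∀ p ∈ insert P (T0 m), ¬ p ∣ l := by
    intro p hp h
    have h1 := hlg p hp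
    rw [Nat.mod_eq_zero_of_dvd h] at h1
    exact hg₂' p hp (Nat.dvd_of_mod_eq_zero h1.symm)
  have hlp : Prime ((l : ℤ) : OO) := by
    apply inert_prime
    have ho : Odd l := Nat.odd_iff.2 (by omega)
    rw [jacobiSym.neg _ ho, ZMod.χ₄_nat_one_mod_four hl4, one_mul]
    have h1 : J(((7 : ℕ) : ℤ) | l) = J((l : ℤ) | 7) :=
      jacobiSym.quadratic_reciprocity_one_mod_four' (by decide) hl4
    have h2 : J((l : ℤ) | 7) = J(3 | 7) := by
      rw [jacobiSym.mod_left]
      have : ((l : ℤ)) % ((7 : ℕ) : ℤ) = 3 := by omega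
      rw [this]
    have h3 : J(3 | 7) = -1 := by norm_num
    rw [h2, h3] at h1
    exact_mod_cast h1
  have hlPr : Pr ((l : ℤ) : OO) := by
    refine ⟨hlp, four_dvd ?_ ?_⟩
    · simp; omega
    · simp
  have hsq0 : ¬ Sqm q₀ ((l : ℤ) : OO) := by
    have hnd : ¬ ((P : ℕ) : ℤ) ∣ (l : ℤ) := by
      intro h
      exact hlnd P (Finset.mem_insert_self _ _) (by exact_mod_cast h)
    rw [split_int hq₀.prime hq₀n hnd, jac_mod (hlg P (Finset.mem_insert_self _ _))]
    simp only [hg₂, if_true]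
    rw [(hnr P hP hP2).2]
    norm_num
  have hne0 : q₀ ≠ ((l : ℤ) : OO) := by
    intro h
    rw [h, nn_int] at hq₀n
    have h2 : l ^ 2 = P := by exact_mod_cast hq₀n
    rw [← h2] at hP
    exact Nat.Prime.not_prime_pow le_rfl hP
  refine ⟨⟨![q₀, ((l : ℤ) : OO)], ⟨?_, ?_, ?_, ?_⟩, ?_⟩, ?_, ?_⟩
  · intro i
    fin_cases i
    exacts [hq₀, hlPr]
  · intro i j h
    fin_cases i <;> fin_cases j
    · rfl
    · exact absurd h hne0
    · exact absurd h.symm hne0
    · rfl
  · rw [Fin.prod_univ_two]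
    show (8 : OO) ∣ q₀ * ((l : ℤ) : OO) - 5
    have h8 : ∃ c : ℤ, (8 : ℤ) ∣ q₀.re - c ∧ (8 : ℤ) ∣ (l : ℤ) * c - 5 := by
      rcases hl56' with ⟨h1, h2⟩ | ⟨h1, h2⟩
      · exact ⟨1, h2, by omega⟩
      · exact ⟨5, h2, by omega⟩
    obtain ⟨c, ⟨u, hu⟩, ⟨v, hv⟩⟩ := h8
    obtain ⟨t, ht⟩ := hq₀i
    have h := (int_dvd (e := 8) (x := q₀ * ((l : ℤ) : OO) - 5)).2 ⟨⟨u * l + v, by
      simp
      linear_combination (l : ℤ) * hu + hv⟩, ⟨t * l, by
      simp
      linear_combination (l : ℤ) * ht⟩⟩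
    exact_mod_cast h
  · intro S h1 h2
    by_cases h0 : (0 : Fin 2) ∈ S
    · by_cases h3 : (1 : Fin 2) ∈ S
      · right
        ext k
        fin_cases k <;> simp [h0, h3]
      · exfalso
        have hSc : Sᶜ = {1} := by
          ext k
          fin_cases k <;> simp [h0, h3]
        have := h2 0 h0
        rw [hSc, Finset.prod_singleton] at this
        exact hsq0 this
    · by_cases h3 : (1 : Fin 2) ∈ S
      · exfalso
        have hSc : S = {1} := by
          ext k
          fin_cases k <;> simp [h0, h3]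
        have := h1 0 h0
        rw [hSc, Finset.prod_singleton] at this
        exact hsq0 this
      · left
        ext k
        fin_cases k <;> simp [h0, h3]
  · rw [Fin.prod_univ_two]
    rfl
  · intro π hπ hπ2 hd
    have key : ∀ π : OO, Pr π → π ∣ m → ¬ Sqm π (q₀ * ((l : ℤ) : OO)) := by
      intro π hπ hd
      rw [← qs_zero]
      rcases hπ.cases with ⟨p, hp, hp4, hn⟩ | ⟨l', e, hl', hl2, he, he4, hqe⟩
      · have Fp : Fact p.Prime := ⟨hp⟩
        have hpT := (T0_split hm hπ hd hp hn).1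
        have hpT1 : p ∈ insert P (T0 m) := Finset.mem_insert_of_mem hpT
        have hpP : p ≠ P := by
          rintro rfl
          exact hPT hpT
        have hnd : ¬ ((p : ℕ) : ℤ) ∣ (l : ℤ) := fun h => hlnd p hpT1 (by exact_mod_cast h)
        have nd1 : ¬ π ∣ q₀ := by
          refine not_dvd hπ hq₀ ?_
          rintro rfl
          rw [hn] at hq₀n
          exact hpP (by exact_mod_cast hq₀n)
        have nd2 : ¬ π ∣ ((l : ℤ) : OO) := fun h => hnd ((split_dvd hπ.prime hn _).1 h)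
        have hl1 : Sqm π ((l : ℤ) : OO) ↔ J((g₂ p : ℤ) | p) = 1 := by
          rw [split_int hπ.prime hn hnd, jac_mod (hlg p hpT1)]
        rw [qs_mul hπ nd1 nd2]
        by_cases hsq : ∃ π : OO, Pr π ∧ nn π = p ∧ Sqm π q₀
        · have e1 : g₂ p = nr p := by
            simp only [hg₂]
            rw [if_neg hpP, if_pos hsq]
          rw [e1, (hnr p hp (T0_prime hpT).2.1).2] at hl1
          have hl3 : qs π ((l : ℤ) : OO) ≠ 0 := by
            rw [Ne, qs_zero, hl1]
            norm_num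
          -- the symbol of q₀
          have hq1 : qs π q₀ = 0 := by
            obtain ⟨π', hπ', hn', hs'⟩ := hsq
            by_cases hππ : π' = π
            · rw [← hππ, qs_zero]; exact hs'
            · have h5 : π' ∣ π * cj π := by
                rw [mul_cj, hn, ← hn', ← mul_cj]
                exact Dvd.intro _ rfl
              have h6 : π' = cj π := by
                by_contra h7
                rcases hπ'.prime.dvd_or_dvd h5 with h8 | h8
                · exact not_dvd hπ' hπ hππ h8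
                · exact not_dvd hπ' hπ.cj h7 h8
              have h7 : qs π (cj q₀) = 0 := by
                rw [qs_zero, ← sqm_cj, cj_cj, ← h6]
                exact hs'
              have nd3 : ¬ π ∣ cj q₀ := by
                intro h8
                have h9 : π ∣ ((P : ℤ) : OO) := by
                  rw [← hq₀n, ← mul_cj]
                  exact Dvd.dvd.mul_left h8 _
                have h10 := (split_dvd hπ.prime hn _).1 h9
                exact hpP ((Nat.prime_dvd_prime_iff_eq hp hP).1 (by exact_mod_cast h10))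
              have h8 : qs π (q₀ * cj q₀) = 0 := by
                rw [mul_cj, hq₀n, qs_zero]
                have hPp : ¬ ((p : ℕ) : ℤ) ∣ (P : ℤ) := by
                  intro h
                  exact hpP ((Nat.prime_dvd_prime_iff_eq hp hP).1 (by exact_mod_cast h))
                rw [split_int hπ.prime hn hPp, jac_mod (hPg p hpT)]
                have e2 : g₁ p = 1 := by
                  simp only [hg₁]
                  rw [if_neg]
                  intro h
                  exact not_prime_of_norm hp hπ.prime hn (inert_prime h)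
                rw [e2, Nat.cast_one, jacobiSym.one_left]
              rw [qs_mul hπ nd1 nd3, h7, add_zero] at h8
              exact h8
          rw [hq1, zero_add]
          exact hl3
        · have e1 : g₂ p = 1 := by
            simp only [hg₂]
            rw [if_neg hpP, if_neg hsq]
          rw [e1, Nat.cast_one, jacobiSym.one_left] at hl1
          have hl3 : qs π ((l : ℤ) : OO) = 0 := by
            rw [qs_zero, hl1]
          rw [hl3, add_zero, qs_zero]
          intro h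
          exact hsq ⟨π, hπ, hn, h⟩
      · have Fl' : Fact l'.Prime := ⟨hl'⟩
        subst hqe
        have hl7' : l' ≠ 7 := by
          rintro rfl
          exact inert_seven he hπ.prime (by norm_num)
        have hlT : l' ∈ T0 m := by
          refine mem_T0 hm hl' hl2 hl7' ?_
          obtain ⟨t, ht⟩ := hd
          rw [ht, nn_mul, nn_int]
          rcases he with rfl | rfl
          · exact ⟨l' * nn t, by ring⟩
          · exact ⟨l' * nn t, by ring⟩
        have hlT1 : l' ∈ insert P (T0 m) := Finset.mem_insert_of_mem hlT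
        have hlP : l' ≠ P := by
          rintro rfl
          exact hPT hlT
        have hnd : ¬ ((l' : ℕ) : ℤ) ∣ (l : ℤ) := fun h => hlnd l' hlT1 (by exact_mod_cast h)
        have nd1 : ¬ ((e : ℤ) : OO) ∣ q₀ := by
          rw [inert_nn he hπ.prime, hq₀n]
          intro h
          exact hlP ((Nat.prime_dvd_prime_iff_eq hl' hP).1 (by exact_mod_cast h))
        have nd2 : ¬ ((e : ℤ) : OO) ∣ ((l : ℤ) : OO) := by
          rw [inert_nn he hπ.prime, nn_int]
          intro h
          have hlp' : Prime (l' : ℤ) := Nat.prime_iff_prime_int.1 hl'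
          exact hnd (hlp'.dvd_of_dvd_pow h)
        have h1 : qs ((e : ℤ) : OO) ((l : ℤ) : OO) = 0 := by
          rw [qs_zero]
          exact inert_int he hl2 hπ.prime he4 hnd
        rw [qs_mul hπ nd1 nd2, h1, add_zero, qs_zero, inert_symb he hl2 hπ.prime he4 nd1,
          hq₀n, jac_mod (hPg l' hlT)]
        have e2 : g₁ l' = nr l' := by
          simp only [hg₁]
          rw [if_pos (inert_neg he hl2 hπ.prime)]
        rw [e2, (hnr l' hl' hl2).2]
        norm_num
    rcases pr_of_neg_one hπ hπ2 (hs π hπ hπ2 hd) with h | h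
    · exact key π h hd
    · have h1 := key (-π) h ((neg_dvd).2 hd)
      rintro ⟨y, hy⟩
      exact h1 ⟨y, (neg_dvd).2 hy⟩
  · intro p π hp hπ hdp hd
    have FPp : Fact p.Prime := ⟨hp⟩
    have hnp : nn π ∣ (p : ℤ) ^ 2 := by
      obtain ⟨t, ht⟩ := hdp
      have h1 : nn ((p : ℤ) : OO) = nn π * nn t := by
        rw [← nn_mul, ← ht]
        push_cast
        rfl
      rw [nn_int] at h1
      exact ⟨_, h1⟩
    have key : ∀ q : ℕ, q.Prime → (q : ℤ) ∣ nn π → p = q := by
      intro q hq h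
      have h1 : (q : ℤ) ∣ (p : ℤ) ^ 2 := h.trans hnp
      have h2 : q ∣ p ^ 2 := by exact_mod_cast h1
      exact ((Nat.prime_dvd_prime_iff_eq hq hp).1 (hq.dvd_of_dvd_pow h2)).symm
    rcases hπ.dvd_or_dvd hd with h | h
    · left
      obtain ⟨u, hu⟩ := (hπ.dvd_prime_iff_associated hq₀.prime).1 h
      have h2 := congrArg nn hu
      rw [nn_mul, unit_iff.1 u.isUnit, mul_one, hq₀n] at h2
      rw [key P hP (by rw [h2]), hP9]
    · right
      obtain ⟨u, hu⟩ := (hπ.dvd_prime_iff_associated hlp).1 h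
      have h2 := congrArg nn hu
      rw [nn_mul, unit_iff.1 u.isUnit, mul_one, nn_int] at h2
      rw [key l hl (by rw [h2]; exact Dvd.intro_left _ (by ring)), hl9]


end main

end Pool.Agent.Helper891_RP
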