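import Pool.Agent.Helper891_RP.Dv

/-!
# From divisibility to coboundaries
-/

set_option autoImplicit false
set_option linter.unusedSectionVars false

namespace Pool.Agent.Helper891_RP

open scoped Classical

open Pool.Agent.R384 (Tr vadd vsub norm_two' add_le' sub_le' add_lt')

variable {B : Type} [Fintype B] {G : Type} [Group G] {H : Subgroup G} [hN : H.Normal]
  [hF : H.FiniteIndex] {R : Representation ℚ_[2] G (B → ℚ_[2])} {r r' : G ⧸ H → G}
  {c c' : G → B → ℚ_[2]}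

lemma cor_congr (hr : Sec r) (h : ∀ σ ∈ H, c σ = c' σ) (g : G) : cor R r c g = cor R r c' g := by
  unfold cor
  exact Finset.sum_congr rfl fun δ _ => by rw [h _ (hr.mem g δ)]

lemma cor_add (c c' : G → B → ℚ_[2]) (g : G) :
    cor R r (fun σ => c σ + c' σ) g = cor R r c g + cor R r c' g := by
  unfold cor
  simp only [map_add]
  rw [Finset.sum_add_distrib]

lemma cor_smul (a : ℚ_[2]) (c : G → B → ℚ_[2]) (g : G) :
    cor R r (fun σ => a • c σ) g = a • cor R r c g := by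
  unfold cor
  simp only [map_smul]
  rw [Finset.smul_sum]

variable (R r) in
/-- the projection -/
noncomputable def EE (c : G → B → ℚ_[2]) (g : G) : B → ℚ_[2] :=
  (Fintype.card (G ⧸ H)) • c g - cor R r c g

lemma EE_congr (hr : Sec r) (h : ∀ σ ∈ H, c σ = c' σ) {g : G} (hg : g ∈ H) :
    EE R r c g = EE R r c' g := by
  unfold EE
  rw [cor_congr hr h, h g hg]

lemma EE_add (c c' : G → B → ℚ_[2]) (g : G) :
    EE R r (fun σ => c σ + c' σ) g = EE R r c g + EE R r c' g := by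
  unfold EE
  rw [cor_add, smul_add]
  abel

lemma EE_smul (a : ℚ_[2]) (c : G → B → ℚ_[2]) (g : G) :
    EE R r (fun σ => a • c σ) g = a • EE R r c g := by
  unfold EE
  rw [cor_smul, smul_sub, smul_comm]

lemma EE_cob (hr : Sec r) (y : B → ℚ_[2]) (g : G) :
    EE R r (fun σ => R σ y - y) g =
      R g ((Fintype.card (G ⧸ H)) • y - ∑ δ : G ⧸ H, R (r δ) y) -
        ((Fintype.card (G ⧸ H)) • y - ∑ δ : G ⧸ H, R (r δ) y) := by
  unfold EE
  rw [cor_cob (R := R) (c := fun σ => R σ y - y) (y := y) hr (fun h _ => rfl) g, map_sub, map_nsmul,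
    smul_sub]
  abel

lemma EE_EE (hr : Sec r) (hc : CocOn H R c) {g : G} :
    EE R r (EE R r c) g = (Fintype.card (G ⧸ H)) • EE R r c g +
      (R g (∑ δ : G ⧸ H, cor R r c (r δ)) - ∑ δ : G ⧸ H, cor R r c (r δ)) := by
  have h1 : cor R r (EE R r c) g = (Fintype.card (G ⧸ H) : ℚ_[2]) • cor R r c g -
      cor R r (cor R r c) g := by
    have e : EE R r c = fun σ => ((Fintype.card (G ⧸ H) : ℚ_[2]) • c σ) +
        ((-1 : ℚ_[2]) • cor R r c σ) := by
      funext σ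
      unfold EE
      rw [Nat.cast_smul_eq_nsmul, neg_one_smul]
      abel
    rw [e, cor_add, cor_smul, cor_smul, neg_one_smul]
    abel
  rw [cor_res hr (cor_mul hr hc), Nat.cast_smul_eq_nsmul] at h1
  have h2 : EE R r (EE R r c) g = (Fintype.card (G ⧸ H)) • EE R r c g - cor R r (EE R r c) g := rfl
  rw [h2, h1]
  abel

/-- **The engine.** -/
theorem engine (ht : Tr R) (hr : Sec r) (hodd : Odd (Fintype.card (G ⧸ H)))
    {P : (G → B → ℚ_[2]) → Prop} (hP : ∀ c, P c → CocOn H R c)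
    (hstep : ∀ c, P c → (∀ h ∈ H, ‖c h‖ ≤ 1) → ∃ c', P c' ∧ (∀ h ∈ H, ‖c' h‖ ≤ 1) ∧
      ∀ h ∈ H, EE R r c h = (2 : ℚ_[2]) • c' h)
    (hc : P c) (hint : ∀ h ∈ H, ‖c h‖ ≤ 1) : ∃ y, ∀ h ∈ H, EE R r c h = R h y - y := by
  set n := Fintype.card (G ⧸ H) with hn
  have hn0 : (n : ℚ_[2]) ≠ 0 := by
    intro h
    have := norm_odd hodd
    rw [h, norm_zero] at this
    exact zero_ne_one this
  have hn1 : ∀ m : ℕ, ‖((n : ℚ_[2]) ^ m)⁻¹‖ = 1 := by
    intro m
    rw [norm_inv, norm_pow, norm_odd hodd, one_pow, inv_one]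
  set Y := ∑ δ : G ⧸ H, cor R r c (r δ) with hY
  have hY1 : ‖Y‖ ≤ 1 := vsum _ _ zero_le_one fun δ _ => cor_int ht hr hint _
  have key : ∀ m : ℕ, ∃ (cm : G → B → ℚ_[2]) (y : B → ℚ_[2]), P cm ∧ (∀ h ∈ H, ‖cm h‖ ≤ 1) ∧
      ‖y‖ ≤ 1 ∧ ∀ h ∈ H, (n : ℚ_[2]) ^ m • EE R r c h = (2 : ℚ_[2]) ^ (m + 1) • cm h + (R h y - y) := by
    intro m
    induction m with
    | zero =>
      obtain ⟨c', h1, h2, h3⟩ := hstep c hc hint
      refine ⟨c', 0, h1, h2, by rw [norm_zero]; exact zero_le_one, fun h hh => ?_⟩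
      rw [pow_zero, one_smul, zero_add, pow_one, map_zero, sub_zero, add_zero, h3 h hh]
    | succ m ih =>
      obtain ⟨cm, y, h1, h2, h3, h4⟩ := ih
      obtain ⟨c', k1, k2, k3⟩ := hstep cm h1 h2
      set y' := (n • y - ∑ δ : G ⧸ H, R (r δ) y) - (n : ℚ_[2]) ^ m • Y with hy'
      refine ⟨c', y', k1, k2, ?_, fun h hh => ?_⟩
      · refine vsub zero_le_one (vsub zero_le_one (vnsmul.trans h3) (vsum _ _ zero_le_one
          fun δ _ => (norm_R ht _ _).trans h3)) ?_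
        rw [norm_smul, norm_pow, norm_odd hodd, one_pow, one_mul]
        exact hY1
      · have e1 : EE R r (fun σ => (n : ℚ_[2]) ^ m • EE R r c σ) h =
            EE R r (fun σ => (2 : ℚ_[2]) ^ (m + 1) • cm σ + (R σ y - y)) h :=
          EE_congr hr (fun σ hσ => h4 σ hσ) hh
        rw [EE_smul, EE_EE hr (hP c hc), EE_add, EE_smul, EE_cob hr, k3 h hh] at e1
        have e2 : (n : ℚ_[2]) ^ (m + 1) • EE R r c h = (n : ℚ_[2]) ^ m • (n • EE R r c h) := by
          rw [pow_succ, mul_smul, Nat.cast_smul_eq_nsmul]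
        rw [e2]
        have e3 : (n : ℚ_[2]) ^ m • (n • EE R r c h) = (n : ℚ_[2]) ^ m •
            (n • EE R r c h + (R h Y - Y)) - (n : ℚ_[2]) ^ m • (R h Y - Y) := by
          rw [smul_add]
          abel
        rw [e3, e1, hy']
        generalize n • y - ∑ δ : G ⧸ H, R (r δ) y = W
        have e5 : (2 : ℚ_[2]) ^ (m + 1) • (2 : ℚ_[2]) • c' h = (2 : ℚ_[2]) ^ (m + 1 + 1) • c' h := by
          rw [smul_smul, ← pow_succ]
        rw [e5, map_sub, map_smul, smul_sub]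
        abel
  choose cm y h1 h2 h3 h4 using key
  set z : ℕ → B → ℚ_[2] := fun m => ((n : ℚ_[2]) ^ m)⁻¹ • y m with hz
  have hz1 : ∀ m, z m ∈ Metric.closedBall (0 : B → ℚ_[2]) 1 := by
    intro m
    rw [mem_closedBall_zero_iff, hz]
    show ‖((n : ℚ_[2]) ^ m)⁻¹ • y m‖ ≤ 1
    rw [norm_smul, hn1, one_mul]
    exact h3 m
  obtain ⟨a, -, φ, hφ, hlim⟩ := (isCompact_closedBall (0 : B → ℚ_[2]) 1).tendsto_subseq hz1
  refine ⟨a, fun h hh => ?_⟩
  have hb : ∀ m : ℕ, ‖EE R r c h - (R h a - a)‖ ≤ max ((1 / 2 : ℝ) ^ (m + 1)) ‖z m - a‖ := by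
    intro m
    have e1 : EE R r c h = ((n : ℚ_[2]) ^ m)⁻¹ • ((2 : ℚ_[2]) ^ (m + 1) • cm m h) + (R h (z m) - z m) := by
      have h5 := congrArg (fun v => ((n : ℚ_[2]) ^ m)⁻¹ • v) (h4 m h hh)
      simp only [smul_smul, inv_mul_cancel₀ (pow_ne_zero m hn0), one_smul, smul_add] at h5
      rw [h5, hz]
      simp only [map_smul, smul_sub, smul_smul]
    have e2 : EE R r c h - (R h a - a) = ((n : ℚ_[2]) ^ m)⁻¹ • ((2 : ℚ_[2]) ^ (m + 1) • cm m h) +
        (R h (z m - a) - (z m - a)) := by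
      rw [e1, map_sub]
      abel
    rw [e2]
    refine vadd (by positivity) ?_ ?_
    · refine le_trans ?_ (le_max_left _ _)
      rw [norm_smul, hn1, one_mul, norm_smul, norm_pow, norm_two']
      have h6 : (0 : ℝ) < (1 / 2) ^ (m + 1) := by positivity
      have h8 := h2 m h hh
      nlinarith
    · refine le_trans (ht h _) (le_trans ?_ (le_max_right _ _))
      have := norm_nonneg (z m - a)
      linarith
  have hlim' : Filter.Tendsto (fun k => max ((1 / 2 : ℝ) ^ (φ k + 1)) ‖z (φ k) - a‖)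
      Filter.atTop (nhds 0) := by
    have t1 : Filter.Tendsto (fun m : ℕ => (1 / 2 : ℝ) ^ (m + 1)) Filter.atTop (nhds 0) := by
      have h5 := (tendsto_pow_atTop_nhds_zero_of_lt_one (r := (1 / 2 : ℝ)) (by norm_num)
        (by norm_num)).mul_const (1 / 2 : ℝ)
      rwa [zero_mul] at h5
    have t2 := t1.comp hφ.tendsto_atTop
    have t3 : Filter.Tendsto (fun k => ‖z (φ k) - a‖) Filter.atTop (nhds 0) := by
      have := (hlim.sub_const a).norm
      rwa [sub_self, norm_zero] at this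
    have t4 := t2.max t3
    rwa [max_self] at t4
  have h6 : ‖EE R r c h - (R h a - a)‖ ≤ 0 := ge_of_tendsto' hlim' fun k => hb (φ k)
  exact sub_eq_zero.1 (norm_le_zero_iff.1 h6)

end Pool.Agent.Helper891_RP
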