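import Pool.Agent.Y46.G2.EmbA
import Pool.Agent.Y682.NrmP
import Pool.Agent.R384.Emb

/-!
# Embeddings of number fields in `ℚ̄_p`
-/

set_option autoImplicit false
set_option linter.unusedSectionVars false

open NumberField IsDedekindDomain Module

namespace Pool.Agent.Helper891_RP

open Pool.Agent.TH841.NF (pls pid mem_pid norm_le_one_of_val lf mem_lf fix_lf norm_int)
open Pool.Agent.Y46.G2 (val_le_one_of_norm val_lt_one_of_norm)
open Pool.Agent.Y682 (pls_eq)
open Pool.Agent.Y715.Nr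

section

variable {F : Type} [Field F] [NumberField F] {p : ℕ} [hp : Fact p.Prime]

lemma p_mem_pls (j : F →+* PadicAlgCl p) : (p : 𝓞 F) ∈ (pls j).asIdeal := by
  change (p : 𝓞 F) ∈ pid j
  rw [mem_pid, map_natCast, map_natCast]
  exact Pool.Agent.W571.RK.norm_p_lt_one

/-- norms and valuations -/
lemma norm_val (j : F →+* PadicAlgCl p) : ∃ c : ℕ, 0 < c ∧
    (pls j).valuation F (p : F) = WithZero.exp (-(c : ℤ)) ∧
    ∀ (x : F) (k : ℤ), (pls j).valuation F x = WithZero.exp k → ‖j x‖ ^ c = (p : ℝ) ^ k := by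
  have hp0 : ((p : ℕ) : F) ≠ 0 := by exact_mod_cast hp.out.ne_zero
  have hvp0 : (pls j).valuation F (p : F) ≠ 0 := (Valuation.ne_zero_iff _).2 hp0
  have hlt : (pls j).valuation F (p : F) < 1 := by
    have h1 : (pls j).valuation F (algebraMap (𝓞 F) F (p : 𝓞 F)) < 1 :=
      ((pls j).valuation_lt_one_iff_mem _).2 (p_mem_pls j)
    rwa [map_natCast] at h1
  have hlog : WithZero.log ((pls j).valuation F (p : F)) < 0 := by
    rw [WithZero.log_lt_iff_lt_exp hvp0]
    simpa using hlt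
  obtain ⟨c, hc⟩ : ∃ c : ℕ, (c : ℤ) = -WithZero.log ((pls j).valuation F (p : F)) :=
    ⟨(-WithZero.log ((pls j).valuation F (p : F))).toNat, Int.toNat_of_nonneg (by omega)⟩
  have hcp : (pls j).valuation F (p : F) = WithZero.exp (-(c : ℤ)) := by
    rw [hc, neg_neg, WithZero.exp_log hvp0]
  refine ⟨c, by omega, hcp, fun x k hx => ?_⟩
  have hx0 : x ≠ 0 := by
    rintro rfl
    rw [map_zero] at hx
    exact WithZero.coe_ne_zero hx.symm
  have h1 : (pls j).valuation F (x ^ c * (p : F) ^ k) = 1 := by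
    rw [map_mul, map_pow, map_zpow₀, hx, hcp, ← WithZero.exp_zsmul, ← WithZero.exp_nsmul,
      ← WithZero.exp_add, ← WithZero.exp_zero]
    congr 1
    simp only [smul_eq_mul, nsmul_eq_mul]
    ring
  have h2 : ‖j (x ^ c * (p : F) ^ k)‖ = 1 := by
    have hne : x ^ c * (p : F) ^ k ≠ 0 := mul_ne_zero (pow_ne_zero _ hx0) (zpow_ne_zero _ hp0)
    have h3 : ‖j (x ^ c * (p : F) ^ k)‖ ≤ 1 := norm_le_one_of_val j h1.le
    have h4 : ‖j (x ^ c * (p : F) ^ k)⁻¹‖ ≤ 1 := norm_le_one_of_val j (by rw [map_inv₀, h1, inv_one])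
    rw [map_inv₀, norm_inv] at h4
    have h5 : 0 < ‖j (x ^ c * (p : F) ^ k)‖ := norm_pos_iff.2 ((map_ne_zero j).2 hne)
    exact le_antisymm h3 ((inv_le_one₀ h5).1 h4)
  rw [map_mul, map_pow, map_zpow₀, norm_mul, norm_pow, norm_zpow, map_natCast,
    Pool.Agent.W571.RK.norm_p_Om, inv_zpow, ← div_eq_mul_inv, div_eq_one_iff_eq] at h2
  · exact h2
  · exact zpow_ne_zero _ (by exact_mod_cast hp.out.ne_zero)

lemma norm_eq_of_pls {j j' : F →+* PadicAlgCl p} (h : pls j = pls j') (x : F) :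
    ‖j x‖ = ‖j' x‖ := by
  by_cases hx0 : x = 0
  · rw [hx0, map_zero, map_zero]
  obtain ⟨c, hc, hcp, h1⟩ := norm_val j
  obtain ⟨c', hc', hcp', h2⟩ := norm_val j'
  rw [h] at hcp h1
  rw [hcp', WithZero.exp_inj] at hcp
  have hcc : c' = c := by omega
  subst hcc
  have hv : (pls j').valuation F x ≠ 0 := (Valuation.ne_zero_iff _).2 hx0
  have h3 := h1 x _ (WithZero.exp_log hv).symm
  have h4 := h2 x _ (WithZero.exp_log hv).symm
  rw [← h4] at h3
  exact (pow_left_inj₀ (norm_nonneg _) (norm_nonneg _) (by omega)).1 h3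

/-- two embeddings with the same place are conjugate -/
theorem exists_aut {j j' : F →+* PadicAlgCl p} (h : pls j = pls j') :
    ∃ τ : Au p, ∀ x, τ (j x) = j' x := by
  obtain ⟨θ, hθ⟩ := Field.exists_primitive_element ℚ F
  -- the same relations
  have key : ∀ P : Polynomial ℚ_[p], Polynomial.aeval (j θ) P = 0 → Polynomial.aeval (j' θ) P = 0 := by
    intro P hP
    obtain ⟨n, hn⟩ : ∃ n, n = P.natDegree + 1 := ⟨_, rfl⟩
    have hs : ∀ z : PadicAlgCl p, Polynomial.aeval z P =
        ∑ k : Fin n, algebraMap ℚ_[p] (PadicAlgCl p) (P.coeff k) * z ^ (k : ℕ) := by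
      intro z
      rw [Polynomial.aeval_eq_sum_range, ← hn, Finset.sum_range]
      simp only [Algebra.smul_def]
    have hcont : ∀ z : PadicAlgCl p, Continuous fun c : Fin n → ℚ_[p] =>
        ‖∑ k : Fin n, algebraMap ℚ_[p] (PadicAlgCl p) (c k) * z ^ (k : ℕ)‖ := by
      intro z
      have h1 : Continuous (algebraMap ℚ_[p] (PadicAlgCl p)) := by
        have : Isometry (algebraMap ℚ_[p] (PadicAlgCl p)) :=
          AddMonoidHomClass.isometry_of_norm _ fun x => PadicAlgCl.norm_extends p x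
        exact this.continuous
      refine Continuous.norm (continuous_finsetSum _ fun k _ => ?_)
      exact (h1.comp (continuous_apply k)).mul continuous_const
    have hdense : DenseRange fun (q : Fin n → ℚ) (k : Fin n) => (q k : ℚ_[p]) := by
      have := DenseRange.piMap (ι := Fin n) (fun _ : Fin n => Padic.denseRange_ratCast p)
      exact this
    have heq : (fun c : Fin n → ℚ_[p] =>
        ‖∑ k : Fin n, algebraMap ℚ_[p] (PadicAlgCl p) (c k) * (j θ) ^ (k : ℕ)‖) =
        fun c : Fin n → ℚ_[p] =>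
        ‖∑ k : Fin n, algebraMap ℚ_[p] (PadicAlgCl p) (c k) * (j' θ) ^ (k : ℕ)‖ := by
      refine hdense.equalizer (hcont _) (hcont _) ?_
      funext q
      have e : ∀ i : F →+* PadicAlgCl p, ∑ k : Fin n, algebraMap ℚ_[p] (PadicAlgCl p) (q k : ℚ_[p]) *
          (i θ) ^ (k : ℕ) = i (∑ k : Fin n, (q k : F) * θ ^ (k : ℕ)) := by
        intro i
        rw [map_sum]
        refine Finset.sum_congr rfl fun k _ => ?_
        rw [map_mul, map_pow, map_ratCast, map_ratCast]
      show ‖∑ k : Fin n, algebraMap ℚ_[p] (PadicAlgCl p) (q k : ℚ_[p]) * (j θ) ^ (k : ℕ)‖ =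
        ‖∑ k : Fin n, algebraMap ℚ_[p] (PadicAlgCl p) (q k : ℚ_[p]) * (j' θ) ^ (k : ℕ)‖
      rw [e, e]
      exact norm_eq_of_pls h _
    have h1 := congrFun heq fun k => P.coeff k
    simp only at h1
    rw [← hs, ← hs, hP, norm_zero] at h1
    exact norm_eq_zero.1 h1.symm
  have hint : ∀ z : PadicAlgCl p, IsIntegral ℚ_[p] z := fun z => Algebra.IsIntegral.isIntegral z
  have h1 : minpoly ℚ_[p] (j θ) = minpoly ℚ_[p] (j' θ) :=
    minpoly.eq_of_irreducible_of_monic (minpoly.irreducible (hint _)) (key _ (minpoly.aeval _ _))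
      (minpoly.monic (hint _))
  obtain ⟨τ, hτ⟩ := IsConjRoot.exists_algEquiv (K := ℚ_[p]) (L := PadicAlgCl p) (x := j' θ)
    (y := j θ) h1.symm
  refine ⟨τ, fun x => ?_⟩
  have hx : x ∈ IntermediateField.adjoin ℚ {θ} := by rw [hθ]; trivial
  induction hx using IntermediateField.adjoin_induction with
  | mem z hz =>
    rw [Set.mem_singleton_iff] at hz
    rw [hz]
    exact hτ
  | algebraMap q =>
    rw [eq_ratCast, map_ratCast, map_ratCast, map_ratCast]
  | add y z _ _ hy hz => rw [map_add, map_add, hy, hz, map_add]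
  | mul y z _ _ hy hz => rw [map_mul, map_mul, hy, hz, map_mul]
  | inv y _ hy => rw [map_inv₀, map_inv₀, hy, map_inv₀]

/-- the elements of the number field are dense in the local field -/
theorem lf_dense (j : F →+* PadicAlgCl p) {z : PadicAlgCl p} (hz : z ∈ lf j) {ε : ℝ} (hε : 0 < ε) :
    ∃ t : F, ‖z - j t‖ < ε := by
  -- the closure of the image of `F`
  let S : Subring (PadicAlgCl p) := j.range.topologicalClosure
  have hQ : ∀ x : ℚ_[p], algebraMap ℚ_[p] (PadicAlgCl p) x ∈ S := by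
    intro x
    have h1 : Continuous (algebraMap ℚ_[p] (PadicAlgCl p)) := by
      have : Isometry (algebraMap ℚ_[p] (PadicAlgCl p)) :=
        AddMonoidHomClass.isometry_of_norm _ fun x => PadicAlgCl.norm_extends p x
      exact this.continuous
    have h2 : IsClosed {x : ℚ_[p] | algebraMap ℚ_[p] (PadicAlgCl p) x ∈ S} :=
      (Subring.isClosed_topologicalClosure _).preimage h1
    have h3 : Set.range (Rat.cast : ℚ → ℚ_[p]) ⊆ {x : ℚ_[p] | algebraMap ℚ_[p] (PadicAlgCl p) x ∈ S} := by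
      rintro _ ⟨q, rfl⟩
      refine Subring.le_topologicalClosure _ ?_
      refine ⟨(q : F), ?_⟩
      rw [map_ratCast, map_ratCast]
    have h4 := (Padic.denseRange_ratCast p).closure_range
    have h5 := h2.closure_subset_iff.2 h3
    rw [h4] at h5
    exact h5 (Set.mem_univ x)
  let A : Subalgebra ℚ_[p] (PadicAlgCl p) := { S with algebraMap_mem' := hQ }
  let A' : IntermediateField ℚ_[p] (PadicAlgCl p) := A.toIntermediateField' (by
    exact Subalgebra.isField_of_algebraic A)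
  have hle : lf j ≤ A' := by
    unfold lf
    rw [IntermediateField.adjoin_le_iff]
    rintro _ ⟨k, rfl⟩
    exact Subring.le_topologicalClosure _ ⟨_, rfl⟩
  have hzS : z ∈ closure (Set.range j) := by
    have h1 : z ∈ S := hle hz
    exact h1
  rw [Metric.mem_closure_iff] at hzS
  obtain ⟨_, ⟨t, rfl⟩, ht⟩ := hzS ε hε
  exact ⟨t, by rwa [dist_eq_norm] at ht⟩

/-- elements that are fixed by the decomposition group -/
theorem mem_lf_of_fix (j : F →+* PadicAlgCl p) {z : PadicAlgCl p}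
    (h : ∀ τ : Au p, (∀ x, τ (j x) = j x) → τ z = z) : z ∈ lf j := by
  have h1 : z ∈ IntermediateField.fixedField (lf j).fixingSubgroup := by
    rintro ⟨τ, hτ⟩
    rw [IntermediateField.mem_fixingSubgroup_iff] at hτ
    exact h τ fun x => hτ _ (mem_lf j x)
  rwa [InfiniteGalois.fixedField_fixingSubgroup] at h1

theorem exists_prime_mem (v : HeightOneSpectrum (𝓞 F)) :
    ∃ p : ℕ, p.Prime ∧ (p : 𝓞 F) ∈ v.asIdeal := by
  have key : ∀ n : ℕ, n ≠ 0 → (n : 𝓞 F) ∈ v.asIdeal → ∃ p : ℕ, p.Prime ∧ (p : 𝓞 F) ∈ v.asIdeal := by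
    intro n
    induction n using Nat.strong_induction_on with
    | _ n ih =>
      intro hn h
      by_cases h1 : n = 1
      · rw [h1, Nat.cast_one] at h
        exact absurd (Ideal.eq_top_of_isUnit_mem _ h isUnit_one) v.isPrime.ne_top
      · obtain ⟨m, hm⟩ := Nat.minFac_dvd n
        have hp := Nat.minFac_prime h1
        rw [hm, Nat.cast_mul] at h
        rcases v.isPrime.mem_or_mem h with h3 | h3
        · exact ⟨_, hp, h3⟩
        · have hm0 : m ≠ 0 := by
            rintro rfl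
            exact hn (by rw [hm, mul_zero])
          refine ih m ?_ hm0 h3
          conv_rhs => rw [hm]
          have := hp.two_le
          have := Nat.pos_of_ne_zero hm0
          nlinarith
  exact key _ (fun h => v.ne_bot (Ideal.absNorm_eq_zero_iff.1 h)) (Ideal.absNorm_mem v.asIdeal)

/-- every place comes from an embedding -/
theorem exists_pls (v : HeightOneSpectrum (𝓞 F)) (hv : (p : 𝓞 F) ∈ v.asIdeal) :
    ∃ j : F →+* PadicAlgCl p, pls j = v := by
  classical
  by_contra hcon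
  push Not at hcon
  have hnle : ∀ j : F →ₐ[ℚ] PadicAlgCl p, ¬ v.asIdeal ≤ pid (j : F →+* PadicAlgCl p) := by
    intro j hle
    apply hcon (j : F →+* PadicAlgCl p)
    apply HeightOneSpectrum.ext
    have hmax : v.asIdeal.IsMaximal := v.isMaximal
    have hpr : (pid (j : F →+* PadicAlgCl p)).IsPrime := inferInstance
    exact (hmax.eq_of_le hpr.ne_top hle).symm
  have h1 : ¬ (v.asIdeal : Set (𝓞 F)) ⊆ ⋃ j ∈ (↑(Finset.univ : Finset (F →ₐ[ℚ] PadicAlgCl p)) :
      Set (F →ₐ[ℚ] PadicAlgCl p)), (pid (j : F →+* PadicAlgCl p) : Set (𝓞 F)) := by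
    obtain ⟨j₀⟩ : Nonempty (F →ₐ[ℚ] PadicAlgCl p) :=
      ⟨IsAlgClosed.lift (R := ℚ) (S := F) (M := AlgebraicClosure ℚ_[p])⟩
    rw [Ideal.subset_union_prime j₀ j₀ (fun j _ _ _ => inferInstance)]
    rintro ⟨j, -, hj⟩
    exact hnle j hj
  rw [Set.not_subset] at h1
  obtain ⟨x, hxv, hx⟩ := h1
  simp only [Finset.coe_univ, Set.mem_univ, Set.iUnion_true, Set.mem_iUnion, not_exists] at hx
  have h2 : ∀ j : F →ₐ[ℚ] PadicAlgCl p, ‖j (x : F)‖ = 1 := by
    intro j
    refine le_antisymm (norm_int (j : F →+* PadicAlgCl p) x) ?_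
    have := hx j
    rw [SetLike.mem_coe, mem_pid, not_lt] at this
    exact this
  obtain ⟨m, hm⟩ : ∃ m : ℤ, Algebra.norm ℚ (x : F) = m := by
    have h1 : IsIntegral ℤ (Algebra.norm ℚ (x : F)) :=
      Algebra.isIntegral_norm ℚ x.isIntegral_coe
    obtain ⟨m, hm⟩ := IsIntegrallyClosed.isIntegral_iff.1 h1
    exact ⟨m, hm.symm⟩
  have h3 : ‖((m : ℚ_[p]) : PadicAlgCl p)‖ = 1 := by
    have e : ((m : ℚ_[p]) : PadicAlgCl p) = ∏ σ : F →ₐ[ℚ] PadicAlgCl p, σ (x : F) := by
      rw [← Algebra.norm_eq_prod_embeddings ℚ (PadicAlgCl p) (x : F), hm]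
      change algebraMap ℚ_[p] (PadicAlgCl p) (m : ℚ_[p]) = _
      rw [map_intCast, map_intCast]
    rw [e, norm_prod]
    exact Finset.prod_eq_one fun σ _ => h2 σ
  have h4 : ((m : ℤ) : 𝓞 F) ∈ v.asIdeal := by
    have h5 : ((Algebra.norm ℤ x : ℤ) : 𝓞 F) ∈ Ideal.span {x} := by
      have h6 := Ideal.absNorm_mem (Ideal.span {x})
      rw [Ideal.absNorm_span_singleton] at h6
      rcases Int.natAbs_eq (Algebra.norm ℤ x) with h7 | h7
      · rw [h7, Int.cast_natCast]
        exact h6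
      · rw [h7, Int.cast_neg, Int.cast_natCast]
        exact neg_mem h6
    have h6 : (Algebra.norm ℤ x : ℤ) = m := by
      have h7 := Algebra.coe_norm_int x
      have h8 : ((Algebra.norm ℤ x : ℤ) : ℚ) = (m : ℚ) := h7.trans hm
      exact_mod_cast h8
    rw [h6] at h5
    exact (Ideal.span_singleton_le_iff_mem _).2 hxv h5
  have h5 : (p : ℤ) ∣ m := by
    by_contra hnd
    have hpp : Prime (p : ℤ) := Nat.prime_iff_prime_int.1 hp.out
    obtain ⟨a, b, hab⟩ := (hpp.irreducible.coprime_iff_not_dvd).2 hnd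
    have h6 : ((a * (p : ℤ) + b * m : ℤ) : 𝓞 F) ∈ v.asIdeal := by
      push_cast
      exact add_mem (v.asIdeal.mul_mem_left _ hv) (v.asIdeal.mul_mem_left _ h4)
    rw [hab, Int.cast_one] at h6
    exact v.isPrime.ne_top ((Ideal.eq_top_iff_one _).2 h6)
  have h6 : ‖((m : ℚ_[p]) : PadicAlgCl p)‖ < 1 := by
    rw [PadicAlgCl.norm_extends, Padic.norm_intCast_lt_one_iff]
    exact h5
  rw [h3] at h6
  exact lt_irrefl _ h6

end

section orbit

/-- orbits of a group that acts through a finite group of odd order -/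
theorem orbit_odd {T X Q : Type} [Group T] [MulAction T X] [Group Q] [Finite Q]
    (hQ : Odd (Nat.card Q)) (φ : T →* Q) (x : X) (h : ∀ t, φ t = 1 → t • x = x) :
    (MulAction.orbit T x).Finite ∧ Odd (Nat.card (MulAction.orbit T x)) := by
  have h1 : φ.ker ≤ MulAction.stabilizer T x := fun t ht => h t ht
  have h2 : (MulAction.stabilizer T x).index ∣ φ.ker.index := Subgroup.index_dvd_of_le h1
  have h3 : φ.ker.index ∣ Nat.card Q := by
    rw [Subgroup.index_ker]
    exact Subgroup.card_subgroup_dvd_card _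
  have h4 : Nat.card (MulAction.orbit T x) = (MulAction.stabilizer T x).index := by
    rw [Nat.card_congr (MulAction.orbitEquivQuotientStabilizer T x)]
    rfl
  have h5 : Odd (Nat.card (MulAction.orbit T x)) := by
    rw [h4]
    obtain ⟨k, hk⟩ := h2.trans h3
    rw [hk] at hQ
    exact (Nat.odd_mul.1 hQ).1
  refine ⟨?_, h5⟩
  have : Finite (MulAction.orbit T x) := Nat.finite_of_card_ne_zero (by
    intro h0
    rw [h0] at h5
    exact absurd h5 (by decide))
  exact Set.toFinite _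

end orbit

end Pool.Agent.Helper891_RP
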