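import Pool.Agent.Helper891_RP.Gen

/-!
# The tensor products
-/

set_option autoImplicit false
set_option linter.unusedSectionVars false

open NumberField IsDedekindDomain Module

namespace Pool.Agent.Helper891_RP

open scoped Classical

open Pool.Agent.Y715.Nr Pool.Agent.Y715.Red
open Pool.Agent.Y715.Gi (QB KK GK i₀_mem gk_fix)
open Pool.Agent.Y715.Df (Cmp exists_cmp)
open Pool.Agent.R384

section

variable {F : Type} [Field F] [NumberField F] [IsGalois ℚ F] (i : F →+* QB) {i₀ : QB}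
  (hi : i₀ ^ 2 = i₀ - 2) {D : OO} {r I : QB} {ι₁ ι₂ : QB →ₐ[ℚ] PadicAlgCl 2} {n m : ℕ}
  {a b c d : Fin n → OO} {rk : Fin n → QB} {s : OO}
  {ρ : Fin n → GK i₀ →* Matrix (Fin 2) (Fin 2) ℤ_[2]}

include hi in
lemma ne12 (hι₁ : ‖ι₁ i₀‖ < 1) (hι₂ : ‖ι₂ (1 - i₀)‖ < 1) : ι₁ ≠ ι₂ := by
  rintro rfl
  have h3 : ‖ι₁ (1 : QB)‖ < 1 := by
    have e : (1 : QB) = i₀ + (1 - i₀) := by ring
    rw [e, map_add]
    exact add_lt hι₁ hι₂
  rw [map_one, norm_one] at h3
  exact lt_irrefl _ h3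

lemma norm_p_lt {p : ℕ} [Fact p.Prime] {w : PadicAlgCl p} (hw : w ^ 2 = w - 2) :
    ‖em hw ((p : ℕ) : OO)‖ < 1 := by
  rw [map_natCast]
  exact Pool.Agent.W571.RK.norm_p_lt_one

include hi in
/-- the conditions for the tensor products -/
theorem rc_tens (hr : r ^ 2 = em hi D) (hI : I ^ 2 = -1) (hD : D ≠ 0)
    (hrk : ∀ k, rk k ^ 2 = em hi (d k)) (hs : s ≠ 0) (hrs : r * em hi s = ∏ k, rk k)
    (hρ : ∀ k, Rho hi (a k) (b k) (c k) (rk k) I ι₁ ι₂ (ρ k)) (hn : n = 2 * m + 1)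
    (hι₁ : ‖ι₁ i₀‖ < 1) (hι₂ : ‖ι₂ (1 - i₀)‖ < 1) (h0 : ∀ k, a k * b k * c k ≠ 0)
    (hbad : ∀ (p : ℕ) [Fact p.Prime], p ≠ 2 → ∀ π : OO, Prime π → π ∣ ((p : ℕ) : OO) →
      π ∣ D * ∏ k, (a k * b k * c k) → NS i i₀ p) :
    RC i (tR ρ (cyc i₀) m) (fun x => if cn x 0 ≤ m then ι₁ else ι₂) := by
  have hne := ne12 hi hι₁ hι₂
  have vd := vd_of (i := m) hi hr hI hD hrk hs hrs hρ
  set κ : (Fin n → Fin 2) → (QB →ₐ[ℚ] PadicAlgCl 2) := fun x => if cn x 0 ≤ m then ι₁ else ι₂
    with hκ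
  have κ1 : ∀ x, κ x = ι₁ ↔ cn x 0 ≤ m := by
    intro x
    simp only [hκ]
    split_ifs with h
    · simp [h]
    · simp [h, hne.symm]
  have κ2 : ∀ x, κ x = ι₂ ↔ cn x 1 ≤ m := by
    intro x
    have h3 := cn_add x
    simp only [hκ]
    split_ifs with h
    · constructor
      · intro h4; exact absurd h4 hne
      · intro h4; omega
    · constructor
      · intro _; omega
      · intro _; rfl
  have κor : ∀ x, κ x = ι₁ ∨ κ x = ι₂ := by
    intro x
    simp only [hκ]
    split_ifs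
    · exact Or.inl rfl
    · exact Or.inr rfl
  refine ⟨vd.tr hi, ?_, ?_⟩
  · intro x σ hσ v hv x' hx'
    have h01 : ∀ s : Fin 2, s ≠ 0 → s = 1 := by decide
    have h10 : ∀ s : Fin 2, s ≠ 1 → s = 0 := by decide
    rcases κor x with h3 | h3
    · rw [h3] at hσ hv hx'
      refine tR_stable ρ (cyc i₀) m (t := 0) (m := m) (fun k s hs => ?_) (fun b hb => hv b ((κ1 b).2 hb))
        x' ((κ1 x').1 hx')
      rw [h01 s hs]
      exact (hρ k).d1 σ hσ
    · rw [h3] at hσ hv hx'
      refine tR_stable ρ (cyc i₀) m (t := 1) (m := m) (fun k s hs => ?_) (fun b hb => hv b ((κ2 b).2 hb))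
        x' ((κ2 x').1 hx')
      rw [h10 s hs]
      exact (hρ k).d2 σ hσ
  · intro p _ hp ι
    by_cases hg : (∀ k, ‖em (iw hi ι) (a k * b k * c k)‖ = 1) ∧ ‖em (iw hi ι) D‖ = 1
    · left
      obtain ⟨hg, hDu⟩ := hg
      have hfac : ∀ k, ‖ι (em hi (a k))‖ = 1 ∧ ‖ι (em hi (b k))‖ = 1 ∧ ‖ι (em hi (c k))‖ = 1 := by
        intro k
        have h3 := hg k
        rw [map_mul, map_mul, norm_mul, norm_mul] at h3
        rw [ι_em, ι_em, ι_em]
        have n1 := em_le (iw hi ι) (a k)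
        have n2 := em_le (iw hi ι) (b k)
        have n3 := em_le (iw hi ι) (c k)
        have m1 := norm_nonneg (em (iw hi ι) (a k))
        have m2 := norm_nonneg (em (iw hi ι) (b k))
        have m3 := norm_nonneg (em (iw hi ι) (c k))
        have m12 : ‖em (iw hi ι) (a k)‖ * ‖em (iw hi ι) (b k)‖ ≤ 1 := mul_le_one₀ n1 m2 n2
        have e3 : ‖em (iw hi ι) (c k)‖ = 1 := by nlinarith
        rw [e3, mul_one] at h3
        have e2 : ‖em (iw hi ι) (b k)‖ = 1 := by nlinarith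
        rw [e2, mul_one] at h3
        exact ⟨h3, e2, e3⟩
      intro σ hσ
      have hχ := cyc_inert hp hσ
      obtain ⟨ep, hp1, hσr, hσr'⟩ := signs' hi hrk hs hrs σ
      have hsc : ∀ k, ρ k σ = (ep k : ℤ_[2]) • 1 := by
        intro k
        have h2 := hσr k
        have h4 := (hρ k).odd p ι hp (hfac k).1 (hfac k).2.1 (hfac k).2.2 σ hσ
        rcases hp1 k with h1 | h1
        · rw [h1] at h2 ⊢
          rw [h4.1 (by rw [h2]; simp)]
          simp
        · rw [h1] at h2 ⊢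
          rw [h4.2 (by rw [h2]; simp)]
          simp
      have hR := tR_scalar ρ (cyc i₀) m hsc hχ
      have hprod : (∏ k, (ep k : ℤ_[2])) = ((∏ k, ep k : ℤ) : ℤ_[2]) := by push_cast; rfl
      rw [hprod] at hR
      -- the square root of `D` is fixed
      have hfix : σ r = r := by
        obtain ⟨τ, hτ, hin⟩ := hσ
        have h3 : (ι r) ^ 2 = em (iw hi ι) D := by rw [← map_pow, hr, ι_em]
        have h4 : τ (ι r) = ι r :=
          fix_of_unit (iw hi ι) hp h3 (by rw [hDu]; exact lt_irrefl _) hin hτ.fix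
        apply ι.injective
        show ι (σ r) = ι r
        rw [← hτ, h4]
      have hr0 : r ≠ 0 := by
        rintro rfl
        rw [zero_pow two_ne_zero] at hr
        exact em_ne hi hD hr.symm
      rcases prod_sgn hp1 with h3 | h3
      · rw [h3] at hR
        intro v
        rw [hR]
        simp
      · exfalso
        rw [h3, hfix, Int.cast_neg, Int.cast_one, neg_one_mul] at hσr'
        exact ne_neg' hr0 hσr'
    · right
      have hX0 : D * ∏ k, (a k * b k * c k) ≠ 0 :=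
        mul_ne_zero hD (Finset.prod_ne_zero_iff.2 fun k _ => h0 k)
      have hlt : ‖em (iw hi ι) (D * ∏ k, (a k * b k * c k))‖ < 1 := by
        have hle : ∀ S : Finset (Fin n), ‖em (iw hi ι) (∏ k ∈ S, (a k * b k * c k))‖ ≤ 1 :=
          fun S => em_le _ _
        rw [map_mul, norm_mul]
        have n1 := em_le (iw hi ι) D
        have n2 := hle Finset.univ
        have m1 := norm_nonneg (em (iw hi ι) D)
        have m2 := norm_nonneg (em (iw hi ι) (∏ k, (a k * b k * c k)))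
        rw [not_and_or] at hg
        rcases hg with hg | hg
        · push Not at hg
          obtain ⟨k, hk⟩ := hg
          have h3 : ‖em (iw hi ι) (a k * b k * c k)‖ < 1 := lt_of_le_of_ne (em_le _ _) hk
          have h4 : ‖em (iw hi ι) (∏ k, (a k * b k * c k))‖ < 1 := by
            rw [← Finset.mul_prod_erase Finset.univ _ (Finset.mem_univ k), map_mul, norm_mul]
            have n3 := hle (Finset.univ.erase k)
            have m3 := norm_nonneg (em (iw hi ι) (a k * b k * c k))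
            have m4 := norm_nonneg (em (iw hi ι) (∏ x ∈ Finset.univ.erase k, (a x * b x * c x)))
            calc _ ≤ ‖em (iw hi ι) (a k * b k * c k)‖ * 1 := mul_le_mul_of_nonneg_left n3 m3
              _ < 1 := by rwa [mul_one]
          calc _ ≤ 1 * ‖em (iw hi ι) (∏ k, (a k * b k * c k))‖ := mul_le_mul_of_nonneg_right n1 m2
            _ < 1 := by rwa [one_mul]
        · have h3 : ‖em (iw hi ι) D‖ < 1 := lt_of_le_of_ne n1 hg
          calc _ ≤ ‖em (iw hi ι) D‖ * 1 := mul_le_mul_of_nonneg_left n2 m1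
            _ < 1 := by rwa [mul_one]
      obtain ⟨π, hπ, hd, hπl⟩ := exists_below (iw hi ι) hX0 hlt
      exact hbad p hp π hπ ((dvd_iff (iw hi ι) hπ hπl _).2 (norm_p_lt (iw hi ι))) hd

end

end Pool.Agent.Helper891_RP
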