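import Pool.Agent.Helper891_RP.Key
import Pool.Agent.Helper891_RP.It

/-!
# Selmer groups over `K` and over `K F`
-/

set_option autoImplicit false
set_option linter.unusedSectionVars false

open NumberField IsDedekindDomain Module

namespace Pool.Agent.Helper891_RP

open scoped Classical

open Pool.Agent.Y715.Nr Pool.Agent.Y715.Red
open Pool.Agent.Y715.Gi (QB KK GK i₀_mem gk_fix)
open Pool.Agent.Y715.Df (Cmp exists_cmp)
open Pool.Agent.R384 (II DD iw Tr vadd vsub norm_two')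
open Pool.Agent.Y682 (NCl)

section fin

variable {B : Type} [Fintype B] {G : Type} [Group G] {H : Subgroup G} [hN : H.Normal]
  [hF : H.FiniteIndex] {R : Representation ℚ_[2] G (B → ℚ_[2])}

/-- from a subgroup of finite index to the group -/
theorem fin_index {C : G → B → ℚ_[2]} (hC : ∀ σ τ, C (σ * τ) = C σ + R σ (C τ)) (D : Subgroup G)
    {y : B → ℚ_[2]} (hy : ∀ h ∈ D, h ∈ H → C h = R h y - y) :
    ∃ z : B → ℚ_[2], ∀ g ∈ D, C g = R g z - z := by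
  let H' : Subgroup D := H.subgroupOf D
  let R' : Representation ℚ_[2] D (B → ℚ_[2]) := R.comp D.subtype
  let r : D ⧸ H' → D := Quotient.out
  have hr : Sec r := fun δ => Quotient.out_eq δ
  let C' : D → B → ℚ_[2] := fun g => C g - (R g y - y)
  have hC' : ∀ σ τ, C' (σ * τ) = C' σ + R' σ (C' τ) := by
    intro σ τ
    show C ((σ : G) * (τ : G)) - (R ((σ : G) * (τ : G)) y - y) =
      C σ - (R σ y - y) + R σ (C τ - (R τ y - y))
    rw [hC, Ru_mul, map_sub, map_sub]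
    abel
  have h0 : ∀ h ∈ H', C' h = 0 := by
    intro h hh
    show C h - (R h y - y) = 0
    rw [hy h h.2 hh, sub_self]
  set m := Fintype.card (D ⧸ H') with hm
  have hm0 : (m : ℚ_[2]) ≠ 0 := by
    rw [hm]
    exact_mod_cast Fintype.card_ne_zero
  set T := ∑ δ : D ⧸ H', C' (r δ) with hT
  refine ⟨y - (m : ℚ_[2])⁻¹ • T, fun g hg => ?_⟩
  have h1 := cor_res (R := R') hr hC' ⟨g, hg⟩
  have h2 : cor R' r C' ⟨g, hg⟩ = 0 := by
    unfold cor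
    refine Finset.sum_eq_zero fun δ _ => ?_
    rw [h0 _ (hr.mem _ _), map_zero]
  rw [h2, ← hT, ← hm] at h1
  have h3 : C' ⟨g, hg⟩ = C g - (R g y - y) := rfl
  have h4 : R' ⟨g, hg⟩ T = R g T := rfl
  rw [h3, h4] at h1
  have h5 : C g - (R g y - y) = -((m : ℚ_[2])⁻¹ • (R g T - T)) := by
    have h6 : (m : ℚ_[2]) • (C g - (R g y - y)) = -(R g T - T) := by
      rw [Nat.cast_smul_eq_nsmul]
      exact eq_neg_of_add_eq_zero_left h1.symm
    have h7 := congrArg (fun v => (m : ℚ_[2])⁻¹ • v) h6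
    simp only [smul_smul, inv_mul_cancel₀ hm0, one_smul, smul_neg] at h7
    exact h7
  rw [map_sub, map_smul]
  rw [sub_eq_iff_eq_add] at h5
  rw [h5, smul_sub]
  abel

lemma mdv_small {x y : ℚ_[2]} (hx : ‖x‖ ≤ 1) (hy : ‖y - x‖ < 1) : mdv y = mdv x := by
  have e : y = x + (y - x) := by ring
  rw [e, mdv_add hx hy.le, mdv_zero.2 hy, add_zero]

end fin

/-- the decomposition group as a subgroup -/
def DDs {i₀ : QB} {p : ℕ} [Fact p.Prime] (ι : QB →ₐ[ℚ] PadicAlgCl p) : Subgroup (GK i₀) where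
  carrier := DD ι
  mul_mem' := by
    rintro a b ⟨s, hs⟩ ⟨t, ht⟩
    exact ⟨s * t, hs.mul ht⟩
  one_mem' := ⟨1, fun _ => rfl⟩
  inv_mem' := by
    rintro a ⟨s, hs⟩
    refine ⟨s⁻¹, fun x => ?_⟩
    have h5 := hs (a⁻¹ x)
    rw [← AlgEquiv.mul_apply a a⁻¹, mul_inv_cancel, AlgEquiv.one_apply] at h5
    rw [← h5, ← AlgEquiv.mul_apply s⁻¹ s, inv_mul_cancel, AlgEquiv.one_apply]

lemma mem_DDs {i₀ : QB} {p : ℕ} [Fact p.Prime] {ι : QB →ₐ[ℚ] PadicAlgCl p} {σ : GK i₀} :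
    σ ∈ DDs ι ↔ σ ∈ (DD ι : Set (GK i₀)) := Iff.rfl

/-- the inertia group as a subgroup -/
def IIs {i₀ : QB} {p : ℕ} [Fact p.Prime] (ι : QB →ₐ[ℚ] PadicAlgCl p) : Subgroup (GK i₀) where
  carrier := II ι
  mul_mem' := by
    rintro a b ⟨s, hs, hs'⟩ ⟨t, ht, ht'⟩
    refine ⟨s * t, hs.mul ht, fun z hz => ?_⟩
    have h1 := hs' (t z) (by rwa [nrm])
    have h2 := ht' z hz
    have e : (s * t) z - z = (s (t z) - t z) + (t z - z) := by
      rw [AlgEquiv.mul_apply]; ring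
    rw [e]
    exact add_lt h1 h2
  one_mem' := ⟨1, fun _ => rfl, fun z _ => by
    rw [AlgEquiv.one_apply, sub_self, norm_zero]; exact one_pos⟩
  inv_mem' := by
    rintro a ⟨s, hs, hs'⟩
    refine ⟨s⁻¹, fun x => ?_, fun z hz => ?_⟩
    · have h5 := hs (a⁻¹ x)
      rw [← AlgEquiv.mul_apply a a⁻¹, mul_inv_cancel, AlgEquiv.one_apply] at h5
      rw [← h5, ← AlgEquiv.mul_apply s⁻¹ s, inv_mul_cancel, AlgEquiv.one_apply]
    · have h1 := hs' z hz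
      have e : s⁻¹ z - z = -(s⁻¹ (s z - z)) := by
        rw [map_sub, ← AlgEquiv.mul_apply, inv_mul_cancel, AlgEquiv.one_apply]; ring
      rw [e, norm_neg, nrm]
      exact h1

section

variable {F : Type} [Field F] [NumberField F] [IsGalois ℚ F] (i : F →+* QB) {i₀ : QB}
  (hi : i₀ ^ 2 = i₀ - 2) {B : Type} [Fintype B] {R : Representation ℚ_[2] (GK i₀) (B → ℚ_[2])}
  {κ : B → (QB →ₐ[ℚ] PadicAlgCl 2)} {c : GK i₀ → B → ℚ_[2]}

/-- the standard section -/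
noncomputable def rs : GK i₀ ⧸ HH i i₀ → GK i₀ := Quotient.out

lemma rs_sec : Sec (rs i (i₀ := i₀)) := fun δ => Quotient.out_eq δ

/-- the Selmer conditions over `K F` -/
structure PS (R : Representation ℚ_[2] (GK i₀) (B → ℚ_[2])) (κ : B → (QB →ₐ[ℚ] PadicAlgCl 2))
    (c : GK i₀ → B → ℚ_[2]) : Prop where
  coc : CocOn (HH i i₀) R c
  cont : ∀ ε : ℝ, 0 < ε → ∃ U : Set (GK i₀), IsOpen U ∧ (1 : GK i₀) ∈ U ∧
    ∀ τ ∈ U, τ ∈ HH i i₀ → ‖c τ‖ < ε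
  odd : ∀ (p : ℕ) [Fact p.Prime] (ι : QB →ₐ[ℚ] PadicAlgCl p), p ≠ 2 →
    ∃ y : B → ℚ_[2], ∀ σ ∈ (II ι : Set (GK i₀)), σ ∈ HH i i₀ → c σ = R σ y - y
  two : ∀ b, ∃ y : B → ℚ_[2], ∀ σ ∈ (DD (κ b) : Set (GK i₀)), σ ∈ HH i i₀ →
    ∀ b', κ b' = κ b → c σ b' = (R σ y - y) b'

/-- the conditions on the representation -/
structure RC (R : Representation ℚ_[2] (GK i₀) (B → ℚ_[2])) (κ : B → (QB →ₐ[ℚ] PadicAlgCl 2)) :
    Prop where
  tr : Tr R
  st : ∀ b, ∀ σ ∈ (DD (κ b) : Set (GK i₀)), ∀ v : B → ℚ_[2], (∀ b', κ b' = κ b → v b' = 0) →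
    ∀ b', κ b' = κ b → R σ v b' = 0
  good : ∀ (p : ℕ) [Fact p.Prime], p ≠ 2 → ∀ ι : QB →ₐ[ℚ] PadicAlgCl p,
    (∀ σ ∈ (II ι : Set (GK i₀)), ∀ v, R σ v = v) ∨ NS i i₀ p

lemma exists_sec {p : ℕ} [Fact p.Prime] (hns : NS i i₀ p) (ι : QB →ₐ[ℚ] PadicAlgCl p) :
    ∃ ρ : GK i₀ ⧸ HH i i₀ → GK i₀, Sec ρ ∧ ∀ δ, ρ δ ∈ DDs ι := by
  choose ρ h1 h2 using fun δ : GK i₀ ⧸ HH i i₀ => hns ι (rs i δ)
  refine ⟨ρ, fun δ => ?_, h1⟩
  have h3 := QuotientGroup.eq.2 (h2 δ)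
  exact h3.trans (rs_sec i δ)

variable {i}

lemma PS.smul (h : PS i R κ c) (a : ℚ_[2]) : PS i R κ fun σ => a • c σ := by
  refine ⟨?_, ?_, ?_, ?_⟩
  · intro σ hσ τ hτ
    show a • c (σ * τ) = a • c σ + R σ (a • c τ)
    rw [h.coc σ hσ τ hτ, map_smul, smul_add]
  · intro ε hε
    by_cases ha : a = 0
    · exact ⟨Set.univ, isOpen_univ, trivial, fun τ _ _ => by
        show ‖a • c τ‖ < ε
        rw [ha, zero_smul, norm_zero]; exact hε⟩
    · have ha' : 0 < ‖a‖ := norm_pos_iff.2 ha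
      obtain ⟨U, h1, h2, h3⟩ := h.cont (ε / ‖a‖) (by positivity)
      refine ⟨U, h1, h2, fun τ hτ hτH => ?_⟩
      have h4 := h3 τ hτ hτH
      show ‖a • c τ‖ < ε
      rw [norm_smul]
      rwa [lt_div_iff₀' ha'] at h4
  · intro p _ ι hp
    obtain ⟨y, hy⟩ := h.odd p ι hp
    exact ⟨a • y, fun σ h1 h2 => by
      show a • c σ = _
      rw [hy σ h1 h2, map_smul, smul_sub]⟩
  · intro b
    obtain ⟨y, hy⟩ := h.two b
    refine ⟨a • y, fun σ h1 h2 b' hb' => ?_⟩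
    show (a • c σ) b' = _
    have h3 := hy σ h1 h2 b' hb'
    rw [map_smul, ← smul_sub, Pi.smul_apply, Pi.smul_apply, h3]

lemma cor_on (c : GK i₀ → B → ℚ_[2]) (r : GK i₀ ⧸ HH i i₀ → GK i₀) {h : GK i₀} (hh : h ∈ HH i i₀) :
    cor R r c h = ∑ δ, R (r δ) (c ((r δ)⁻¹ * h * r δ)) := by
  unfold cor
  exact Finset.sum_congr rfl fun δ _ => by rw [smul_of_mem hh]

lemma conj_HH {h : GK i₀} (hh : h ∈ HH i i₀) (g : GK i₀) : g⁻¹ * h * g ∈ HH i i₀ := by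
  have h2 : (HH i i₀).Normal := inferInstance
  have := h2.conj_mem h hh g⁻¹
  rwa [inv_inv] at this

/-- the embedding `ι ∘ σ` -/
noncomputable def cp {p : ℕ} [Fact p.Prime] (ι : QB →ₐ[ℚ] PadicAlgCl p) (σ : GK i₀) :
    QB →ₐ[ℚ] PadicAlgCl p := ι.comp (σ.toAlgHom.restrictScalars ℚ)

lemma II_cp {p : ℕ} [Fact p.Prime] {ι : QB →ₐ[ℚ] PadicAlgCl p} {h : GK i₀} (hh : h ∈ (II ι : Set _))
    (g : GK i₀) : g⁻¹ * h * g ∈ (II (cp ι g) : Set (GK i₀)) := by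
  obtain ⟨τ, h1, h2⟩ := hh
  refine ⟨τ, fun x => ?_, h2⟩
  show τ (ι (g x)) = ι (g ((g⁻¹ * h * g) x))
  rw [h1, AlgEquiv.mul_apply, AlgEquiv.mul_apply, ← AlgEquiv.mul_apply g g⁻¹, mul_inv_cancel,
    AlgEquiv.one_apply]

/-- the corestriction at the places above two -/
lemma cor_two (rc : RC i R κ) (hns : NS i i₀ 2) (h : PS i R κ c) (b : B) :
    ∃ y : B → ℚ_[2], ∀ σ ∈ (DD (κ b) : Set (GK i₀)), ∀ b', κ b' = κ b →
      cor R (rs i) c σ b' = (R σ y - y) b' := by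
  obtain ⟨ρ, hρ, hρD⟩ := exists_sec i hns (κ b)
  obtain ⟨y, hy⟩ := h.two b
  let F : Submodule ℚ_[2] (B → ℚ_[2]) :=
    { carrier := {v | ∀ b', κ b' = κ b → v b' = 0}
      add_mem' := fun {u v} hu hv b hb => by rw [Pi.add_apply, hu b hb, hv b hb, add_zero]
      zero_mem' := fun b _ => rfl
      smul_mem' := fun a v hv b hb => by rw [Pi.smul_apply, hv b hb, smul_zero] }
  set Z := ∑ δ : GK i₀ ⧸ HH i i₀, R (ρ δ) y with hZ
  set U := ∑ δ : GK i₀ ⧸ HH i i₀, R (rs i δ) (c ((rs i δ)⁻¹ * ρ δ)) with hU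
  refine ⟨Z - U, fun σ hσ b' hb' => ?_⟩
  have h1 := cor_cob_mod (R := R) (F := F) (D := DDs (κ b)) (c := c) (y := y) hρ hρD
    (fun σ hσ v hv => rc.st b σ hσ v hv) (fun σ h1 h2 b' hb' => by
      rw [Pi.sub_apply, hy σ h1 h2 b' hb', sub_self]) (g := σ) hσ b' hb'
  have h2 := congrFun (cor_change (R := R) (rs_sec i) hρ h.coc σ) b'
  rw [← hU] at h2
  rw [map_sub]
  simp only [Pi.add_apply, Pi.sub_apply] at h1 h2 ⊢
  linear_combination h1 - h2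

/-- the corestriction at the odd places -/
lemma cor_odd (h : PS i R κ c) (p : ℕ) [Fact p.Prime] (ι : QB →ₐ[ℚ] PadicAlgCl p) (hp : p ≠ 2) :
    ∃ y : B → ℚ_[2], ∀ σ ∈ (II ι : Set (GK i₀)), σ ∈ HH i i₀ → cor R (rs i) c σ = R σ y - y := by
  choose y hy using fun δ : GK i₀ ⧸ HH i i₀ => h.odd p (cp ι (rs i δ)) hp
  refine ⟨∑ δ, R (rs i δ) (y δ), fun σ hσ hσH => ?_⟩
  rw [cor_on c _ hσH, map_sum, ← Finset.sum_sub_distrib]
  refine Finset.sum_congr rfl fun δ _ => ?_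
  rw [hy δ _ (II_cp hσ _) (conj_HH hσH _), map_sub, ← Ru_mul, ← Ru_mul]
  congr 3
  group

lemma cor_cont (ht : Tr R) (h : PS i R κ c) (ε : ℝ) (hε : 0 < ε) :
    ∃ U : Set (GK i₀), IsOpen U ∧ (1 : GK i₀) ∈ U ∧
      ∀ τ ∈ U, τ ∈ HH i i₀ → ‖cor R (rs i) c τ‖ ≤ ε := by
  obtain ⟨U, h1, h2, h3⟩ := h.cont ε hε
  refine ⟨⋂ δ : GK i₀ ⧸ HH i i₀, (fun τ => (rs i δ)⁻¹ * τ * rs i δ) ⁻¹' U, ?_, ?_, ?_⟩
  · exact isOpen_iInter_of_finite fun δ => h1.preimage (by fun_prop)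
  · rw [Set.mem_iInter]
    intro δ
    show (rs i δ)⁻¹ * 1 * rs i δ ∈ U
    rw [mul_one, inv_mul_cancel]
    exact h2
  · intro τ hτ hτH
    rw [Set.mem_iInter] at hτ
    rw [cor_on c _ hτH]
    exact vsum _ _ hε.le fun δ _ => (norm_R ht _ _).trans (h3 _ (hτ δ) (conj_HH hτH _)).le

/-- the projection of a Selmer class -/
lemma EE_PS (rc : RC i R κ) (hns : NS i i₀ 2) (h : PS i R κ c) : PS i R κ (EE R (rs i) c) := by
  set n := Fintype.card (GK i₀ ⧸ HH i i₀) with hn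
  have hdef : ∀ σ, EE R (rs i) c σ = n • c σ - cor R (rs i) c σ := fun σ => rfl
  refine ⟨?_, ?_, ?_, ?_⟩
  · intro σ hσ τ hτ
    rw [hdef, hdef, hdef, h.coc σ hσ τ hτ, cor_mul (rs_sec i) h.coc, map_sub, map_nsmul, smul_add]
    abel
  · intro ε hε
    obtain ⟨U, h1, h2, h3⟩ := h.cont ε hε
    obtain ⟨V, k1, k2, k3⟩ := cor_cont rc.tr h (ε / 2) (by positivity)
    refine ⟨U ∩ V, h1.inter k1, ⟨h2, k2⟩, fun τ hτ hτH => ?_⟩
    rw [hdef]
    have h4 := h3 τ hτ.1 hτH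
    have h5 := k3 τ hτ.2 hτH
    have h6 : ‖n • c τ - cor R (rs i) c τ‖ ≤ max ‖c τ‖ (ε / 2) :=
      vsub (by positivity) (vnsmul.trans (le_max_left _ _)) (h5.trans (le_max_right _ _))
    exact h6.trans_lt (max_lt h4 (by linarith))
  · intro p _ ι hp
    obtain ⟨y, hy⟩ := h.odd p ι hp
    obtain ⟨z, hz⟩ := cor_odd h p ι hp
    refine ⟨n • y - z, fun σ h1 h2 => ?_⟩
    rw [hdef, hy σ h1 h2, hz σ h1 h2, map_sub, map_nsmul, smul_sub]
    abel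
  · intro b
    obtain ⟨y, hy⟩ := h.two b
    obtain ⟨z, hz⟩ := cor_two rc hns h b
    refine ⟨n • y - z, fun σ h1 h2 b' hb' => ?_⟩
    have e1 := hy σ h1 h2 b' hb'
    have e2 := hz σ h1 b' hb'
    rw [hdef, map_sub, map_nsmul]
    simp only [Pi.sub_apply, Pi.smul_apply] at e1 e2 ⊢
    rw [e1, e2, smul_sub]
    ring

variable (hx : Fact (∀ r : F, r ^ 2 ≠ (-7 : F) + 0 * r))

include hi hx in
/-- **Divisibility.** -/
theorem step [IsTotallyReal F] (hN : Odd (Nat.card (NCl F))) (hodd : Odd (finrank ℚ F))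
    (h2 : ∀ v w : HeightOneSpectrum (𝓞 F), (2 : 𝓞 F) ∈ v.asIdeal → (2 : 𝓞 F) ∈ w.asIdeal → v = w)
    (h7 : ∀ v w : HeightOneSpectrum (𝓞 F), (7 : 𝓞 F) ∈ v.asIdeal → (7 : 𝓞 F) ∈ w.asIdeal → v = w)
    (rc : RC i R κ) (h : PS i R κ c) (hint : ∀ σ ∈ HH i i₀, ‖c σ‖ ≤ 1) :
    ∃ c', PS i R κ c' ∧ (∀ σ ∈ HH i i₀, ‖c' σ‖ ≤ 1) ∧
      ∀ σ ∈ HH i i₀, EE R (rs i) c σ = (2 : ℚ_[2]) • c' σ := by
  have hns : NS i i₀ 2 := ns_of_unique i hi hodd (by exact_mod_cast h2)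
  have hnodd := card_odd i hodd (i₀ := i₀)
  set n := Fintype.card (GK i₀ ⧸ HH i i₀) with hn
  have hE := EE_PS rc hns h
  have ht := rc.tr
  have hdef : ∀ σ, EE R (rs i) c σ = n • c σ - cor R (rs i) c σ := fun σ => rfl
  have hEint : ∀ σ ∈ HH i i₀, ‖EE R (rs i) c σ‖ ≤ 1 := fun σ hσ =>
    vsub zero_le_one (vnsmul.trans (hint σ hσ)) (cor_int ht (rs_sec i) hint σ)
  have hEb : ∀ σ ∈ HH i i₀, ∀ b, ‖EE R (rs i) c σ b‖ ≤ 1 := fun σ hσ b =>
    (norm_le_pi_norm _ b).trans (hEint σ hσ)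
  have key : ∀ b, ∀ σ ∈ HH i i₀, mdv (EE R (rs i) c σ b) = 0 := by
    intro b
    refine hom_zero i hi hN hodd h2 h7 (r := rs i) ?_ ?_ ?_ ?_ (κ b) ?_
    · obtain ⟨U, h1, h2, h3⟩ := hE.cont 1 one_pos
      exact ⟨U, h1, h2, fun τ h4 h5 => mdv_zero.2 ((norm_le_pi_norm _ b).trans_lt (h3 τ h4 h5))⟩
    · intro σ hσ τ hτ
      rw [← mdv_add (hEb σ hσ b) (hEb τ hτ b)]
      apply mdv_small (Pool.Agent.R384.add_le' (hEb σ hσ b) (hEb τ hτ b))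
      rw [hE.coc σ hσ τ hτ, Pi.add_apply]
      have e : EE R (rs i) c σ b + R σ (EE R (rs i) c τ) b -
          (EE R (rs i) c σ b + EE R (rs i) c τ b) = (R σ (EE R (rs i) c τ) - EE R (rs i) c τ) b := by
        rw [Pi.sub_apply]; ring
      rw [e]
      exact ((norm_le_pi_norm _ b).trans (cob_small ht (hEint τ hτ) σ)).trans_lt (by norm_num)
    · intro σ hσ
      rw [← mdv_sum Finset.univ _ fun δ _ => hEb _ (conj_HH hσ _) b]
      rw [mdv_zero]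
      have e1 : cor R (rs i) (EE R (rs i) c) σ = -(R σ (∑ δ : GK i₀ ⧸ HH i i₀, cor R (rs i) c (rs i δ)) -
          ∑ δ : GK i₀ ⧸ HH i i₀, cor R (rs i) c (rs i δ)) := by
        have h8 := EE_EE (R := R) (rs_sec i) h.coc (g := σ)
        have h9 : EE R (rs i) (EE R (rs i) c) σ = n • EE R (rs i) c σ -
          cor R (rs i) (EE R (rs i) c) σ := rfl
        rw [h9, sub_eq_add_neg, add_right_inj] at h8
        rw [← h8, neg_neg]
      have e2 : ‖cor R (rs i) (EE R (rs i) c) σ‖ ≤ 1 / 2 := by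
        rw [e1, norm_neg]
        exact cob_small ht (vsum _ _ zero_le_one fun δ _ => cor_int ht (rs_sec i) hint _) σ
      rw [cor_on _ _ hσ] at e2
      have e3 : ‖∑ δ, EE R (rs i) c ((rs i δ)⁻¹ * σ * rs i δ)‖ ≤ 1 / 2 := by
        have e4 : ∑ δ, EE R (rs i) c ((rs i δ)⁻¹ * σ * rs i δ) =
            ∑ δ, R (rs i δ) (EE R (rs i) c ((rs i δ)⁻¹ * σ * rs i δ)) -
            ∑ δ, (R (rs i δ) (EE R (rs i) c ((rs i δ)⁻¹ * σ * rs i δ)) -
              EE R (rs i) c ((rs i δ)⁻¹ * σ * rs i δ)) := by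
          rw [Finset.sum_sub_distrib]
          abel
        rw [e4]
        exact vsub (by norm_num) e2 (vsum _ _ (by norm_num) fun δ _ =>
          cob_small ht (hEint _ (conj_HH hσ _)) _)
      have e5 := (norm_le_pi_norm _ b).trans e3
      rw [Finset.sum_apply] at e5
      exact e5.trans_lt (by norm_num)
    · intro p _ hp ι
      rcases rc.good p hp ι with hg | hg
      · left
        intro σ hσ hσH
        obtain ⟨y, hy⟩ := hE.odd p ι hp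
        rw [hy σ hσ hσH, hg σ hσ, sub_self, Pi.zero_apply, mdv_zero, norm_zero]
        exact one_pos
      · right
        exact hg
    · intro σ hσ hσH
      obtain ⟨ρ, hρ, hρD⟩ := exists_sec i hns (κ b)
      obtain ⟨y, hy⟩ := h.two b
      have h3 := loc2 (R := R) (S := {b' | κ b' = κ b}) ht hnodd hρ hρD
        (fun σ hσ v hv b' hb' => rc.st b σ hσ v hv b' hb') hint
        (fun σ h1 h2 b' hb' => hy σ h1 h2 b' hb') σ hσ hσH b rfl
      rw [← hn] at h3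
      have h4 := cor_close ht (rs_sec i) hρ h.coc hint σ
      rw [mdv_zero]
      have e : EE R (rs i) c σ b = (n • c σ - cor R ρ c σ) b +
          (cor R ρ c σ - cor R (rs i) c σ) b := by
        rw [hdef]
        simp only [Pi.sub_apply]
        ring
      rw [e]
      exact Pool.Agent.R384.add_lt' h3 (((norm_le_pi_norm _ b).trans h4).trans_lt (by norm_num))
  refine ⟨fun σ => (2 : ℚ_[2])⁻¹ • EE R (rs i) c σ, hE.smul _, fun σ hσ => ?_, fun σ hσ => ?_⟩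
  · show ‖(2 : ℚ_[2])⁻¹ • EE R (rs i) c σ‖ ≤ 1
    rw [norm_smul, norm_inv, norm_two']
    have h3 : ‖EE R (rs i) c σ‖ ≤ 1 / 2 := by
      rw [pi_norm_le_iff_of_nonneg (by norm_num)]
      intro b
      exact Pool.Agent.R384.norm_lt_one (mdv_zero.1 (key b σ hσ))
    norm_num
    linarith
  · show _ = (2 : ℚ_[2]) • (2 : ℚ_[2])⁻¹ • EE R (rs i) c σ
    rw [smul_smul, mul_inv_cancel₀ two_ne_zero, one_smul]

include hi hx in
/-- **Extension of the Selmer cocycles.** -/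
theorem extend [IsTotallyReal F] (hN : Odd (Nat.card (NCl F))) (hodd : Odd (finrank ℚ F))
    (h2 : ∀ v w : HeightOneSpectrum (𝓞 F), (2 : 𝓞 F) ∈ v.asIdeal → (2 : 𝓞 F) ∈ w.asIdeal → v = w)
    (h7 : ∀ v w : HeightOneSpectrum (𝓞 F), (7 : 𝓞 F) ∈ v.asIdeal → (7 : 𝓞 F) ∈ w.asIdeal → v = w)
    (rc : RC i R κ) (h : PS i R κ c) {M : ℝ} (hM : ∀ σ ∈ HH i i₀, ‖c σ‖ ≤ M) :
    ∃ C : GK i₀ → B → ℚ_[2], (∀ σ ∈ HH i i₀, C σ = c σ) ∧
      (∀ σ τ, C (σ * τ) = C σ + R σ (C τ)) ∧ Continuous C ∧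
      (∀ (p : ℕ) [Fact p.Prime] (ι : QB →ₐ[ℚ] PadicAlgCl p), p ≠ 2 →
        ∃ y : B → ℚ_[2], ∀ σ ∈ (II ι : Set (GK i₀)), C σ = R σ y - y) ∧
      ∀ b, ∃ y : B → ℚ_[2], ∀ σ ∈ (DD (κ b) : Set (GK i₀)),
        ∀ b', κ b' = κ b → C σ b' = (R σ y - y) b' := by
  have hns : NS i i₀ 2 := ns_of_unique i hi hodd (by exact_mod_cast h2)
  have hnodd := card_odd i hodd (i₀ := i₀)
  have ht := rc.tr
  obtain ⟨k, hk⟩ := pow_unbounded_of_one_lt M (one_lt_two (α := ℝ))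
  have h20 : (2 : ℚ_[2]) ^ k ≠ 0 := pow_ne_zero _ two_ne_zero
  obtain ⟨y, hy⟩ := engine ht (rs_sec i) hnodd (P := PS i R κ) (fun c h => h.coc)
    (fun c h hint => step hi hx hN hodd h2 h7 rc h hint) (h.smul ((2 : ℚ_[2]) ^ k))
    (fun σ hσ => by
      show ‖(2 : ℚ_[2]) ^ k • c σ‖ ≤ 1
      rw [norm_smul, norm_pow, norm_two']
      have h3 := hM σ hσ
      have h4 : (1 / 2 : ℝ) ^ k * 2 ^ k = 1 := by rw [← mul_pow]; norm_num
      calc (1 / 2 : ℝ) ^ k * ‖c σ‖ ≤ (1 / 2 : ℝ) ^ k * 2 ^ k :=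
            mul_le_mul_of_nonneg_left (h3.trans hk.le) (by positivity)
        _ = 1 := h4)
  set n := Fintype.card (GK i₀ ⧸ HH i i₀) with hn
  have hn0 : (n : ℚ_[2]) ≠ 0 := by
    rw [hn]
    exact_mod_cast Fintype.card_ne_zero
  set z := ((2 : ℚ_[2]) ^ k)⁻¹ • y with hz
  have hEz : ∀ σ ∈ HH i i₀, EE R (rs i) c σ = R σ z - z := by
    intro σ hσ
    have h3 := hy σ hσ
    rw [EE_smul] at h3
    have h4 := congrArg (fun v => ((2 : ℚ_[2]) ^ k)⁻¹ • v) h3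
    simp only [smul_smul, inv_mul_cancel₀ h20, one_smul] at h4
    rw [h4, hz, map_smul, smul_sub]
  clear_value z
  set C : GK i₀ → B → ℚ_[2] := fun σ => (n : ℚ_[2])⁻¹ • (cor R (rs i) c σ + (R σ z - z)) with hC
  have hCH : ∀ σ ∈ HH i i₀, C σ = c σ := by
    intro σ hσ
    show (n : ℚ_[2])⁻¹ • (cor R (rs i) c σ + (R σ z - z)) = c σ
    rw [← hEz σ hσ]
    have e : cor R (rs i) c σ + EE R (rs i) c σ = (n : ℚ_[2]) • c σ := by
      rw [Nat.cast_smul_eq_nsmul]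
      unfold EE
      abel
    rw [e, smul_smul, inv_mul_cancel₀ hn0, one_smul]
  have hCm : ∀ σ τ, C (σ * τ) = C σ + R σ (C τ) := by
    intro σ τ
    show (n : ℚ_[2])⁻¹ • (cor R (rs i) c (σ * τ) + (R (σ * τ) z - z)) =
      (n : ℚ_[2])⁻¹ • (cor R (rs i) c σ + (R σ z - z)) +
      R σ ((n : ℚ_[2])⁻¹ • (cor R (rs i) c τ + (R τ z - z)))
    rw [cor_mul (rs_sec i) h.coc, map_smul, ← smul_add, map_add, map_sub, Ru_mul]
    congr 1
    abel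
  refine ⟨C, hCH, hCm, ?_, ?_, ?_⟩
  · rw [continuous_iff_continuousAt]
    intro g
    rw [Metric.continuousAt_iff']
    intro ε hε
    obtain ⟨U, k1, k2, k3⟩ := h.cont ε hε
    have hV : IsOpen ((fun g' => g⁻¹ * g') ⁻¹' (U ∩ (HH i i₀ : Set (GK i₀)))) :=
      (k1.inter (HH_open i)).preimage (by fun_prop)
    refine Filter.mem_of_superset (hV.mem_nhds ?_) ?_
    · show g⁻¹ * g ∈ U ∩ (HH i i₀ : Set (GK i₀))
      rw [inv_mul_cancel]
      exact ⟨k2, one_mem _⟩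
    · rintro g' ⟨h3, h4⟩
      have h5 : C g' = C g + R g (C (g⁻¹ * g')) := by
        rw [← hCm, mul_inv_cancel_left]
      show dist (C g') (C g) < ε
      rw [h5, dist_eq_norm, add_sub_cancel_left, hCH _ h4]
      exact (norm_R ht _ _).trans_lt (k3 _ h3 h4)
  · intro p _ ι hp
    obtain ⟨y, hy⟩ := h.odd p ι hp
    exact fin_index (H := HH i i₀) (R := R) hCm (IIs ι) (y := y) fun σ h1 h2 => by
      rw [hCH σ h2]; exact hy σ h1 h2
  · intro b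
    obtain ⟨y, hy⟩ := cor_two rc hns h b
    refine ⟨(n : ℚ_[2])⁻¹ • (y + z), fun σ hσ b' hb' => ?_⟩
    have h3 := hy σ hσ b' hb'
    show ((n : ℚ_[2])⁻¹ • (cor R (rs i) c σ + (R σ z - z))) b' = _
    rw [map_smul, map_add, ← smul_sub, Pi.smul_apply, Pi.smul_apply]
    congr 1
    simp only [Pi.add_apply, Pi.sub_apply] at h3 ⊢
    rw [h3]
    ring

end

end Pool.Agent.Helper891_RP
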