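import Pool.Agent.Helper891_RP.Inf9

/-!
# Triples with few bad primes
-/

set_option autoImplicit false
set_option linter.unusedSectionVars false

namespace Pool.Agent.Helper891_RP

open QuadraticAlgebra Pool.Agent.R384

/-- the rational primes below the prime divisors -/
lemma below {π x : OO} (hπ : Prime π) {p : ℕ} (hp : p.Prime) (hd : π ∣ ((p : ℕ) : OO)) (hx : π ∣ x) :
    p ∣ (nn x).natAbs := by
  obtain ⟨t, ht⟩ := hd
  have h1 : nn π * nn t = p ^ 2 := by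
    rw [← nn_mul, ← ht]
    exact_mod_cast nn_int (p : ℤ)
  have h2 : (nn π).natAbs ∣ p ^ 2 := by
    have h3 : (nn π).natAbs * (nn t).natAbs = p ^ 2 := by
      rw [← Int.natAbs_mul, h1, Int.natAbs_pow, Int.natAbs_natCast]
    exact ⟨_, h3.symm⟩
  have h3 : p ∣ (nn π).natAbs := by
    obtain ⟨k, hk, hk'⟩ := (Nat.dvd_prime_pow hp).1 h2
    rcases Nat.eq_zero_or_pos k with h0 | h0
    · exfalso
      rw [h0, pow_zero] at hk'
      have h4 : nn π = 1 := by have := nn_nonneg π; omega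
      exact hπ.not_isUnit (unit_iff.2 h4)
    · rw [hk']
      exact dvd_pow_self p (by omega)
  obtain ⟨y, hy⟩ := hx
  rw [hy, nn_mul, Int.natAbs_mul]
  exact h3.mul_right _

lemma exists_below' {π : OO} (hπ : Prime π) : ∃ p : ℕ, p.Prime ∧ π ∣ ((p : ℕ) : OO) := by
  rcases exists_type hπ with ⟨p, hp, hn⟩ | ⟨l, hl, hq⟩
  · refine ⟨p, hp, cj π, ?_⟩
    rw [mul_cj, hn]
    push_cast
    rfl
  · refine ⟨l, hl, ?_⟩
    rcases hq with h | h
    · rw [h]; exact_mod_cast dvd_rfl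
    · rw [h, Int.cast_neg, neg_dvd]; exact_mod_cast dvd_rfl

/-- the rational primes considered -/
def Nine (p : ℕ) : Prop := p = 3 ∨ p % 9 = 2 ∨ p % 9 = 4 ∨ p % 9 = 5 ∨ p % 9 = 7

lemma tri_ok {x : OO} {L : List (ℕ × OO)}
    (hL : ∀ q ∈ L, q.1.Prime ∧ Nine q.1 ∧ ((q.1 : ℕ) : OO) ∣ q.2 ^ 2 + 1) {k : ℕ}
    (hx : (nn x).natAbs ∣ (2 * (L.map Prod.fst).prod) ^ k) {π : OO} (hπ : Prime π) (h2 : ¬ π ∣ 2)
    (hd : π ∣ x) : Sqm π (-1) ∧ ∀ p : ℕ, p.Prime → π ∣ ((p : ℕ) : OO) → Nine p := by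
  have key : ∀ p : ℕ, p.Prime → π ∣ ((p : ℕ) : OO) → ∃ q ∈ L, q.1 = p := by
    intro p hp hpd
    have h3 := (below hπ hp hpd hd).trans hx
    have h4 := hp.dvd_of_dvd_pow h3
    rcases (Nat.Prime.dvd_mul hp).1 h4 with h5 | h5
    · exfalso
      rw [(Nat.prime_dvd_prime_iff_eq hp Nat.prime_two).1 h5] at hpd
      exact h2 (by exact_mod_cast hpd)
    · rw [Prime.dvd_prod_iff hp.prime] at h5
      obtain ⟨q, hq, hpq⟩ := h5
      rw [List.mem_map] at hq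
      obtain ⟨r, hr, rfl⟩ := hq
      exact ⟨r, hr, ((Nat.prime_dvd_prime_iff_eq hp (hL r hr).1).1 hpq).symm⟩
  obtain ⟨p, hp, hpd⟩ := exists_below' hπ
  refine ⟨?_, fun p hp hpd => ?_⟩
  · obtain ⟨q, hq, hqp⟩ := key p hp hpd
    refine ⟨q.2, ?_⟩
    have h3 : π ∣ q.2 ^ 2 + 1 := (hpd.trans (by rw [← hqp])).trans (hL q hq).2.2
    have e : -1 - q.2 ^ 2 = -(q.2 ^ 2 + 1) := by ring
    rw [e]
    exact (dvd_neg).2 h3
  · obtain ⟨q, hq, hqp⟩ := key p hp hpd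
    rw [← hqp]
    exact (hL q hq).2.1

lemma dvd3 : ((3 : ℕ) : OO) ∣ (⟨1, 1⟩ : OO) ^ 2 + 1 := by
  refine ⟨⟨0, 1⟩, ?_⟩
  ext
  · rw [pow_two, re_add, re_mul, re_mul]; norm_num
  · rw [pow_two, im_add, im_mul, im_mul]; norm_num

end Pool.Agent.Helper891_RP
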